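import Mathlib

set_option autoImplicit false

namespace Pool.Agent.Lib.MP_59be9f_co

open Finset

/-! ### Bernoulli weights on finite sets -/

/-- The probability that a `q`-random subset of `γ` equals `S`. -/
noncomputable def wt {γ : Type*} [Fintype γ] [DecidableEq γ] (q : ℝ) (S : Finset γ) : ℝ :=
  (∏ _g ∈ S, q) * ∏ _g ∈ univ \ S, (1 - q)

lemma wt_nonneg {γ : Type*} [Fintype γ] [DecidableEq γ] {q : ℝ} (h0 : 0 ≤ q) (h1 : q ≤ 1)
    (S : Finset γ) : 0 ≤ wt q S := by
  unfold wt
  refine mul_nonneg (Finset.prod_nonneg fun _ _ => h0) (Finset.prod_nonneg fun _ _ => ?_)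
  linarith

lemma sum_wt_superset {γ : Type*} [Fintype γ] [DecidableEq γ] (q : ℝ) (U : Finset γ) :
    ∑ S : Finset γ, wt q S * (if U ⊆ S then 1 else 0) = q ^ U.card := by
  have h := Finset.prod_add (fun _ : γ => q) (fun g : γ => if g ∈ U then 0 else 1 - q)
    (univ : Finset γ)
  have hl : ∏ g : γ, (q + if g ∈ U then 0 else 1 - q) = q ^ U.card := by
    have : ∀ g : γ, (q + if g ∈ U then 0 else 1 - q) = if g ∈ U then q else 1 := by
      intro g
      by_cases hg : g ∈ U <;> simp [hg]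
    rw [Finset.prod_congr rfl fun g _ => this g, Finset.prod_ite_mem, Finset.univ_inter,
      Finset.prod_const]
  rw [← hl, h, Finset.powerset_univ]
  refine Finset.sum_congr rfl fun S _ => ?_
  unfold wt
  by_cases hU : U ⊆ S
  · rw [if_pos hU, mul_one]
    congr 1
    refine Finset.prod_congr rfl fun g hg => ?_
    have : g ∉ U := fun hgU => (Finset.mem_sdiff.mp hg).2 (hU hgU)
    rw [if_neg this]
  · rw [if_neg hU, mul_zero]
    obtain ⟨g, hgU, hgS⟩ := Finset.not_subset.mp hU
    rw [Finset.prod_eq_zero (i := g) (Finset.mem_sdiff.mpr ⟨Finset.mem_univ g, hgS⟩), mul_zero]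
    rw [if_pos hgU]

/-- Expectation of `F` when its first argument is `x`-random and its second `p`-random. -/
noncomputable def Ex {β α : Type*} [Fintype β] [DecidableEq β] [Fintype α] [DecidableEq α]
    (x p : ℝ) (F : Finset β → Finset α → ℝ) : ℝ :=
  ∑ S : Finset β, ∑ T : Finset α, wt x S * wt p T * F S T

section Ex
variable {β α : Type*} [Fintype β] [DecidableEq β] [Fintype α] [DecidableEq α]

lemma exists_pos_of_Ex_pos {x p : ℝ} (hx0 : 0 ≤ x) (hx1 : x ≤ 1) (hp0 : 0 ≤ p) (hp1 : p ≤ 1)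
    {F : Finset β → Finset α → ℝ} (h : 0 < Ex x p F) : ∃ S T, 0 < F S T := by
  by_contra hne
  push Not at hne
  have : Ex x p F ≤ 0 := by
    unfold Ex
    refine Finset.sum_nonpos fun S _ => Finset.sum_nonpos fun T _ => ?_
    exact mul_nonpos_of_nonneg_of_nonpos
      (mul_nonneg (wt_nonneg hx0 hx1 S) (wt_nonneg hp0 hp1 T)) (hne S T)
  linarith

lemma Ex_sub (x p : ℝ) (F F' : Finset β → Finset α → ℝ) :
    Ex x p (fun S T => F S T - F' S T) = Ex x p F - Ex x p F' := by
  unfold Ex
  rw [← Finset.sum_sub_distrib]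
  refine Finset.sum_congr rfl fun S _ => ?_
  rw [← Finset.sum_sub_distrib]
  refine Finset.sum_congr rfl fun T _ => ?_
  ring

lemma Ex_add (x p : ℝ) (F F' : Finset β → Finset α → ℝ) :
    Ex x p (fun S T => F S T + F' S T) = Ex x p F + Ex x p F' := by
  unfold Ex
  rw [← Finset.sum_add_distrib]
  refine Finset.sum_congr rfl fun S _ => ?_
  rw [← Finset.sum_add_distrib]
  refine Finset.sum_congr rfl fun T _ => ?_
  ring

lemma Ex_mul (x p k : ℝ) (F : Finset β → Finset α → ℝ) :
    Ex x p (fun S T => k * F S T) = k * Ex x p F := by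
  unfold Ex
  rw [Finset.mul_sum]
  refine Finset.sum_congr rfl fun S _ => ?_
  rw [Finset.mul_sum]
  refine Finset.sum_congr rfl fun T _ => ?_
  ring

lemma Ex_sum {ι : Type*} (x p : ℝ) (I : Finset ι) (F : ι → Finset β → Finset α → ℝ) :
    Ex x p (fun S T => ∑ i ∈ I, F i S T) = ∑ i ∈ I, Ex x p (F i) := by
  classical
  induction I using Finset.induction_on with
  | empty => simp [Ex]
  | insert i I hi ih =>
    simp only [Finset.sum_insert hi]
    rw [Ex_add, ih]

lemma Ex_ind (x p : ℝ) (U : Finset β) (W : Finset α) :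
    Ex x p (fun S T => if U ⊆ S ∧ W ⊆ T then 1 else 0) = x ^ U.card * p ^ W.card := by
  unfold Ex
  rw [← sum_wt_superset x U, ← sum_wt_superset p W, Finset.sum_mul_sum]
  refine Finset.sum_congr rfl fun S _ => Finset.sum_congr rfl fun T _ => ?_
  by_cases h1 : U ⊆ S <;> by_cases h2 : W ⊆ T <;> simp [h1, h2]

lemma Ex_one (x p : ℝ) : Ex x p (fun (_ : Finset β) (_ : Finset α) => (1 : ℝ)) = 1 := by
  have := Ex_ind x p (∅ : Finset β) (∅ : Finset α)
  simpa using this

end Ex

/-! ### Pruning -/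

/-- If the total number of fibres is small compared with the number of points, then some
nonempty subset of the points meets each of its fibres in more than `s` points. -/
lemma prune {α β : Type*} [DecidableEq α] [DecidableEq β] (c : ℕ → α → β) (m s : ℕ) :
    ∀ (N : ℕ) (A : Finset α), A.card = N →
      s * ∑ i ∈ range m, (A.image (c i)).card < A.card →
      ∃ X ⊆ A, X.Nonempty ∧
        ∀ a ∈ X, ∀ i < m, s < (X.filter (fun a' => c i a' = c i a)).card := by
  intro N
  induction N using Nat.strong_induction_on with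
  | _ N ih =>
  intro A hA hlt
  by_cases hgood : ∀ a ∈ A, ∀ i < m, s < (A.filter (fun a' => c i a' = c i a)).card
  · refine ⟨A, Finset.Subset.refl A, ?_, hgood⟩
    rw [← Finset.card_pos]
    omega
  · push Not at hgood
    obtain ⟨a, ha, i, hi, hle⟩ := hgood
    set Fb := A.filter (fun a' => c i a' = c i a) with hF
    set A' := A \ Fb with hA'
    have hFA : Fb ⊆ A := Finset.filter_subset _ _
    have haF : a ∈ Fb := by rw [hF]; simp [ha]
    have hFpos : 0 < Fb.card := Finset.card_pos.mpr ⟨a, haF⟩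
    have hcard : A'.card = A.card - Fb.card := Finset.card_sdiff_of_subset hFA
    have hFle : Fb.card ≤ A.card := Finset.card_le_card hFA
    have hsub : ∀ j ∈ range m, (A'.image (c j)).card ≤ (A.image (c j)).card := fun j _ =>
      Finset.card_le_card (Finset.image_subset_image Finset.sdiff_subset)
    have hstrict : (A'.image (c i)).card < (A.image (c i)).card := by
      refine Finset.card_lt_card ?_
      refine (Finset.ssubset_iff_of_subset
        (Finset.image_subset_image Finset.sdiff_subset)).mpr ?_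
      refine ⟨c i a, Finset.mem_image_of_mem _ ha, ?_⟩
      intro hmem
      obtain ⟨a', ha', he⟩ := Finset.mem_image.mp hmem
      rw [Finset.mem_sdiff] at ha'
      exact ha'.2 (by rw [hF, Finset.mem_filter]; exact ⟨ha'.1, he⟩)
    have hsum : ∑ j ∈ range m, (A'.image (c j)).card < ∑ j ∈ range m, (A.image (c j)).card :=
      Finset.sum_lt_sum hsub ⟨i, Finset.mem_range.mpr hi, hstrict⟩
    have hlt' : s * ∑ j ∈ range m, (A'.image (c j)).card < A'.card := by
      have h1 : s * (∑ j ∈ range m, (A'.image (c j)).card + 1) ≤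
          s * ∑ j ∈ range m, (A.image (c j)).card := Nat.mul_le_mul_left s hsum
      rw [Nat.mul_add, Nat.mul_one] at h1
      omega
    obtain ⟨X, hXA, hXne, hX⟩ := ih A'.card (by omega) A' rfl hlt'
    exact ⟨X, hXA.trans Finset.sdiff_subset, hXne, hX⟩

/-! ### The core sampling lemma -/

set_option linter.unusedSectionVars false

section Core
variable {α β : Type*} [Fintype α] [DecidableEq α] [Fintype β] [DecidableEq β]

/-- Triangles whose sides lie in fibres of index `i`, `j`, `k`. -/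
def tri (c : ℕ → α → β) (i j k : ℕ) : Finset (α × α × α) :=
  univ.filter fun τ => τ.1 ≠ τ.2.1 ∧ c i τ.1 = c i τ.2.1 ∧ c j τ.2.1 = c j τ.2.2 ∧
    c k τ.2.2 = c k τ.1

lemma card_tri_le (c : ℕ → α → β) (m : ℕ) (D : ℕ → ℕ)
    (hD : ∀ i < m, ∀ a, (univ.filter (fun a' => c i a' = c i a)).card = D i)
    (hsh : ∀ i < m, ∀ j < m, i ≠ j → ∀ a a', a ≠ a' → c i a = c i a' → c j a ≠ c j a')
    {i j k : ℕ} (hi : i < m) (hj : j < m) (hk : k < m) (hjk : j ≠ k) :
    (tri c i j k).card ≤ Fintype.card α * D i := by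
  have h1 : (univ.filter fun σ : α × α => c i σ.2 = c i σ.1).card = Fintype.card α * D i := by
    rw [Finset.card_filter, ← Finset.univ_product_univ, Finset.sum_product]
    have : ∀ a : α, (∑ a' : α, if c i a' = c i a then 1 else 0) = D i := by
      intro a
      rw [← hD i hi a, Finset.card_filter]
    simp [this, Finset.sum_const, Finset.card_univ]
  rw [← h1]
  refine Finset.card_le_card_of_injOn (fun τ => (τ.1, τ.2.1)) ?_ ?_
  · intro τ hτ
    have hτ' := Finset.mem_coe.mp hτ
    simp only [tri, Finset.mem_filter, Finset.mem_univ, true_and] at hτ'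
    simp only [Finset.coe_filter, Finset.mem_univ, true_and, Set.mem_ofPred_eq]
    exact hτ'.2.1.symm
  · rintro ⟨a, a', a''⟩ hτ ⟨b, b', b''⟩ hτ2 he
    have hτ' := Finset.mem_coe.mp hτ
    have hτ2' := Finset.mem_coe.mp hτ2
    simp only [tri, Finset.mem_filter, Finset.mem_univ, true_and] at hτ' hτ2'
    simp only [Prod.mk.injEq] at he
    obtain ⟨rfl, rfl⟩ := he
    by_cases hab : a'' = b''
    · rw [hab]
    · exfalso
      refine hsh j hj k hk hjk a'' b'' hab ?_ ?_
      · rw [← hτ'.2.2.1, hτ2'.2.2.1]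
      · rw [hτ'.2.2.2, hτ2'.2.2.2]

/-- the sorted index triples below `m` -/
def trip (m : ℕ) : Finset (ℕ × ℕ × ℕ) :=
  (range m ×ˢ range m ×ˢ range m).filter fun σ => σ.1 < σ.2.1 ∧ σ.2.1 < σ.2.2

lemma card_trip_le (m : ℕ) : (trip m).card ≤ m ^ 3 := by
  unfold trip
  refine (Finset.card_filter_le _ _).trans ?_
  rw [Finset.card_product, Finset.card_product, Finset.card_range]
  apply le_of_eq
  ring

lemma mem_trip {m : ℕ} {σ : ℕ × ℕ × ℕ} : σ ∈ trip m ↔
    σ.1 < σ.2.1 ∧ σ.2.1 < σ.2.2 ∧ σ.2.2 < m := by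
  unfold trip
  simp only [Finset.mem_filter, Finset.mem_product, Finset.mem_range]
  omega

lemma card_image_mul (c : ℕ → α → β) (m : ℕ) (D : ℕ → ℕ)
    (hD : ∀ i < m, ∀ a, (univ.filter (fun a' => c i a' = c i a)).card = D i)
    {i : ℕ} (hi : i < m) :
    (univ.image (c i)).card * D i = Fintype.card α := by
  rw [← Finset.card_univ (α := α), Finset.card_eq_sum_card_image (c i) univ]
  rw [Finset.sum_const_nat (m := D i)]
  intro b hb
  obtain ⟨a, _, rfl⟩ := Finset.mem_image.mp hb
  exact hD i hi a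

lemma tri_facts (c : ℕ → α → β) (m : ℕ)
    (hsh : ∀ i < m, ∀ j < m, i ≠ j → ∀ a a', a ≠ a' → c i a = c i a' → c j a ≠ c j a')
    {i j k : ℕ} (hij : i < j) (hjk : j < k) (hk : k < m) {τ : α × α × α}
    (hτ : τ ∈ tri c i j k) :
    ({τ.1, τ.2.1, τ.2.2} : Finset α).card = 3 ∧
    (({c 0 τ.1, c 0 τ.2.1, c 0 τ.2.2} : Finset β).card = if i = 0 then 2 else 3) := by
  obtain ⟨a, a', a''⟩ := τ
  simp only [tri, Finset.mem_filter, Finset.mem_univ, true_and] at hτ
  obtain ⟨hne, h1, h2, h3⟩ := hτ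
  have hne2 : a' ≠ a'' := by
    rintro rfl
    exact hsh i (by omega) k hk (by omega) a a' hne h1 h3.symm
  have hne3 : a ≠ a'' := by
    rintro rfl
    exact hsh i (by omega) j (by omega) (by omega) a a' hne h1 h2.symm
  constructor
  · exact Finset.card_eq_three.mpr ⟨a, a', a'', hne, hne3, hne2, rfl⟩
  · have hj0 : c 0 a' ≠ c 0 a'' := hsh j (by omega) 0 (by omega) (by omega) a' a'' hne2 h2
    have hk0 : c 0 a ≠ c 0 a'' := hsh k hk 0 (by omega) (by omega) a a'' hne3 h3.symm
    split_ifs with hi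
    · subst hi
      simp only [h1]
      rw [Finset.insert_eq_of_mem (Finset.mem_insert_self _ _)]
      exact Finset.card_pair hj0
    · have hi0 : c 0 a ≠ c 0 a' := hsh i (by omega) 0 (by omega) hi a a' hne h1
      exact Finset.card_eq_three.mpr ⟨_, _, _, hi0, hk0, hj0, rfl⟩

/-- Core lemma. -/
theorem core [Nonempty α] (e t : ℕ) (c : ℕ → α → β) (D : ℕ → ℕ)
    (hmono : ∀ i j, i ≤ j → j < e + 4 → D i ≤ D j)
    (hD : ∀ i < e + 4, ∀ a, (univ.filter (fun a' => c i a' = c i a)).card = D i)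
    (hsh : ∀ i < e + 4, ∀ j < e + 4, i ≠ j → ∀ a a', a ≠ a' → c i a = c i a' → c j a ≠ c j a')
    (ht : 1 ≤ t) (h0 : 32 * t ^ 2 * (e + 4) ^ 5 ≤ D 0)
    (h1 : 32 * t ^ 2 * (e + 4) ^ 5 * D (e + 1) ≤ D 1 ^ 2) :
    ∃ X : Finset α, X.Nonempty ∧
      (∀ a ∈ X, ∀ i < e + 4, t ≤ (X.filter (fun a' => c i a' = c i a)).card) ∧
      ∀ i j k, i < j → j < k → k < e + 4 → ∀ a ∈ X, ∀ a' ∈ X, ∀ a'' ∈ X, a ≠ a' →
        c i a = c i a' → c j a' = c j a'' → c k a'' = c k a → False := by
  classical
  obtain ⟨s, rfl⟩ : ∃ s, t = s + 1 := ⟨t - 1, by omega⟩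
  set m := e + 4 with hm
  have hm1 : (1 : ℝ) ≤ m := by
    have : 1 ≤ m := by omega
    exact_mod_cast this
  have hmpos : (0 : ℝ) < m := by linarith
  set n : ℝ := (Fintype.card α : ℝ) with hn
  have hnpos : 0 < n := by
    rw [hn]
    exact_mod_cast Fintype.card_pos
  have hs0 : (0 : ℝ) ≤ s := Nat.cast_nonneg s
  set C : ℝ := 2 * (s + 1) * m with hC
  have hCpos : 0 < C := by positivity
  set K : ℝ := 32 * ((s : ℝ) + 1) ^ 2 * (m : ℝ) ^ 5 with hK
  have hKpos : 0 < K := by positivity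
  have hK0 : K ≤ (D 0 : ℝ) := by
    rw [hK]
    have := (Nat.cast_le (α := ℝ)).mpr h0
    push_cast at this
    exact this
  have hK1 : K * (D (e + 1) : ℝ) ≤ (D 1 : ℝ) ^ 2 := by
    rw [hK]
    have := (Nat.cast_le (α := ℝ)).mpr h1
    push_cast at this
    exact this
  have hD0pos : (0 : ℝ) < D 0 := by linarith
  have hD01 : (D 0 : ℝ) ≤ D 1 := by
    exact_mod_cast hmono 0 1 (by omega) (by omega)
  have hD1pos : (0 : ℝ) < D 1 := by linarith
  have hCK : C ^ 2 * (8 * (m : ℝ) ^ 3) = K := by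
    rw [hC, hK]
    ring
  have hCleK : C ≤ K := by
    have h2 : (1 : ℝ) ≤ C := by
      rw [hC]
      nlinarith
    have h3 : (1 : ℝ) ≤ 8 * (m : ℝ) ^ 3 := by
      have : (1 : ℝ) ≤ (m : ℝ) ^ 3 := one_le_pow₀ hm1
      linarith
    nlinarith
  set x : ℝ := D 0 / D 1 with hx
  set p : ℝ := C / D 0 with hp
  have hx0 : 0 ≤ x := by positivity
  have hx1 : x ≤ 1 := by
    rw [hx, div_le_one hD1pos]
    exact hD01
  have hp0 : 0 ≤ p := by positivity
  have hp1 : p ≤ 1 := by
    rw [hp, div_le_one hD0pos]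
    linarith
  set y : ℝ := n * C / D 1 with hy
  have hypos : 0 < y := by positivity
  have hxp : x * p = C / D 1 := by
    rw [hx, hp]
    field_simp
  -- the three random quantities
  let F1 : Finset β → Finset α → ℝ := fun S T =>
    ∑ a : α, if (({c 0 a} : Finset β) ⊆ S ∧ ({a} : Finset α) ⊆ T) then 1 else 0
  let F2 : Finset β → Finset α → ℝ := fun S T =>
    ∑ σ ∈ trip m, ∑ τ ∈ tri c σ.1 σ.2.1 σ.2.2,
      if (({c 0 τ.1, c 0 τ.2.1, c 0 τ.2.2} : Finset β) ⊆ S ∧
        ({τ.1, τ.2.1, τ.2.2} : Finset α) ⊆ T) then 1 else 0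
  let F3 : Finset β → Finset α → ℝ := fun S T =>
    ∑ b ∈ univ.image (c 0), if (({b} : Finset β) ⊆ S ∧ (∅ : Finset α) ⊆ T) then 1 else 0
  set F4 : ℝ := ∑ i ∈ range (e + 3), ((univ.image (c (i + 1))).card : ℝ) with hF4
  have hE1 : Ex x p F1 = y := by
    rw [show Ex x p F1 = ∑ a : α, Ex x p (fun S T =>
      if (({c 0 a} : Finset β) ⊆ S ∧ ({a} : Finset α) ⊆ T) then 1 else 0) from
      Ex_sum x p univ _]
    simp only [Ex_ind, Finset.card_singleton, pow_one, Finset.sum_const, Finset.card_univ,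
      nsmul_eq_mul]
    rw [hxp, hy]
    ring
  have hE2 : Ex x p F2 ≤ y / 8 := by
    rw [show Ex x p F2 = ∑ σ ∈ trip m, Ex x p (fun S T => ∑ τ ∈ tri c σ.1 σ.2.1 σ.2.2,
      if (({c 0 τ.1, c 0 τ.2.1, c 0 τ.2.2} : Finset β) ⊆ S ∧
        ({τ.1, τ.2.1, τ.2.2} : Finset α) ⊆ T) then 1 else 0) from Ex_sum x p (trip m) _]
    have hterm : ∀ σ ∈ trip m, Ex x p (fun S T => ∑ τ ∈ tri c σ.1 σ.2.1 σ.2.2,
      if (({c 0 τ.1, c 0 τ.2.1, c 0 τ.2.2} : Finset β) ⊆ S ∧
        ({τ.1, τ.2.1, τ.2.2} : Finset α) ⊆ T) then 1 else 0) ≤ y / (8 * (m : ℝ) ^ 3) := by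
      rintro ⟨i, j, k⟩ hσ
      obtain ⟨hij, hjk, hk⟩ := mem_trip.mp hσ
      simp only at hij hjk hk
      rw [Ex_sum]
      simp only [Ex_ind]
      have hcard := card_tri_le c m D hD hsh (i := i) (j := j) (k := k)
        (by omega) (by omega) hk (by omega)
      have hcard' : ((tri c i j k).card : ℝ) ≤ n * D i := by
        rw [hn]
        exact_mod_cast hcard
      have hyK : y / (8 * (m : ℝ) ^ 3) = y * C ^ 2 / K := by
        rw [← hCK]
        field_simp
      rw [hyK]
      by_cases hi : i = 0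
      · subst hi
        rw [Finset.sum_congr rfl (g := fun _ => x ^ 2 * p ^ 3) (fun τ hτ => by
          obtain ⟨h3, h2⟩ := tri_facts c m hsh hij hjk hk hτ
          rw [h3, h2, if_pos rfl])]
        rw [Finset.sum_const, nsmul_eq_mul]
        calc ((tri c 0 j k).card : ℝ) * (x ^ 2 * p ^ 3) ≤ (n * D 0) * (x ^ 2 * p ^ 3) :=
              mul_le_mul_of_nonneg_right hcard' (by positivity)
          _ = y * C ^ 2 / D 1 := by
              rw [hx, hp, hy]
              field_simp
          _ ≤ y * C ^ 2 / K := by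
              apply div_le_div_of_nonneg_left (by positivity) hKpos
              linarith
      · rw [Finset.sum_congr rfl (g := fun _ => x ^ 3 * p ^ 3) (fun τ hτ => by
          obtain ⟨h3, h2⟩ := tri_facts c m hsh hij hjk hk hτ
          rw [h3, h2, if_neg hi])]
        rw [Finset.sum_const, nsmul_eq_mul]
        have hDi : (D i : ℝ) ≤ D (e + 1) := by
          exact_mod_cast hmono i (e + 1) (by omega) (by omega)
        calc ((tri c i j k).card : ℝ) * (x ^ 3 * p ^ 3) ≤ (n * D i) * (x ^ 3 * p ^ 3) :=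
              mul_le_mul_of_nonneg_right hcard' (by positivity)
          _ = y * C ^ 2 * (D i / (D 1) ^ 2) := by
              rw [hx, hp, hy]
              field_simp
          _ ≤ y * C ^ 2 * (1 / K) := by
              apply mul_le_mul_of_nonneg_left _ (by positivity)
              rw [div_le_div_iff₀ (by positivity) hKpos]
              nlinarith
          _ = y * C ^ 2 / K := by ring
    calc ∑ σ ∈ trip m, _ ≤ ∑ _σ ∈ trip m, y / (8 * (m : ℝ) ^ 3) := Finset.sum_le_sum hterm
      _ = ((trip m).card : ℝ) * (y / (8 * (m : ℝ) ^ 3)) := by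
          rw [Finset.sum_const, nsmul_eq_mul]
      _ ≤ (m : ℝ) ^ 3 * (y / (8 * (m : ℝ) ^ 3)) := by
          apply mul_le_mul_of_nonneg_right _ (by positivity)
          exact_mod_cast card_trip_le m
      _ = y / 8 := by
          field_simp
  have himg : ∀ i < m, ((univ.image (c i)).card : ℝ) = n / D i := by
    intro i hi
    have h := card_image_mul c m D hD hi
    have hDi : (0 : ℝ) < D i := by
      have : D 0 ≤ D i := hmono 0 i (by omega) hi
      have : (D 0 : ℝ) ≤ D i := by exact_mod_cast this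
      linarith
    rw [eq_div_iff hDi.ne', hn]
    exact_mod_cast h
  have hE3 : Ex x p F3 = n / D 1 := by
    rw [show Ex x p F3 = ∑ b ∈ univ.image (c 0), Ex x p (fun S T =>
      if (({b} : Finset β) ⊆ S ∧ (∅ : Finset α) ⊆ T) then 1 else 0) from
      Ex_sum x p _ _]
    simp only [Ex_ind, Finset.card_singleton, pow_one, Finset.card_empty, pow_zero, mul_one,
      Finset.sum_const, nsmul_eq_mul]
    rw [himg 0 (by omega), hx]
    field_simp
  have hF4le : F4 ≤ (m - 1) * (n / D 1) := by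
    rw [hF4]
    calc ∑ i ∈ range (e + 3), ((univ.image (c (i + 1))).card : ℝ)
        ≤ ∑ _i ∈ range (e + 3), n / D 1 := by
          refine Finset.sum_le_sum fun i hi => ?_
          rw [Finset.mem_range] at hi
          rw [himg (i + 1) (by omega)]
          apply div_le_div_of_nonneg_left hnpos.le hD1pos
          exact_mod_cast hmono 1 (i + 1) (by omega) (by omega)
      _ = (m - 1) * (n / D 1) := by
          rw [Finset.sum_const, nsmul_eq_mul, Finset.card_range, hm]
          push_cast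
          ring
  have hEpos : 0 < Ex x p (fun S T => F1 S T - F2 S T - (s : ℝ) * F3 S T - (s * F4) * 1) := by
    have e1 := Ex_sub x p (fun S T => F1 S T - F2 S T - (s : ℝ) * F3 S T)
      (fun _ _ => (s * F4) * 1)
    have e2 := Ex_sub x p (fun S T => F1 S T - F2 S T) (fun S T => (s : ℝ) * F3 S T)
    have e3 := Ex_sub x p F1 F2
    have e4 := Ex_mul x p s F3
    have e5 := Ex_mul x p (s * F4) (fun (_ : Finset β) (_ : Finset α) => (1 : ℝ))
    rw [Ex_one] at e5
    rw [e1, e2, e3, e4, e5, hE1, hE3]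
    have hhalf : ((s : ℝ) + 1) * (m * (n / D 1)) = y / 2 := by
      rw [hy, hC]
      ring
    have hq : 0 < n / D 1 := by positivity
    have hsF : (s : ℝ) * F4 ≤ s * ((m - 1) * (n / D 1)) := mul_le_mul_of_nonneg_left hF4le hs0
    have hmq : 0 < (m : ℝ) * (n / D 1) := by positivity
    have hexp : ((s : ℝ) + 1) * (m * (n / D 1)) = s * (n / D 1) + s * ((m - 1) * (n / D 1))
        + m * (n / D 1) := by ring
    linarith
  obtain ⟨S, T, hST⟩ := exists_pos_of_Ex_pos hx0 hx1 hp0 hp1 hEpos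
  -- the surviving points and the points to be deleted
  let A0 : Finset α := univ.filter fun a => c 0 a ∈ S ∧ a ∈ T
  let R : Finset (α × α × α) := (trip m).biUnion fun σ => (tri c σ.1 σ.2.1 σ.2.2).filter
    fun τ => τ.1 ∈ A0 ∧ τ.2.1 ∈ A0 ∧ τ.2.2 ∈ A0
  let A1 : Finset α := A0 \ R.image Prod.fst
  have hF1 : F1 S T = (A0.card : ℝ) := by
    simp only [F1, A0, Finset.singleton_subset_iff]
    rw [Finset.sum_boole]
  have hF2 : (R.card : ℝ) ≤ F2 S T := by
    have hle : (R.card : ℝ) ≤ ∑ σ ∈ trip m, (((tri c σ.1 σ.2.1 σ.2.2).filter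
        fun τ => τ.1 ∈ A0 ∧ τ.2.1 ∈ A0 ∧ τ.2.2 ∈ A0).card : ℝ) := by
      have : R.card ≤ ∑ σ ∈ trip m, ((tri c σ.1 σ.2.1 σ.2.2).filter
        fun τ => τ.1 ∈ A0 ∧ τ.2.1 ∈ A0 ∧ τ.2.2 ∈ A0).card := Finset.card_biUnion_le
      exact_mod_cast this
    refine hle.trans (le_of_eq ?_)
    simp only [F2]
    refine Finset.sum_congr rfl fun σ _ => ?_
    rw [Finset.sum_boole]
    congr 2
    refine Finset.filter_congr fun τ _ => ?_
    simp only [A0, Finset.mem_filter, Finset.mem_univ, true_and, Finset.insert_subset_iff,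
      Finset.singleton_subset_iff]
    tauto
  have hA1card : (A0.card : ℝ) - R.card ≤ A1.card := by
    have h2 : A0.card ≤ A1.card + R.card := by
      calc A0.card ≤ (A1 ∪ R.image Prod.fst).card := by
            refine Finset.card_le_card fun a ha => ?_
            simp only [A1, Finset.mem_union, Finset.mem_sdiff]
            tauto
        _ ≤ A1.card + (R.image Prod.fst).card := Finset.card_union_le _ _
        _ ≤ A1.card + R.card := Nat.add_le_add_left Finset.card_image_le _
    have : (A0.card : ℝ) ≤ A1.card + R.card := by exact_mod_cast h2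
    linarith
  have hA10 : A1 ⊆ A0 := Finset.sdiff_subset
  have hcls : ((∑ i ∈ range m, (A1.image (c i)).card : ℕ) : ℝ) ≤ F3 S T + F4 := by
    have hm' : m = (e + 3) + 1 := by omega
    rw [hm', Finset.sum_range_succ']
    push_cast
    have ha : ∑ i ∈ range (e + 3), ((A1.image (c (i + 1))).card : ℝ) ≤ F4 := by
      rw [hF4]
      refine Finset.sum_le_sum fun i _ => ?_
      exact_mod_cast Finset.card_le_card (Finset.image_subset_image (Finset.subset_univ _))
    have hb : ((A1.image (c 0)).card : ℝ) ≤ F3 S T := by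
      simp only [F3, Finset.singleton_subset_iff, Finset.empty_subset, and_true]
      rw [Finset.sum_boole]
      norm_cast
      refine Finset.card_le_card fun b hb => ?_
      obtain ⟨a, ha, rfl⟩ := Finset.mem_image.mp hb
      have ha0 := hA10 ha
      simp only [A0, Finset.mem_filter, Finset.mem_univ, true_and] at ha0
      simp only [Finset.mem_filter, Finset.mem_image, Finset.mem_univ, true_and]
      exact ⟨⟨a, rfl⟩, ha0.1⟩
    linarith
  have hprune : s * ∑ i ∈ range m, (A1.image (c i)).card < A1.card := by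
    have h2 : (s : ℝ) * ((∑ i ∈ range m, (A1.image (c i)).card : ℕ) : ℝ) < A1.card := by
      have h3 := mul_le_mul_of_nonneg_left hcls hs0
      have hST' : 0 < F1 S T - F2 S T - (s : ℝ) * F3 S T - (s * F4) * 1 := hST
      rw [hF1] at hST'
      linarith
    exact_mod_cast h2
  obtain ⟨X, hXA, hXne, hX⟩ := prune c m s A1.card A1 rfl hprune
  refine ⟨X, hXne, fun a ha i hi => hX a ha i hi, ?_⟩
  intro i j k hij hjk hk a ha a' ha' a'' ha'' hne e1 e2 e3
  have haA1 := hXA ha
  simp only [A1, Finset.mem_sdiff] at haA1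
  apply haA1.2
  refine Finset.mem_image.mpr ⟨(a, a', a''), ?_, rfl⟩
  simp only [R, Finset.mem_biUnion]
  refine ⟨(i, j, k), mem_trip.mpr ⟨hij, hjk, hk⟩, ?_⟩
  simp only [Finset.mem_filter, tri, Finset.mem_univ, true_and]
  exact ⟨⟨hne, e1, e2, e3⟩, haA1.1, hA10 (hXA ha'), hA10 (hXA ha'')⟩

end Core

end Pool.Agent.Lib.MP_59be9f_co
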