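import Mathlib
import Pool.Agent.Lib.MP_59be9f_co.Core

set_option autoImplicit false

namespace Pool.Agent.Lib.MP_59be9f_co

open Finset

/-! ### From sorted index triples to all triples of distinct indices -/

lemma all_of_sorted {α β : Type*} (c : ℕ → α → β) (m : ℕ) (X : Finset α)
    (h : ∀ i j k, i < j → j < k → k < m → ∀ a ∈ X, ∀ a' ∈ X, ∀ a'' ∈ X, a ≠ a' →
      c i a = c i a' → c j a' = c j a'' → c k a'' = c k a → False)
    {i j k : ℕ} (hi : i < m) (hj : j < m) (hk : k < m) (hij : i ≠ j) (hjk : j ≠ k) (hik : i ≠ k)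
    {a a' a'' : α} (ha : a ∈ X) (ha' : a' ∈ X) (ha'' : a'' ∈ X)
    (h1 : a ≠ a') (h2 : a' ≠ a'') (h3 : a'' ≠ a)
    (e1 : c i a = c i a') (e2 : c j a' = c j a'') (e3 : c k a'' = c k a) : False := by
  rcases lt_or_gt_of_ne hij with hlt1 | hlt1 <;> rcases lt_or_gt_of_ne hjk with hlt2 | hlt2 <;>
    rcases lt_or_gt_of_ne hik with hlt3 | hlt3
  · exact h i j k hlt1 hlt2 hk a ha a' ha' a'' ha'' h1 e1 e2 e3
  · omega
  · -- i < k < j
    exact h i k j hlt3 hlt2 hj a' ha' a ha a'' ha'' h1.symm e1.symm e3.symm e2.symm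
  · -- k < i < j
    exact h k i j hlt3 hlt1 hj a'' ha'' a ha a' ha' h3 e3 e1 e2
  · -- j < i < k
    exact h j i k hlt1 hlt3 hk a'' ha'' a' ha' a ha h2.symm e2.symm e1.symm e3.symm
  · -- j < k < i
    exact h j k i hlt2 hlt3 hi a' ha' a'' ha'' a ha h2 e2 e3 e1
  · omega
  · -- k < j < i
    exact h k j i hlt2 hlt1 hi a ha a'' ha'' a' ha' h3.symm e3.symm e2.symm e1.symm

/-! ### The pigeonhole argument for the sorted degree sequence -/

/-- If a sequence satisfies `K e_{j+1} > e_j ^ 2` then it grows doubly exponentially. -/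
lemma doubly_exp (K : ℕ) (s J : ℕ) (ε : ℕ → ℕ) (h0 : K * 2 ^ 2 ^ s ≤ ε 0)
    (hstep : ∀ j < J, ε j ^ 2 < K * ε (j + 1)) : ∀ j ≤ J, K * 2 ^ 2 ^ (j + s) ≤ ε j := by
  intro j
  induction j with
  | zero => intro _; simpa using h0
  | succ j ih =>
    intro hj
    have h1 := ih (by omega)
    have h2 := hstep j (by omega)
    have h3 : (K * 2 ^ 2 ^ (j + s)) ^ 2 < K * ε (j + 1) :=
      lt_of_le_of_lt (Nat.pow_le_pow_left h1 2) h2
    have h4 : (K * 2 ^ 2 ^ (j + s)) ^ 2 = K * (K * 2 ^ 2 ^ (j + 1 + s)) := by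
      have : 2 ^ (j + 1 + s) = 2 ^ (j + s) * 2 := by
        rw [← pow_succ]
        congr 1
        omega
      rw [this, mul_pow, ← pow_mul]
      ring
    rw [h4] at h3
    exact (Nat.lt_of_mul_lt_mul_left h3).le

/-- Selecting the window of indices. `d` is the sorted sequence of the `r` degrees. -/
lemma window (e r K : ℕ) (hK : 1 ≤ K) (d : ℕ → ℕ)
    (hr : 4 ≤ r)
    (hre : e + 4 ≤ r)
    (hlow : ∀ i < r, K * 2 ^ 2 ^ 5 ≤ d i)
    (hlog : ∀ i < r, e * Nat.log 2 (Nat.log 2 (d i)) ≤ r) :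
    ∃ j, j * e + e + 3 < r ∧ K * d (j * e + e + 1) ≤ d (j * e + 1) ^ 2 := by
  rcases Nat.eq_zero_or_pos e with rfl | he
  · refine ⟨0, by omega, ?_⟩
    simp only [Nat.mul_zero, Nat.zero_add]
    have h1 : K ≤ d 1 := by
      have := hlow 1 (by omega)
      have h2 : K * 1 ≤ K * 2 ^ 2 ^ 5 := Nat.mul_le_mul_left K (Nat.one_le_two_pow)
      omega
    rw [pow_two]
    exact Nat.mul_le_mul_right _ h1
  · by_contra hcon
    push Not at hcon
    set J := (r - 4) / e with hJ
    have hJ1 : J * e ≤ r - 4 := Nat.div_mul_le_self _ _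
    have hJ2 : r - 4 < (J + 1) * e := by
      rw [hJ]
      exact Nat.lt_mul_of_div_lt (Nat.lt_succ_self _) he
    have hgrow := doubly_exp K 5 J (fun j => d (j * e + 1)) (by
      simpa using hlow 1 (by omega)) (by
      intro j hj
      have hje : (j + 1) * e ≤ J * e := Nat.mul_le_mul_right e hj
      have h1 := hcon j (by
        have : (j + 1) * e = j * e + e := by ring
        omega)
      have : (j + 1) * e + 1 = j * e + e + 1 := by ring
      simp only [this]
      exact h1) J le_rfl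
    have hgrow' : K * 2 ^ 2 ^ (J + 5) ≤ d (J * e + 1) := hgrow
    have hlast := hlog (J * e + 1) (by omega)
    have h2 : 2 ^ 2 ^ (J + 5) ≤ d (J * e + 1) := by
      refine le_trans ?_ hgrow'
      calc 2 ^ 2 ^ (J + 5) = 1 * 2 ^ 2 ^ (J + 5) := (one_mul _).symm
        _ ≤ K * 2 ^ 2 ^ (J + 5) := Nat.mul_le_mul_right _ hK
    have h3 : 2 ^ (J + 5) ≤ Nat.log 2 (d (J * e + 1)) :=
      Nat.le_log_of_pow_le (by norm_num) h2
    have h4 : J + 5 ≤ Nat.log 2 (Nat.log 2 (d (J * e + 1))) :=
      Nat.le_log_of_pow_le (by norm_num) h3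
    have h5 : e * (J + 5) ≤ r := le_trans (Nat.mul_le_mul_left e h4) hlast
    have h6 : e * (J + 5) = (J + 1) * e + 4 * e := by ring
    omega

/-! ### Translation to graphs -/

set_option linter.unusedSimpArgs false
set_option linter.style.haveILetI false

/-- In a graph without 4-cycles two distinct vertices have at most one common neighbour. -/
lemma no_c4 {V : Type} (G : SimpleGraph V)
    (hC4 : ∀ (v : V) (p : G.Walk v v), p.IsCycle → p.length ≠ 4)
    {a a' b b' : V} (haa : a ≠ a') (hbb : b ≠ b') (h1 : G.Adj a b) (h2 : G.Adj a' b)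
    (h3 : G.Adj a b') (h4 : G.Adj a' b') : False := by
  let p : G.Walk a a := .cons h1 (.cons h2.symm (.cons h4 (.cons h3.symm .nil)))
  refine hC4 a p ?_ rfl
  have n1 := h1.ne
  have n2 := h2.ne
  have n3 := h3.ne
  have n4 := h4.ne
  rw [SimpleGraph.Walk.cons_isCycle_iff]
  constructor
  · simp [SimpleGraph.Walk.cons_isPath_iff, haa, hbb, haa.symm, hbb.symm, n1, n2, n3, n4, n1.symm,
      n2.symm, n3.symm, n4.symm]
  · simp [haa, hbb, haa.symm, hbb.symm, n1, n2, n3, n4, n1.symm,
      n2.symm, n3.symm, n4.symm]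

theorem main_aux (e : ℕ) (V : Type) [Fintype V] [DecidableEq V] [Nonempty V]
    (G : SimpleGraph V) [DecidableRel G.Adj] (A : Finset V) (r : ℕ) (f : V → Fin r)
    (hbip : ∀ u v : V, G.Adj u v → (u ∈ A ↔ v ∉ A))
    (hnb : ∀ a ∈ A, ∀ i : Fin r, ∃! b : V, b ∉ A ∧ f b = i ∧ G.Adj a b)
    (hdeg : ∀ b c : V, b ∉ A → c ∉ A → f b = f c → G.degree b = G.degree c)
    (hmin : ∀ v : V, 32 * (e + 4) ^ 2 * (e + 4) ^ 5 * 2 ^ 2 ^ 5 ≤ G.degree v)
    (hC4 : ∀ (v : V) (p : G.Walk v v), p.IsCycle → p.length ≠ 4)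
    (hlog : ∀ v : V, e * Nat.log 2 (Nat.log 2 (G.degree v)) ≤ r) :
    ∃ S : Finset V, S.Nonempty ∧
      (∀ v ∈ S, e + 3 < (S.filter (fun w => G.Adj v w)).card) ∧
      ∀ (v : V) (p : G.Walk v v), p.IsCycle → (∀ w ∈ p.support, w ∈ S) → p.length ≠ 6 := by
  classical
  set K : ℕ := 32 * (e + 4) ^ 2 * (e + 4) ^ 5 with hK
  have hK1 : 1 ≤ K := Nat.one_le_iff_ne_zero.mpr (by positivity)
  have hKe : e + 4 ≤ K := by
    rw [hK]
    calc e + 4 = 1 * (e + 4) := (one_mul _).symm
      _ ≤ (32 * (e + 4) * (e + 4) ^ 5) * (e + 4) := by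
          apply Nat.mul_le_mul_right
          exact Nat.one_le_iff_ne_zero.mpr (by positivity)
      _ = 32 * (e + 4) ^ 2 * (e + 4) ^ 5 := by ring
  have hKK : K ≤ K * 2 ^ 2 ^ 5 := Nat.le_mul_of_pos_right _ (by positivity)
  -- a point
  obtain ⟨a0, ha0⟩ : ∃ a0, a0 ∈ A := by
    obtain ⟨v⟩ := ‹Nonempty V›
    by_cases hv : v ∈ A
    · exact ⟨v, hv⟩
    · have h1 := hmin v
      have h2 : 0 < G.degree v := by omega
      rw [G.degree_pos_iff_exists_adj] at h2
      obtain ⟨w, hw⟩ := h2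
      exact ⟨w, (hbip w v hw.symm).mpr hv⟩
  choose! cl hcl using hnb
  have hclA : ∀ a ∈ A, ∀ i, cl a i ∉ A := fun a ha i => (hcl a ha i).1.1
  have hclf : ∀ a ∈ A, ∀ i, f (cl a i) = i := fun a ha i => (hcl a ha i).1.2.1
  have hcladj : ∀ a ∈ A, ∀ i, G.Adj a (cl a i) := fun a ha i => (hcl a ha i).1.2.2
  have hcluniq : ∀ a ∈ A, ∀ b, G.Adj a b → b = cl a (f b) := by
    intro a ha b hab
    exact (hcl a ha (f b)).2 b ⟨(hbip a b hab).mp ha, rfl, hab⟩
  -- the number of indices is large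
  have hr : K * 2 ^ 2 ^ 5 ≤ r := by
    refine (hmin a0).trans ?_
    rw [← G.card_neighborFinset_eq_degree]
    have : (G.neighborFinset a0).card ≤ (Finset.univ : Finset (Fin r)).card := by
      refine Finset.card_le_card_of_injOn f (fun _ _ => Finset.mem_coe.mpr (Finset.mem_univ _)) ?_
      intro b hb b' hb' he
      have h1 : G.Adj a0 b := by simpa using hb
      have h2 : G.Adj a0 b' := by simpa using hb'
      rw [hcluniq a0 ha0 b h1, hcluniq a0 ha0 b' h2, he]
    simpa using this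
  have hre : e + 4 ≤ r := by omega
  set Dg : Fin r → ℕ := fun i => G.degree (cl a0 i) with hDg
  have hdegcl : ∀ a ∈ A, ∀ i, G.degree (cl a i) = Dg i := by
    intro a ha i
    exact hdeg _ _ (hclA a ha i) (hclA a0 ha0 i) (by rw [hclf a ha i, hclf a0 ha0 i])
  set σ := Tuple.sort Dg with hσ
  have hmono : Monotone (Dg ∘ σ) := Tuple.monotone_sort Dg
  set d : ℕ → ℕ := fun i => if h : i < r then Dg (σ ⟨i, h⟩) else 0 with hd
  have hdlt : ∀ i (h : i < r), d i = Dg (σ ⟨i, h⟩) := fun i h => by rw [hd]; simp [h]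
  have hdmono : ∀ i j, i ≤ j → j < r → d i ≤ d j := by
    intro i j hij hj
    rw [hdlt i (by omega), hdlt j hj]
    exact hmono (by simpa using hij)
  obtain ⟨j, hj1, hj2⟩ := window e r K hK1 d (by omega) hre
    (fun i hi => by rw [hdlt i hi]; exact hmin _)
    (fun i hi => by rw [hdlt i hi]; exact hlog _)
  set τ : ℕ → ℕ := fun i => if i = 0 then 0 else j * e + i with hτ
  have hτlt : ∀ i < e + 4, τ i < r := by
    intro i hi
    simp only [hτ]
    split_ifs <;> omega
  have hτmono : ∀ i k, i ≤ k → τ i ≤ τ k := by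
    intro i k hik
    simp only [hτ]
    split_ifs <;> omega
  have hτinj : ∀ i k, τ i = τ k → i = k := by
    intro i k hik
    simp only [hτ] at hik
    split_ifs at hik <;> omega
  have hrpos : 0 < r := by omega
  set idx : ℕ → Fin r := fun i => if h : τ i < r then σ ⟨τ i, h⟩ else ⟨0, hrpos⟩ with hidx
  have hidxlt : ∀ i (h : i < e + 4), idx i = σ ⟨τ i, hτlt i h⟩ := by
    intro i h
    simp only [hidx]
    rw [dif_pos (hτlt i h)]
  have hidxinj : ∀ i < e + 4, ∀ k < e + 4, idx i = idx k → i = k := by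
    intro i hi k hk h
    rw [hidxlt i hi, hidxlt k hk] at h
    have h1 := σ.injective h
    rw [Fin.mk.injEq] at h1
    exact hτinj i k h1
  haveI : Nonempty {x // x ∈ A} := ⟨⟨a0, ha0⟩⟩
  let c : ℕ → {x // x ∈ A} → V := fun i a => cl a.1 (idx i)
  have hcA : ∀ i (a : {x // x ∈ A}), c i a ∉ A := fun i a => hclA a.1 a.2 _
  have hcadj : ∀ i (a : {x // x ∈ A}), G.Adj a.1 (c i a) := fun i a => hcladj a.1 a.2 _
  have hcf : ∀ i (a : {x // x ∈ A}), f (c i a) = idx i := fun i a => hclf a.1 a.2 _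
  have hcuniq : ∀ i (a a' : {x // x ∈ A}), G.Adj a'.1 (c i a) → c i a' = c i a := by
    intro i a a' h
    have h1 := hcluniq a'.1 a'.2 _ h
    rw [hcf i a] at h1
    exact h1.symm
  have hcore := core (α := {x // x ∈ A}) (β := V) e (e + 4) c (fun i => d (τ i))
    (fun i k hik hk => hdmono _ _ (hτmono i k hik) (hτlt k hk))
    (by
      intro i hi a
      have h1 : (univ.filter (fun a' => c i a' = c i a)).map (Function.Embedding.subtype _)
          = G.neighborFinset (c i a) := by
        ext v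
        simp only [Finset.mem_map, Finset.mem_filter, Finset.mem_univ, true_and,
          Function.Embedding.subtype_apply, SimpleGraph.mem_neighborFinset]
        constructor
        · rintro ⟨a', h, rfl⟩
          rw [← h]
          exact (hcadj i a').symm
        · intro h
          have hvA : v ∈ A := (hbip v (c i a) h.symm).mpr (hcA i a)
          exact ⟨⟨v, hvA⟩, hcuniq i a ⟨v, hvA⟩ h.symm, rfl⟩
      rw [← Finset.card_map (Function.Embedding.subtype _), h1,
        G.card_neighborFinset_eq_degree, hdlt _ (hτlt i hi), ← hidxlt i hi]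
      exact hdegcl a.1 a.2 _)
    (by
      intro i hi k hk hik a a' haa h1 h2
      refine no_c4 G hC4 (a := a.1) (a' := a'.1) (b := c i a) (b' := c k a)
        (fun h => haa (Subtype.ext h)) ?_ (hcadj i a) ?_ (hcadj k a) ?_
      · intro h
        have := congrArg f h
        rw [hcf, hcf] at this
        exact hik (hidxinj i hi k hk this)
      · rw [h1]; exact hcadj i a'
      · rw [h2]; exact hcadj k a')
    (by omega)
    (by
      have h1 : K * 2 ^ 2 ^ 5 ≤ d (τ 0) := by
        rw [hdlt _ (hτlt 0 (by omega))]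
        exact hmin _
      exact hKK.trans h1)
    (by
      have h1 : τ (e + 1) = j * e + e + 1 := by
        simp only [hτ]
        rw [if_neg (by omega)]
        ring
      have h2 : τ 1 = j * e + 1 := by
        simp only [hτ]
        rw [if_neg (by omega)]
      simp only [h1, h2]
      exact hj2)
  obtain ⟨X, ⟨x0, hx0⟩, hXdeg, hXtri⟩ := hcore
  set S : Finset V := univ.filter (fun v => (∃ a ∈ X, a.1 = v) ∨ ∃ a ∈ X, ∃ i < e + 4, c i a = v)
    with hS
  have hSX : ∀ a ∈ X, a.1 ∈ S := fun a ha => by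
    rw [hS, Finset.mem_filter]; exact ⟨Finset.mem_univ _, Or.inl ⟨a, ha, rfl⟩⟩
  have hSc : ∀ a ∈ X, ∀ i < e + 4, c i a ∈ S := fun a ha i hi => by
    rw [hS, Finset.mem_filter]; exact ⟨Finset.mem_univ _, Or.inr ⟨a, ha, i, hi, rfl⟩⟩
  have hSA : ∀ v ∈ S, ∀ hv : v ∈ A, (⟨v, hv⟩ : {x // x ∈ A}) ∈ X := by
    intro v hvS hv
    rw [hS, Finset.mem_filter] at hvS
    rcases hvS.2 with ⟨a, ha, rfl⟩ | ⟨a, ha, i, hi, rfl⟩
    · exact ha
    · exact absurd hv (hcA i a)
  have hSB : ∀ v ∈ S, v ∉ A → ∃ i < e + 4, f v = idx i := by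
    intro v hvS hv
    rw [hS, Finset.mem_filter] at hvS
    rcases hvS.2 with ⟨a, ha, rfl⟩ | ⟨a, ha, i, hi, rfl⟩
    · exact absurd a.2 hv
    · exact ⟨i, hi, hcf i a⟩
  -- no hexagon starting in A
  have hex : ∀ a b a' b' a'' b'' : V, a ∈ A → a ∈ S → b ∈ S → a' ∈ S → b' ∈ S → a'' ∈ S →
      b'' ∈ S → G.Adj a b → G.Adj b a' → G.Adj a' b' → G.Adj b' a'' → G.Adj a'' b'' →
      G.Adj b'' a → a ≠ a' → a' ≠ a'' → a'' ≠ a → b ≠ b' → b' ≠ b'' → b'' ≠ b → False := by
    intro a b a' b' a'' b'' haA haS hbS ha'S hb'S ha''S hb''S h1 h2 h3 h4 h5 h6 n1 n2 n3 n4 n5 n6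
    have hbA : b ∉ A := (hbip a b h1).mp haA
    have ha'A : a' ∈ A := (hbip a' b h2.symm).mpr hbA
    have hb'A : b' ∉ A := (hbip a' b' h3).mp ha'A
    have ha''A : a'' ∈ A := (hbip a'' b' h4.symm).mpr hb'A
    have hb''A : b'' ∉ A := (hbip a'' b'' h5).mp ha''A
    obtain ⟨i, hi, hfi⟩ := hSB b hbS hbA
    obtain ⟨k, hk, hfk⟩ := hSB b' hb'S hb'A
    obtain ⟨l, hl, hfl⟩ := hSB b'' hb''S hb''A
    have key : ∀ (u w : V) (hu : u ∈ A) (q : ℕ), G.Adj u w → f w = idx q → w = c q ⟨u, hu⟩ := by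
      intro u w hu q huw hfw
      have := hcluniq u hu w huw
      rw [hfw] at this
      exact this
    have hik : i ≠ k := by
      rintro rfl
      exact n4 ((key a' b ha'A i h2.symm hfi).trans (key a' b' ha'A i h3 hfk).symm)
    have hkl : k ≠ l := by
      rintro rfl
      exact n5 ((key a'' b' ha''A k h4.symm hfk).trans (key a'' b'' ha''A k h5 hfl).symm)
    have hil : i ≠ l := by
      rintro rfl
      exact n6 ((key a b'' haA i h6.symm hfl).trans (key a b haA i h1 hfi).symm)
    refine all_of_sorted c (e + 4) X hXtri hi hk hl hik hkl hil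
      (hSA a haS haA) (hSA a' ha'S ha'A) (hSA a'' ha''S ha''A)
      (fun h => n1 (congrArg Subtype.val h)) (fun h => n2 (congrArg Subtype.val h))
      (fun h => n3 (congrArg Subtype.val h)) ?_ ?_ ?_
    · exact (key a b haA i h1 hfi).symm.trans (key a' b ha'A i h2.symm hfi)
    · exact (key a' b' ha'A k h3 hfk).symm.trans (key a'' b' ha''A k h4.symm hfk)
    · exact (key a'' b'' ha''A l h5 hfl).symm.trans (key a b'' haA l h6.symm hfl)
  refine ⟨S, ⟨x0.1, hSX x0 hx0⟩, ?_, ?_⟩
  · intro v hv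
    have hv' := hv
    rw [hS, Finset.mem_filter] at hv'
    rcases hv'.2 with ⟨a, ha, rfl⟩ | ⟨a, ha, i, hi, rfl⟩
    · have hsub : (range (e + 4)).image (fun i => c i a) ⊆ S.filter (fun w => G.Adj a.1 w) := by
        intro w hw
        obtain ⟨i, hi, rfl⟩ := Finset.mem_image.mp hw
        rw [Finset.mem_filter]
        exact ⟨hSc a ha i (Finset.mem_range.mp hi), hcadj i a⟩
      have hcard : ((range (e + 4)).image (fun i => c i a)).card = e + 4 := by
        rw [Finset.card_image_of_injOn, Finset.card_range]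
        intro i hi k hk h
        have h1 := congrArg f h
        simp only [hcf] at h1
        exact hidxinj i (by simpa using hi) k (by simpa using hk) h1
      have := Finset.card_le_card hsub
      omega
    · have hsub : (X.filter (fun a' => c i a' = c i a)).map (Function.Embedding.subtype _) ⊆
          S.filter (fun w => G.Adj (c i a) w) := by
        intro w hw
        simp only [Finset.mem_map, Finset.mem_filter, Function.Embedding.subtype_apply] at hw
        obtain ⟨a', ⟨ha', h⟩, rfl⟩ := hw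
        rw [Finset.mem_filter]
        refine ⟨hSX a' ha', ?_⟩
        rw [← h]
        exact (hcadj i a').symm
      have := Finset.card_le_card hsub
      rw [Finset.card_map] at this
      have h2 := hXdeg a ha i hi
      omega
  · intro v p hp hsup hlen
    have hinj := hp.getVert_injOn
    have hadj : ∀ i < 6, G.Adj (p.getVert i) (p.getVert (i + 1)) := fun i hi =>
      p.adj_getVert_succ (by omega)
    have hmem : ∀ i, p.getVert i ∈ S := fun i => hsup _ (p.getVert_mem_support i)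
    have h0 : p.getVert 0 = p.getVert 6 := by
      rw [p.getVert_zero, ← hlen, p.getVert_length]
    have hne : ∀ i k, 1 ≤ i → i ≤ 6 → 1 ≤ k → k ≤ 6 → i ≠ k → p.getVert i ≠ p.getVert k := by
      intro i k hi1 hi6 hk1 hk6 hik h
      exact hik (hinj (by simp only [Set.mem_ofPred_eq]; omega)
        (by simp only [Set.mem_ofPred_eq]; omega) h)
    have a01 := hadj 0 (by omega)
    rw [h0] at a01
    by_cases h1A : p.getVert 1 ∈ A
    · exact hex _ _ _ _ _ _ h1A (hmem 1) (hmem 2) (hmem 3) (hmem 4) (hmem 5) (hmem 6)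
        (hadj 1 (by omega)) (hadj 2 (by omega)) (hadj 3 (by omega)) (hadj 4 (by omega))
        (hadj 5 (by omega)) a01 (hne 1 3 (by omega) (by omega) (by omega) (by omega) (by omega))
        (hne 3 5 (by omega) (by omega) (by omega) (by omega) (by omega))
        (hne 5 1 (by omega) (by omega) (by omega) (by omega) (by omega))
        (hne 2 4 (by omega) (by omega) (by omega) (by omega) (by omega))
        (hne 4 6 (by omega) (by omega) (by omega) (by omega) (by omega))
        (hne 6 2 (by omega) (by omega) (by omega) (by omega) (by omega))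
    · have h2A : p.getVert 2 ∈ A := (hbip _ _ (hadj 1 (by omega)).symm).mpr h1A
      exact hex _ _ _ _ _ _ h2A (hmem 2) (hmem 3) (hmem 4) (hmem 5) (hmem 6) (hmem 1)
        (hadj 2 (by omega)) (hadj 3 (by omega)) (hadj 4 (by omega))
        (hadj 5 (by omega)) a01 (hadj 1 (by omega))
        (hne 2 4 (by omega) (by omega) (by omega) (by omega) (by omega))
        (hne 4 6 (by omega) (by omega) (by omega) (by omega) (by omega))
        (hne 6 2 (by omega) (by omega) (by omega) (by omega) (by omega))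
        (hne 3 5 (by omega) (by omega) (by omega) (by omega) (by omega))
        (hne 5 1 (by omega) (by omega) (by omega) (by omega) (by omega))
        (hne 1 3 (by omega) (by omega) (by omega) (by omega) (by omega))

end Pool.Agent.Lib.MP_59be9f_co
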