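import Mathlib
import Pool.Agent.Lib.MP_59be9f_co.Graph

/-!
# MP_59be9f_co: large girth when many classes have degrees in one interval `[x, x ^ C]`

`bad c m k` are the cyclic sequences of `k + 3` points, consecutive ones in a common fibre of one of
the `m` class maps; there are at most `m ^ (k + 3) * n * Y ^ (k + 1)` of them, `Y` the largest fibre
(`card_bad`). A random subset of the points of density `C / y`, `y` the smallest fibre, with the
first points of its bad sequences deleted and then pruned, proves `core_girth`. The `m` classes are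
found in the block of the classes with degrees in `[x, x ^ C]` (`window_girth`).
-/

set_option autoImplicit false

namespace Pool.Agent.Lib.MP_59be9f_co

open Finset

set_option linter.unusedSectionVars false

section Girth
variable {α β : Type*} [Fintype α] [DecidableEq α] [Fintype β] [DecidableEq β]

/-- the walks with `k` steps and labels `lab` -/
def walks (c : ℕ → α → β) (m k : ℕ) (lab : Fin k → Fin m) : Finset (Fin (k + 1) → α) :=
  univ.filter fun a => ∀ t : Fin k, c (lab t) (a t.castSucc) = c (lab t) (a t.succ)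

lemma card_walks (c : ℕ → α → β) (m Y : ℕ)
    (hY : ∀ i < m, ∀ a, (univ.filter (fun a' => c i a' = c i a)).card ≤ Y) :
    ∀ (k : ℕ) (lab : Fin k → Fin m), (walks c m k lab).card ≤ Fintype.card α * Y ^ k := by
  intro k
  induction k with
  | zero =>
    intro lab
    refine (Finset.card_le_univ _).trans ?_
    simp
  | succ k ih =>
    intro lab
    have h1 : (walks c m (k + 1) lab).card ≤
        Y * ((walks c m (k + 1) lab).image (Fin.init : (Fin (k + 2) → α) → Fin (k + 1) → α)).card := by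
      refine Finset.card_le_mul_card_image _ _ ?_
      intro a0 _
      refine le_trans (Finset.card_le_card_of_injOn (fun x => x (Fin.last (k + 1)))
        (t := univ.filter (fun a' => c (lab (Fin.last k)) a' = c (lab (Fin.last k)) (a0 (Fin.last k))))
        ?_ ?_) (hY _ (lab (Fin.last k)).isLt _)
      · intro x hx
        rw [Finset.mem_coe, Finset.mem_filter] at hx
        obtain ⟨hx1, hx2⟩ := hx
        rw [walks, Finset.mem_filter] at hx1
        have h := hx1.2 (Fin.last k)
        rw [Finset.mem_coe, Finset.mem_filter]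
        refine ⟨Finset.mem_univ _, ?_⟩
        rw [Fin.succ_last] at h
        rw [← hx2]
        exact h.symm
      · intro x hx x' hx' he
        rw [Finset.mem_coe, Finset.mem_filter] at hx hx'
        have h3 : Fin.init x = Fin.init x' := hx.2.trans hx'.2.symm
        rw [← Fin.snoc_init_self x, ← Fin.snoc_init_self x', h3]
        simp only at he
        rw [he]
    have h2 : ((walks c m (k + 1) lab).image
        (Fin.init : (Fin (k + 2) → α) → Fin (k + 1) → α)).card ≤
        (walks c m k (Fin.init lab)).card := by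
      refine Finset.card_le_card ?_
      intro a0 ha0
      obtain ⟨x, hx, rfl⟩ := Finset.mem_image.1 ha0
      rw [walks, Finset.mem_filter] at hx ⊢
      refine ⟨Finset.mem_univ _, fun t => ?_⟩
      have h := hx.2 t.castSucc
      simp only [Fin.init]
      rw [Fin.succ_castSucc] at h
      exact h
    calc (walks c m (k + 1) lab).card ≤ Y * (Fintype.card α * Y ^ k) :=
          h1.trans (Nat.mul_le_mul_left _ (h2.trans (ih _)))
      _ = Fintype.card α * Y ^ (k + 1) := by ring

/-- The cyclic sequences of `k + 3` different points, consecutive ones in a common fibre. -/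
def bad (c : ℕ → α → β) (m k : ℕ) : Finset (Fin (k + 3) → α) := by
  classical
  exact univ.filter fun a => Function.Injective a ∧ ∃ lab : Fin (k + 3) → Fin m,
    lab (Fin.last (k + 1)).castSucc ≠ lab (Fin.last (k + 2)) ∧
    (∀ t : Fin (k + 2), c (lab t.castSucc) (a t.castSucc) = c (lab t.castSucc) (a t.succ)) ∧
    c (lab (Fin.last (k + 2))) (a (Fin.last (k + 2))) = c (lab (Fin.last (k + 2))) (a 0)

lemma card_bad (c : ℕ → α → β) (m Y k : ℕ)
    (hY : ∀ i < m, ∀ a, (univ.filter (fun a' => c i a' = c i a)).card ≤ Y)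
    (hsh : ∀ i < m, ∀ j < m, i ≠ j → ∀ a a', a ≠ a' → c i a = c i a' → c j a ≠ c j a') :
    (bad c m k).card ≤ m ^ (k + 3) * (Fintype.card α * Y ^ (k + 1)) := by
  classical
  have h1 : bad c m k ⊆ (univ : Finset (Fin (k + 3) → Fin m)).biUnion fun lab =>
      univ.filter fun a : Fin (k + 3) → α =>
        lab (Fin.last (k + 1)).castSucc ≠ lab (Fin.last (k + 2)) ∧
        (∀ t : Fin (k + 2), c (lab t.castSucc) (a t.castSucc) = c (lab t.castSucc) (a t.succ)) ∧
        c (lab (Fin.last (k + 2))) (a (Fin.last (k + 2))) = c (lab (Fin.last (k + 2))) (a 0) := by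
    intro a ha
    rw [bad, Finset.mem_filter] at ha
    obtain ⟨-, -, lab, hl⟩ := ha
    rw [Finset.mem_biUnion]
    exact ⟨lab, Finset.mem_univ _, Finset.mem_filter.2 ⟨Finset.mem_univ _, hl⟩⟩
  refine (Finset.card_le_card h1).trans (Finset.card_biUnion_le.trans ?_)
  have h2 : ∀ lab ∈ (univ : Finset (Fin (k + 3) → Fin m)),
      (univ.filter fun a : Fin (k + 3) → α =>
        lab (Fin.last (k + 1)).castSucc ≠ lab (Fin.last (k + 2)) ∧
        (∀ t : Fin (k + 2), c (lab t.castSucc) (a t.castSucc) = c (lab t.castSucc) (a t.succ)) ∧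
        c (lab (Fin.last (k + 2))) (a (Fin.last (k + 2))) =
          c (lab (Fin.last (k + 2))) (a 0)).card ≤ Fintype.card α * Y ^ (k + 1) := by
    intro lab _
    refine le_trans (Finset.card_le_card_of_injOn
      (Fin.init : (Fin (k + 3) → α) → Fin (k + 2) → α)
      (t := walks c m (k + 1) (Fin.init (Fin.init lab))) ?_ ?_) (card_walks c m Y hY _ _)
    · intro a ha
      rw [Finset.mem_coe, Finset.mem_filter] at ha
      obtain ⟨-, -, h3, -⟩ := ha
      rw [Finset.mem_coe, walks, Finset.mem_filter]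
      refine ⟨Finset.mem_univ _, fun t => ?_⟩
      have h := h3 t.castSucc
      simp only [Fin.init]
      rw [Fin.succ_castSucc] at h
      exact h
    · intro a ha a' ha' he
      rw [Finset.mem_coe, Finset.mem_filter] at ha ha'
      obtain ⟨-, hne, h3, h4⟩ := ha
      obtain ⟨-, -, h3', h4'⟩ := ha'
      rw [← Fin.snoc_init_self a, ← Fin.snoc_init_self a', he]
      congr 1
      by_contra hcon
      have e1 := h3 (Fin.last (k + 1))
      have e1' := h3' (Fin.last (k + 1))
      rw [Fin.succ_last] at e1 e1'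
      have e2 : a (Fin.last (k + 1)).castSucc = a' (Fin.last (k + 1)).castSucc :=
        congrFun he (Fin.last (k + 1))
      have e3 : a 0 = a' 0 := by
        have := congrFun he 0
        simpa [Fin.init] using this
      refine hsh _ (lab (Fin.last (k + 1)).castSucc).isLt _ (lab (Fin.last (k + 2))).isLt
        (fun h => hne (Fin.ext h)) _ _ hcon ?_ ?_
      · rw [← e1, ← e1', e2]
      · rw [h4, h4', e3]
  refine (Finset.sum_le_card_nsmul _ _ _ h2).trans ?_
  rw [Finset.card_univ, Fintype.card_fun, Fintype.card_fin, Fintype.card_fin, smul_eq_mul]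

/-- Core lemma: no short cycles. -/
theorem core_girth [Nonempty α] (L m t y Y : ℕ) (c : ℕ → α → β) (D : ℕ → ℕ)
    (hD : ∀ i < m, ∀ a, (univ.filter (fun a' => c i a' = c i a)).card = D i)
    (hy : ∀ i < m, y ≤ D i) (hY : ∀ i < m, D i ≤ Y)
    (hsh : ∀ i < m, ∀ j < m, i ≠ j → ∀ a a', a ≠ a' → c i a = c i a' → c j a ≠ c j a')
    (ht : 1 ≤ t) (hm : 1 ≤ m) (hty : 2 * t * m ≤ y)
    (hcond : ∀ k < L, L * (2 * t * m ^ 2) ^ (k + 3) * Y ^ (k + 1) ≤ y ^ (k + 2)) :
    ∃ X : Finset α, X.Nonempty ∧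
      (∀ a ∈ X, ∀ i < m, t ≤ (X.filter (fun a' => c i a' = c i a)).card) ∧
      ∀ k < L, ∀ a ∈ bad c m k, ¬ ∀ i, a i ∈ X := by
  classical
  obtain ⟨s, rfl⟩ : ∃ s, t = s + 1 := ⟨t - 1, by omega⟩
  have hmpos : (0 : ℝ) < m := by exact_mod_cast hm
  have hm1 : (1 : ℝ) ≤ m := by exact_mod_cast hm
  set n : ℝ := (Fintype.card α : ℝ) with hn
  have hnpos : 0 < n := by
    rw [hn]
    exact_mod_cast Fintype.card_pos
  have hs0 : (0 : ℝ) ≤ s := Nat.cast_nonneg s
  set C : ℝ := 2 * (s + 1) * m with hC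
  have hCpos : 0 < C := by positivity
  have hCy : C ≤ y := by
    rw [hC]
    exact_mod_cast hty
  have hypos : (0 : ℝ) < y := by linarith
  set p : ℝ := C / y with hp
  have hp0 : 0 ≤ p := by positivity
  have hp1 : p ≤ 1 := by
    rw [hp, div_le_one hypos]
    exact hCy
  let F1 : Finset β → Finset α → ℝ := fun S T =>
    ∑ a : α, if ((∅ : Finset β) ⊆ S ∧ ({a} : Finset α) ⊆ T) then 1 else 0
  let F2 : Finset β → Finset α → ℝ := fun S T =>
    ∑ k ∈ range L, ∑ a ∈ bad c m k,
      if ((∅ : Finset β) ⊆ S ∧ (univ.image a) ⊆ T) then 1 else 0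
  set F4 : ℝ := ∑ i ∈ range m, ((univ.image (c i)).card : ℝ) with hF4
  have hE1 : Ex 1 p F1 = n * C / y := by
    rw [show Ex 1 p F1 = ∑ a : α, Ex 1 p (fun S T =>
      if ((∅ : Finset β) ⊆ S ∧ ({a} : Finset α) ⊆ T) then 1 else 0) from
      Ex_sum 1 p univ _]
    simp only [Ex_ind, Finset.card_singleton, pow_one, Finset.sum_const, Finset.card_univ,
      nsmul_eq_mul, one_pow, one_mul]
    rw [hp]
    ring
  have hE2 : Ex 1 p F2 ≤ n / y := by
    rw [show Ex 1 p F2 = ∑ k ∈ range L, Ex 1 p (fun S T => ∑ a ∈ bad c m k,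
      if ((∅ : Finset β) ⊆ S ∧ (univ.image a) ⊆ T) then 1 else 0) from
      Ex_sum 1 p (range L) _]
    have hterm : ∀ k ∈ range L, Ex 1 p (fun S T => ∑ a ∈ bad c m k,
      if ((∅ : Finset β) ⊆ S ∧ (univ.image a) ⊆ T) then 1 else 0) ≤ n / (L * y) := by
      intro k hk
      rw [Finset.mem_range] at hk
      have hLpos : (0 : ℝ) < L := by
        have : 0 < L := by omega
        exact_mod_cast this
      rw [Ex_sum]
      simp only [Ex_ind]
      rw [Finset.sum_congr rfl (g := fun _ => p ^ (k + 3)) (fun a ha => by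
        have hinj : Function.Injective a := by
          rw [bad, Finset.mem_filter] at ha
          exact ha.2.1
        rw [Finset.card_image_of_injective _ hinj, Finset.card_univ, Fintype.card_fin, one_pow,
          one_mul])]
      rw [Finset.sum_const, nsmul_eq_mul]
      have hcard := card_bad c m Y k (fun i hi a => (hD i hi a).le.trans (hY i hi)) hsh
      have hcard' : ((bad c m k).card : ℝ) ≤ (m : ℝ) ^ (k + 3) * (n * (Y : ℝ) ^ (k + 1)) := by
        rw [hn]
        exact_mod_cast hcard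
      have hco : (L : ℝ) * (C * m) ^ (k + 3) * (Y : ℝ) ^ (k + 1) ≤ (y : ℝ) ^ (k + 2) := by
        have h := (Nat.cast_le (α := ℝ)).mpr (hcond k hk)
        push_cast at h
        have e : C * m = 2 * ((s : ℝ) + 1) * (m : ℝ) ^ 2 := by rw [hC]; ring
        rw [e]
        exact h
      calc ((bad c m k).card : ℝ) * p ^ (k + 3)
          ≤ ((m : ℝ) ^ (k + 3) * (n * (Y : ℝ) ^ (k + 1))) * p ^ (k + 3) :=
            mul_le_mul_of_nonneg_right hcard' (by positivity)
        _ = n * ((C * m) ^ (k + 3) * (Y : ℝ) ^ (k + 1)) / (y : ℝ) ^ (k + 3) := by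
            rw [hp, div_pow, mul_pow C (m : ℝ) (k + 3)]
            ring
        _ ≤ n / (L * y) := by
            rw [div_le_div_iff₀ (by positivity) (by positivity)]
            calc n * ((C * m) ^ (k + 3) * (Y : ℝ) ^ (k + 1)) * (L * y)
                = (L * (C * m) ^ (k + 3) * (Y : ℝ) ^ (k + 1)) * (n * y) := by ring
              _ ≤ (y : ℝ) ^ (k + 2) * (n * y) :=
                  mul_le_mul_of_nonneg_right hco (by positivity)
              _ = n * (y : ℝ) ^ (k + 3) := by ring
    refine (Finset.sum_le_sum hterm).trans ?_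
    rw [Finset.sum_const, nsmul_eq_mul, Finset.card_range]
    rcases Nat.eq_zero_or_pos L with h0 | h0
    · rw [h0]
      simp only [Nat.cast_zero, zero_mul]
      positivity
    · have hLpos : (0 : ℝ) < L := by exact_mod_cast h0
      apply le_of_eq
      field_simp
  have hF4le : F4 ≤ m * (n / y) := by
    rw [hF4]
    calc ∑ i ∈ range m, ((univ.image (c i)).card : ℝ)
        ≤ ∑ _i ∈ range m, n / y := by
          refine Finset.sum_le_sum fun i hi => ?_
          rw [Finset.mem_range] at hi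
          have h := card_image_mul c m D hD hi
          have h' : ((univ.image (c i)).card : ℝ) * (D i : ℝ) = n := by
            rw [hn]
            exact_mod_cast h
          have hyi : (y : ℝ) ≤ D i := by exact_mod_cast hy i hi
          rw [le_div_iff₀ hypos, ← h']
          exact mul_le_mul_of_nonneg_left hyi (Nat.cast_nonneg _)
      _ = m * (n / y) := by
          rw [Finset.sum_const, nsmul_eq_mul, Finset.card_range]
  have hEpos : 0 < Ex 1 p (fun S T => F1 S T - F2 S T - (s * F4) * 1) := by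
    have e1 := Ex_sub 1 p (fun S T => F1 S T - F2 S T) (fun _ _ => (s * F4) * 1)
    have e3 := Ex_sub 1 p F1 F2
    have e5 := Ex_mul 1 p (s * F4) (fun (_ : Finset β) (_ : Finset α) => (1 : ℝ))
    rw [Ex_one] at e5
    rw [e1, e3, e5, hE1]
    have hq : 0 < n / y := by positivity
    have hsF : (s : ℝ) * F4 ≤ s * (m * (n / y)) := mul_le_mul_of_nonneg_left hF4le hs0
    have h1 : n * C / y = 2 * (s + 1) * m * (n / y) := by
      rw [hC]
      ring
    have h2 : n / y ≤ m * (n / y) := by
      nlinarith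
    have h3 : 0 < (s + 1) * (m * (n / y)) := by positivity
    rw [h1]
    nlinarith
  obtain ⟨S, T, hST⟩ := exists_pos_of_Ex_pos zero_le_one le_rfl hp0 hp1 hEpos
  let R : Finset α := (range L).biUnion fun k =>
    ((bad c m k).filter fun a => ∀ i, a i ∈ T).image fun a => a 0
  let A1 : Finset α := T \ R
  have hF1 : F1 S T = (T.card : ℝ) := by
    simp only [F1, Finset.singleton_subset_iff, Finset.empty_subset, true_and]
    rw [Finset.sum_boole]
    simp
  have hF2 : (R.card : ℝ) ≤ F2 S T := by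
    have hle : R.card ≤ ∑ k ∈ range L, ((bad c m k).filter fun a => ∀ i, a i ∈ T).card :=
      Finset.card_biUnion_le.trans (Finset.sum_le_sum fun k _ => Finset.card_image_le)
    refine le_trans (b := ((∑ k ∈ range L, ((bad c m k).filter fun a => ∀ i, a i ∈ T).card : ℕ) : ℝ))
      (by exact_mod_cast hle) (le_of_eq ?_)
    simp only [F2]
    push_cast
    refine Finset.sum_congr rfl fun k _ => ?_
    rw [Finset.sum_boole]
    congr 2
    refine Finset.filter_congr fun a _ => ?_
    simp only [Finset.empty_subset, true_and, Finset.image_subset_iff, Finset.mem_univ,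
      forall_true_left]
  have hA1card : (T.card : ℝ) - R.card ≤ A1.card := by
    have h2 : T.card ≤ A1.card + R.card := by
      calc T.card ≤ (A1 ∪ R).card := by
            refine Finset.card_le_card fun a ha => ?_
            simp only [A1, Finset.mem_union, Finset.mem_sdiff]
            tauto
        _ ≤ A1.card + R.card := Finset.card_union_le _ _
    have : (T.card : ℝ) ≤ A1.card + R.card := by exact_mod_cast h2
    linarith
  have hcls : ((∑ i ∈ range m, (A1.image (c i)).card : ℕ) : ℝ) ≤ F4 := by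
    rw [hF4]
    push_cast
    refine Finset.sum_le_sum fun i _ => ?_
    exact_mod_cast Finset.card_le_card (Finset.image_subset_image (Finset.subset_univ _))
  have hprune : s * ∑ i ∈ range m, (A1.image (c i)).card < A1.card := by
    have h2 : (s : ℝ) * ((∑ i ∈ range m, (A1.image (c i)).card : ℕ) : ℝ) < A1.card := by
      have h3 := mul_le_mul_of_nonneg_left hcls hs0
      have hST' : 0 < F1 S T - F2 S T - (s * F4) * 1 := hST
      rw [hF1] at hST'
      linarith
    exact_mod_cast h2
  obtain ⟨X, hXA, hXne, hX⟩ := prune c m s A1.card A1 rfl hprune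
  refine ⟨X, hXne, fun a ha i hi => hX a ha i hi, ?_⟩
  intro k hk a ha hall
  have h0 := hXA (hall 0)
  simp only [A1, Finset.mem_sdiff] at h0
  apply h0.2
  simp only [R, Finset.mem_biUnion]
  refine ⟨k, Finset.mem_range.2 hk, Finset.mem_image.2 ⟨a, ?_, rfl⟩⟩
  rw [Finset.mem_filter]
  refine ⟨ha, fun i => ?_⟩
  have hi := hXA (hall i)
  simp only [A1, Finset.mem_sdiff] at hi
  exact hi.1

end Girth

/-! ### The window -/

lemma exists_J (C L : ℕ) (hL : 1 ≤ L) : ∃ J : ℕ, C * (2 * L) ^ J < (2 * L + 1) ^ J := by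
  have hL' : (1 : ℝ) ≤ L := by exact_mod_cast hL
  have h1 : (1 : ℝ) < (2 * L + 1) / (2 * L) := by
    rw [lt_div_iff₀ (by positivity)]
    linarith
  obtain ⟨J, hJ⟩ := pow_unbounded_of_one_lt (C : ℝ) h1
  refine ⟨J, ?_⟩
  rw [div_pow, lt_div_iff₀ (by positivity)] at hJ
  exact_mod_cast hJ

lemma window_girth (m C L J x s : ℕ) (hm : 1 ≤ m) (d : ℕ → ℕ)
    (hJ : C * (2 * L) ^ J < (2 * L + 1) ^ J)
    (hmono : ∀ i i', s ≤ i → i ≤ i' → i' ≤ s + J * m → d i ≤ d i')
    (hblock : ∀ i, s ≤ i → i ≤ s + J * m → x ≤ d i ∧ d i ≤ x ^ C) (h2 : 2 ≤ d s) :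
    ∃ j, j < J ∧ d (s + j * m + (m - 1)) ^ (2 * L) ≤ d (s + j * m) ^ (2 * L + 1) := by
  by_contra hcon
  push Not at hcon
  have hgrow : ∀ j, j ≤ J → d s ^ (2 * L + 1) ^ j ≤ d (s + j * m) ^ (2 * L) ^ j := by
    intro j
    induction j with
    | zero => intro _; simp
    | succ j ih =>
      intro hj
      have h1 := ih (by omega)
      have h3 := hcon j (by omega)
      have hjm : (j + 1) * m ≤ J * m := Nat.mul_le_mul_right m hj
      have he : (j + 1) * m = j * m + m := by ring
      have h4 : d (s + j * m + (m - 1)) ≤ d (s + (j + 1) * m) :=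
        hmono _ _ (by omega) (by omega) (by omega)
      calc d s ^ (2 * L + 1) ^ (j + 1) = (d s ^ (2 * L + 1) ^ j) ^ (2 * L + 1) := by
            rw [← pow_mul, pow_succ]
        _ ≤ (d (s + j * m) ^ (2 * L) ^ j) ^ (2 * L + 1) := Nat.pow_le_pow_left h1 _
        _ = (d (s + j * m) ^ (2 * L + 1)) ^ (2 * L) ^ j := by
            rw [← pow_mul, ← pow_mul, mul_comm ((2 * L) ^ j) (2 * L + 1)]
        _ ≤ (d (s + j * m + (m - 1)) ^ (2 * L)) ^ (2 * L) ^ j := Nat.pow_le_pow_left h3.le _
        _ ≤ (d (s + (j + 1) * m) ^ (2 * L)) ^ (2 * L) ^ j :=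
            Nat.pow_le_pow_left (Nat.pow_le_pow_left h4 _) _
        _ = d (s + (j + 1) * m) ^ (2 * L) ^ (j + 1) := by
            rw [← pow_mul, ← pow_succ']
  have hT := hgrow J le_rfl
  obtain ⟨hx1, hx2⟩ := hblock (s + J * m) (by omega) le_rfl
  obtain ⟨hx3, hx4⟩ := hblock s le_rfl (by omega)
  have h5 : d s ^ (2 * L + 1) ^ J ≤ d s ^ (C * (2 * L) ^ J) := by
    calc d s ^ (2 * L + 1) ^ J ≤ d (s + J * m) ^ (2 * L) ^ J := hT
      _ ≤ (x ^ C) ^ (2 * L) ^ J := Nat.pow_le_pow_left hx2 _
      _ ≤ (d s ^ C) ^ (2 * L) ^ J := Nat.pow_le_pow_left (Nat.pow_le_pow_left hx3 _) _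
      _ = d s ^ (C * (2 * L) ^ J) := by rw [← pow_mul]
  have h6 := Nat.pow_lt_pow_right (show 1 < d s by omega) hJ
  omega

lemma cond_girth (L K y Y : ℕ) (hL : 1 ≤ L) (hK : 1 ≤ K) (hy : (L * K ^ (L + 2)) ^ 2 ≤ y)
    (hY : Y ^ (2 * L) ≤ y ^ (2 * L + 1)) :
    ∀ k < L, L * K ^ (k + 3) * Y ^ (k + 1) ≤ y ^ (k + 2) := by
  intro k hk
  have hy1 : 1 ≤ y := le_trans (Nat.one_le_iff_ne_zero.2 (by positivity)) hy
  rw [← Nat.pow_le_pow_iff_left (n := 2 * L) (by omega)]
  calc (L * K ^ (k + 3) * Y ^ (k + 1)) ^ (2 * L)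
      = (L * K ^ (k + 3)) ^ (2 * L) * (Y ^ (2 * L)) ^ (k + 1) := by
        rw [mul_pow, ← pow_mul, ← pow_mul, mul_comm (k + 1) (2 * L)]
    _ ≤ (L * K ^ (L + 2)) ^ (2 * L) * (y ^ (2 * L + 1)) ^ (k + 1) := by
        refine Nat.mul_le_mul (Nat.pow_le_pow_left (Nat.mul_le_mul_left _ ?_) _)
          (Nat.pow_le_pow_left hY _)
        exact Nat.pow_le_pow_right hK (by omega)
    _ = ((L * K ^ (L + 2)) ^ 2) ^ L * y ^ ((2 * L + 1) * (k + 1)) := by
        rw [← pow_mul, ← pow_mul]
    _ ≤ y ^ L * y ^ ((2 * L + 1) * (k + 1)) := Nat.mul_le_mul_right _ (Nat.pow_le_pow_left hy _)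
    _ = y ^ (L + (2 * L + 1) * (k + 1)) := (pow_add _ _ _).symm
    _ ≤ y ^ ((k + 2) * (2 * L)) := by
        apply Nat.pow_le_pow_right hy1
        have h1 : (2 * L + 1) * (k + 1) = 2 * L * (k + 1) + (k + 1) := by ring
        have h2 : (k + 2) * (2 * L) = 2 * L * (k + 1) + 2 * L := by ring
        omega
    _ = (y ^ (k + 2)) ^ (2 * L) := pow_mul _ _ _

/-! ### Graphs -/

set_option linter.unusedSimpArgs false
set_option linter.style.haveILetI false

theorem main_girth (m L J C : ℕ) (hm : 1 ≤ m) (hL : 1 ≤ L)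
    (hJ : C * (2 * L) ^ J < (2 * L + 1) ^ J)
    (V : Type) [Fintype V] [DecidableEq V] [Nonempty V]
    (G : SimpleGraph V) [DecidableRel G.Adj] (A : Finset V) (r : ℕ) (f : V → Fin r)
    (hbip : ∀ u v : V, G.Adj u v → (u ∈ A ↔ v ∉ A))
    (hnb : ∀ a ∈ A, ∀ i : Fin r, ∃! b : V, b ∉ A ∧ f b = i ∧ G.Adj a b)
    (hdeg : ∀ b c : V, b ∉ A → c ∉ A → f b = f c → G.degree b = G.degree c)
    (hmin : ∀ v : V, (L * (2 * m * m ^ 2) ^ (L + 2)) ^ 2 + 2 * m * m ≤ G.degree v)
    (hC4 : ∀ (v : V) (p : G.Walk v v), p.IsCycle → p.length ≠ 4)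
    (x : ℕ) (hx : J * m + 1 ≤ (univ.filter (fun i : Fin r =>
      ∃ b : V, b ∉ A ∧ f b = i ∧ x ≤ G.degree b ∧ G.degree b ≤ x ^ C)).card) :
    ∃ S : Finset V, S.Nonempty ∧
      (∀ v ∈ S, m ≤ (S.filter (fun w => G.Adj v w)).card) ∧
      ∀ (v : V) (p : G.Walk v v), p.IsCycle → (∀ w ∈ p.support, w ∈ S) →
        2 * L + 4 < p.length := by
  classical
  have hmm : 1 ≤ m * m := Nat.one_le_iff_ne_zero.2 (by positivity)
  have h2mm : 2 ≤ 2 * m * m := by
    have : 2 * m * m = 2 * (m * m) := by ring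
    omega
  -- a point
  obtain ⟨a0, ha0⟩ : ∃ a0, a0 ∈ A := by
    obtain ⟨v⟩ := ‹Nonempty V›
    by_cases hv : v ∈ A
    · exact ⟨v, hv⟩
    · have h1 := hmin v
      have h2 : 0 < G.degree v := by omega
      rw [G.degree_pos_iff_exists_adj] at h2
      obtain ⟨w, hw⟩ := h2
      exact ⟨w, (hbip w v hw.symm).mpr hv⟩
  choose! cl hcl using hnb
  have hclA : ∀ a ∈ A, ∀ i, cl a i ∉ A := fun a ha i => (hcl a ha i).1.1
  have hclf : ∀ a ∈ A, ∀ i, f (cl a i) = i := fun a ha i => (hcl a ha i).1.2.1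
  have hcladj : ∀ a ∈ A, ∀ i, G.Adj a (cl a i) := fun a ha i => (hcl a ha i).1.2.2
  have hcluniq : ∀ a ∈ A, ∀ b, G.Adj a b → b = cl a (f b) := by
    intro a ha b hab
    exact (hcl a ha (f b)).2 b ⟨(hbip a b hab).mp ha, rfl, hab⟩
  set Dg : Fin r → ℕ := fun i => G.degree (cl a0 i) with hDg
  have hdegcl : ∀ a ∈ A, ∀ i, G.degree (cl a i) = Dg i := by
    intro a ha i
    exact hdeg _ _ (hclA a ha i) (hclA a0 ha0 i) (by rw [hclf a ha i, hclf a0 ha0 i])
  set σ := Tuple.sort Dg with hσ
  have hmono : Monotone (Dg ∘ σ) := Tuple.monotone_sort Dg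
  set d : ℕ → ℕ := fun i => if h : i < r then Dg (σ ⟨i, h⟩) else 0 with hd
  have hdlt : ∀ i (h : i < r), d i = Dg (σ ⟨i, h⟩) := fun i h => by rw [hd]; simp [h]
  have hdmono : ∀ i j, i ≤ j → j < r → d i ≤ d j := by
    intro i j hij hj
    rw [hdlt i (by omega), hdlt j hj]
    exact hmono (by simpa using hij)
  -- the block of the classes with degrees in `[x, x ^ C]`
  set Q : Finset (Fin r) := univ.filter (fun i : Fin r => x ≤ Dg (σ i) ∧ Dg (σ i) ≤ x ^ C) with hQ
  have hQcard : J * m + 1 ≤ Q.card := by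
    refine hx.trans ?_
    refine Finset.card_le_card_of_injOn σ.symm (fun i hi => ?_) (σ.symm.injective.injOn)
    rw [Finset.mem_coe, Finset.mem_filter] at hi
    obtain ⟨-, b, hbA, hbi, hb1, hb2⟩ := hi
    have hbd : G.degree b = Dg i := by
      exact hdeg _ _ hbA (hclA a0 ha0 i) (by rw [hbi, hclf a0 ha0 i])
    rw [Finset.mem_coe, hQ, Finset.mem_filter]
    rw [Equiv.apply_symm_apply]
    exact ⟨Finset.mem_univ _, by omega, by omega⟩
  have hQne : Q.Nonempty := Finset.card_pos.1 (by omega)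
  obtain ⟨s, hsmem, hsmin⟩ : ∃ s ∈ Q, ∀ i ∈ Q, s ≤ i :=
    ⟨_, Finset.min'_mem Q hQne, fun i hi => Finset.min'_le _ _ hi⟩
  obtain ⟨mx, hmmem, hmmax⟩ : ∃ m ∈ Q, ∀ i ∈ Q, i ≤ m :=
    ⟨_, Finset.max'_mem Q hQne, fun i hi => Finset.le_max' _ _ hi⟩
  have hsQ := hsmem
  have hmQ := hmmem
  rw [hQ, Finset.mem_filter] at hsQ hmQ
  have hsm : Q.card ≤ mx.val + 1 - s.val := by
    rw [← Fin.card_Icc]
    refine Finset.card_le_card fun i hi => ?_
    rw [Finset.mem_Icc]
    exact ⟨hsmin i hi, hmmax i hi⟩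
  have hmr : mx.val < r := mx.isLt
  have hdmin : ∀ i, i < r → (L * (2 * m * m ^ 2) ^ (L + 2)) ^ 2 + 2 * m * m ≤ d i := by
    intro i hi
    rw [hdlt i hi]
    exact hmin _
  obtain ⟨j, hj1, hj2⟩ := window_girth m C L J x s.val hm d hJ
    (fun i i' _ h2 h3 => hdmono i i' h2 (by omega))
    (by
      intro i hi1 hi2
      have hi3 : i ≤ mx.val := by omega
      have hir : i < r := by omega
      rw [hdlt i hir]
      have q1 : Dg (σ s) ≤ Dg (σ ⟨i, hir⟩) :=
        hmono (show s ≤ ⟨i, hir⟩ from Fin.le_def.2 (show s.val ≤ i by omega))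
      have q2 : Dg (σ ⟨i, hir⟩) ≤ Dg (σ mx) :=
        hmono (show (⟨i, hir⟩ : Fin r) ≤ mx from Fin.le_def.2 (show i ≤ mx.val by omega))
      exact ⟨hsQ.2.1.trans q1, q2.trans hmQ.2.2⟩)
    (by
      have := hdmin s.val (by omega)
      omega)
  have hjm : (j + 1) * m ≤ J * m := Nat.mul_le_mul_right m hj1
  have hje : (j + 1) * m = j * m + m := by ring
  obtain ⟨w0, hw0⟩ : ∃ w0, w0 = s.val + j * m := ⟨_, rfl⟩
  rw [← hw0] at hj2
  have hw0r : w0 + (m - 1) < r := by omega
  have hτlt : ∀ i < m, w0 + i < r := fun i hi => by omega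
  have hrpos : 0 < r := by omega
  set idx : ℕ → Fin r := fun i => if h : w0 + i < r then σ ⟨w0 + i, h⟩ else ⟨0, hrpos⟩ with hidx
  have hidxlt : ∀ i (h : i < m), idx i = σ ⟨w0 + i, hτlt i h⟩ := by
    intro i h
    simp only [hidx]
    rw [dif_pos (hτlt i h)]
  have hidxinj : ∀ i < m, ∀ k < m, idx i = idx k → i = k := by
    intro i hi k hk h
    rw [hidxlt i hi, hidxlt k hk] at h
    have h1 := σ.injective h
    rw [Fin.mk.injEq] at h1
    omega
  haveI : Nonempty {x // x ∈ A} := ⟨⟨a0, ha0⟩⟩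
  let c : ℕ → {x // x ∈ A} → V := fun i a => cl a.1 (idx i)
  have hcA : ∀ i (a : {x // x ∈ A}), c i a ∉ A := fun i a => hclA a.1 a.2 _
  have hcadj : ∀ i (a : {x // x ∈ A}), G.Adj a.1 (c i a) := fun i a => hcladj a.1 a.2 _
  have hcf : ∀ i (a : {x // x ∈ A}), f (c i a) = idx i := fun i a => hclf a.1 a.2 _
  have hcuniq : ∀ i (a a' : {x // x ∈ A}), G.Adj a'.1 (c i a) → c i a' = c i a := by
    intro i a a' h
    have h1 := hcluniq a'.1 a'.2 _ h
    rw [hcf i a] at h1
    exact h1.symm
  have hcore := core_girth (α := {x // x ∈ A}) (β := V) L m m (d w0) (d (w0 + (m - 1))) c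
    (fun i => d (w0 + i))
    (by
      intro i hi a
      have h1 : (univ.filter (fun a' => c i a' = c i a)).map (Function.Embedding.subtype _)
          = G.neighborFinset (c i a) := by
        ext v
        simp only [Finset.mem_map, Finset.mem_filter, Finset.mem_univ, true_and,
          Function.Embedding.subtype_apply, SimpleGraph.mem_neighborFinset]
        constructor
        · rintro ⟨a', h, rfl⟩
          rw [← h]
          exact (hcadj i a').symm
        · intro h
          have hvA : v ∈ A := (hbip v (c i a) h.symm).mpr (hcA i a)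
          exact ⟨⟨v, hvA⟩, hcuniq i a ⟨v, hvA⟩ h.symm, rfl⟩
      rw [← Finset.card_map (Function.Embedding.subtype _), h1,
        G.card_neighborFinset_eq_degree, hdlt _ (hτlt i hi), ← hidxlt i hi]
      exact hdegcl a.1 a.2 _)
    (fun i hi => hdmono _ _ (by omega) (hτlt i hi))
    (fun i hi => hdmono _ _ (by omega) hw0r)
    (by
      intro i hi k hk hik a a' haa h1 h2
      refine no_c4 G hC4 (a := a.1) (a' := a'.1) (b := c i a) (b' := c k a)
        (fun h => haa (Subtype.ext h)) ?_ (hcadj i a) ?_ (hcadj k a) ?_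
      · intro h
        have := congrArg f h
        rw [hcf, hcf] at this
        exact hik (hidxinj i hi k hk this)
      · rw [h1]; exact hcadj i a'
      · rw [h2]; exact hcadj k a')
    hm hm
    (by
      have := hdmin w0 (by omega)
      omega)
    (by
      have h1 := hdmin w0 (by omega)
      exact cond_girth L (2 * m * m ^ 2) (d w0) (d (w0 + (m - 1))) hL
        (Nat.one_le_iff_ne_zero.2 (by positivity)) (by omega) hj2)
  obtain ⟨X, ⟨x0, hx0⟩, hXdeg, hXbad⟩ := hcore
  set S : Finset V := univ.filter (fun v => (∃ a ∈ X, a.1 = v) ∨ ∃ a ∈ X, ∃ i < m, c i a = v)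
    with hS
  have hSX : ∀ a ∈ X, a.1 ∈ S := fun a ha => by
    rw [hS, Finset.mem_filter]; exact ⟨Finset.mem_univ _, Or.inl ⟨a, ha, rfl⟩⟩
  have hSc : ∀ a ∈ X, ∀ i < m, c i a ∈ S := fun a ha i hi => by
    rw [hS, Finset.mem_filter]; exact ⟨Finset.mem_univ _, Or.inr ⟨a, ha, i, hi, rfl⟩⟩
  have hSA : ∀ v ∈ S, ∀ hv : v ∈ A, (⟨v, hv⟩ : {x // x ∈ A}) ∈ X := by
    intro v hvS hv
    rw [hS, Finset.mem_filter] at hvS
    rcases hvS.2 with ⟨a, ha, rfl⟩ | ⟨a, ha, i, hi, rfl⟩
    · exact ha
    · exact absurd hv (hcA i a)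
  have hSB : ∀ v ∈ S, v ∉ A → ∃ i < m, f v = idx i := by
    intro v hvS hv
    rw [hS, Finset.mem_filter] at hvS
    rcases hvS.2 with ⟨a, ha, rfl⟩ | ⟨a, ha, i, hi, rfl⟩
    · exact absurd a.2 hv
    · exact ⟨i, hi, hcf i a⟩
  have key : ∀ (u w : V) (hu : u ∈ A) (q : ℕ), G.Adj u w → f w = idx q → w = c q ⟨u, hu⟩ := by
    intro u w hu q huw hfw
    have := hcluniq u hu w huw
    rw [hfw] at this
    exact this
  refine ⟨S, ⟨x0.1, hSX x0 hx0⟩, ?_, ?_⟩
  · intro v hv
    have hv' := hv
    rw [hS, Finset.mem_filter] at hv'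
    rcases hv'.2 with ⟨a, ha, rfl⟩ | ⟨a, ha, i, hi, rfl⟩
    · have hsub : (range m).image (fun i => c i a) ⊆ S.filter (fun w => G.Adj a.1 w) := by
        intro w hw
        obtain ⟨i, hi, rfl⟩ := Finset.mem_image.mp hw
        rw [Finset.mem_filter]
        exact ⟨hSc a ha i (Finset.mem_range.mp hi), hcadj i a⟩
      have hcard : ((range m).image (fun i => c i a)).card = m := by
        rw [Finset.card_image_of_injOn, Finset.card_range]
        intro i hi k hk h
        have h1 := congrArg f h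
        simp only [hcf] at h1
        exact hidxinj i (by simpa using hi) k (by simpa using hk) h1
      have := Finset.card_le_card hsub
      omega
    · have hsub : (X.filter (fun a' => c i a' = c i a)).map (Function.Embedding.subtype _) ⊆
          S.filter (fun w => G.Adj (c i a) w) := by
        intro w hw
        simp only [Finset.mem_map, Finset.mem_filter, Function.Embedding.subtype_apply] at hw
        obtain ⟨a', ⟨ha', h⟩, rfl⟩ := hw
        rw [Finset.mem_filter]
        refine ⟨hSX a' ha', ?_⟩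
        rw [← h]
        exact (hcadj i a').symm
      have := Finset.card_le_card hsub
      rw [Finset.card_map] at this
      have h2 := hXdeg a ha i hi
      omega
  · intro v p hp hsup
    by_contra hlen
    push Not at hlen
    have hl3 : 3 ≤ p.length := hp.three_le_length
    set len := p.length with hlendef
    let w : ℕ → V := fun i => p.getVert (i % len)
    have hw : ∀ i, w i = p.getVert (i % len) := fun i => rfl
    have hmemw : ∀ i, w i ∈ S := fun i => hsup _ (p.getVert_mem_support _)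
    have hper : ∀ i, w (i + len) = w i := fun i => by rw [hw, hw, Nat.add_mod_right]
    have hadjw : ∀ i, G.Adj (w i) (w (i + 1)) := by
      intro i
      rw [hw, hw]
      have h1 : i % len < len := Nat.mod_lt _ (by omega)
      have h2 := p.adj_getVert_succ (i := i % len) (by omega)
      rcases Nat.lt_or_ge (i % len + 1) len with h3 | h3
      · have h4 : (i + 1) % len = i % len + 1 := by
          rw [Nat.add_mod, Nat.mod_eq_of_lt (show 1 < len by omega), Nat.mod_eq_of_lt h3]
        rw [h4]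
        exact h2
      · have h4 : i % len + 1 = len := by omega
        have h5 : (i + 1) % len = 0 := by
          rw [Nat.add_mod, Nat.mod_eq_of_lt (show 1 < len by omega), h4, Nat.mod_self]
        rw [h4] at h2
        rw [h5, p.getVert_zero]
        rw [hlendef, p.getVert_length] at h2
        exact h2
    have hinjw : ∀ i j, w i = w j → i % len = j % len := by
      intro i j h
      have h1 : i % len < len := Nat.mod_lt _ (by omega)
      have h2 : j % len < len := Nat.mod_lt _ (by omega)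
      refine hp.getVert_injOn' ?_ ?_ h
      · simp only [Set.mem_ofPred_eq]; omega
      · simp only [Set.mem_ofPred_eq]; omega
    obtain ⟨o, ho1, hoA⟩ : ∃ o, o ≤ 1 ∧ w o ∈ A := by
      by_cases h0 : w 0 ∈ A
      · exact ⟨0, by omega, h0⟩
      · exact ⟨1, le_rfl, (hbip _ _ (hadjw 0).symm).mpr h0⟩
    have halt : ∀ i, w (o + 2 * i) ∈ A ∧ w (o + 2 * i + 1) ∉ A := by
      intro i
      induction i with
      | zero => exact ⟨hoA, (hbip _ _ (hadjw o)).mp hoA⟩
      | succ i ih =>
        have h1 : w (o + 2 * (i + 1)) ∈ A := (hbip _ _ (hadjw (o + 2 * i + 1)).symm).mpr ih.2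
        exact ⟨h1, (hbip _ _ (hadjw _)).mp h1⟩
    obtain ⟨q, hq⟩ : ∃ q, len = 2 * q := by
      rcases Nat.even_or_odd' len with ⟨q, hq | hq⟩
      · exact ⟨q, hq⟩
      · exfalso
        have h1 := (halt q).2
        have h2 : o + 2 * q + 1 = o + len := by omega
        rw [h2, hper] at h1
        exact h1 hoA
    have hq4 : len ≠ 4 := hC4 v p hp
    obtain ⟨k, hk⟩ : ∃ k, q = k + 3 := ⟨q - 3, by omega⟩
    have hlk : len = 2 * k + 6 := by omega
    have hkL : k < L := by omega
    have hlab : ∀ i, ∃ l < m, f (w (o + 2 * i + 1)) = idx l := fun i =>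
      hSB _ (hmemw _) (halt i).2
    choose lb hlb1 hlb2 using hlab
    let a : Fin (k + 3) → {x // x ∈ A} := fun t => ⟨w (o + 2 * t.val), (halt t.val).1⟩
    have hb1 : ∀ i, w (o + 2 * i + 1) = c (lb i) ⟨w (o + 2 * i), (halt i).1⟩ := fun i =>
      key _ _ (halt i).1 _ (hadjw _) (hlb2 i)
    have hb2 : ∀ i, w (o + 2 * i + 1) = c (lb i) ⟨w (o + 2 * (i + 1)), (halt (i + 1)).1⟩ :=
      fun i => key _ _ (halt (i + 1)).1 _ (hadjw (o + 2 * i + 1)).symm (hlb2 i)
    refine hXbad k hkL a ?_ fun t => hSA _ (hmemw _) _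
    rw [bad, Finset.mem_filter]
    refine ⟨Finset.mem_univ _, ?_, fun t => ⟨lb t.val, hlb1 t.val⟩, ?_, ?_, ?_⟩
    · intro t t' h
      have h1 := hinjw _ _ (congrArg Subtype.val h)
      have ht := t.isLt
      have ht' := t'.isLt
      rw [Nat.mod_eq_of_lt (by omega), Nat.mod_eq_of_lt (by omega)] at h1
      exact Fin.ext (by omega)
    · intro h
      have h1 : lb (k + 1) = lb (k + 2) := by
        have := congrArg Fin.val h
        simpa using this
      have h2 := hb2 (k + 1)
      have h3 := hb1 (k + 2)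
      rw [h1] at h2
      have h4 := hinjw _ _ (h2.trans h3.symm)
      rcases (by omega : o = 0 ∨ o = 1) with h5 | h5
      · subst h5
        rw [Nat.mod_eq_of_lt (by omega), Nat.mod_eq_of_lt (by omega)] at h4
        omega
      · subst h5
        have h6 : 1 + 2 * (k + 2) + 1 = len := by omega
        rw [Nat.mod_eq_of_lt (by omega), h6, Nat.mod_self] at h4
        omega
    · intro t
      exact (hb1 t.val).symm.trans (hb2 t.val)
    · have h1 : w (o + 2 * (k + 2 + 1)) = w (o + 2 * 0) := by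
        have : o + 2 * (k + 2 + 1) = o + 2 * 0 + len := by omega
        rw [this, hper]
      have h2 := hb2 (k + 2)
      have h3 := hb1 (k + 2)
      have h4 : (⟨w (o + 2 * (k + 2 + 1)), (halt (k + 2 + 1)).1⟩ : {x // x ∈ A}) =
          ⟨w (o + 2 * 0), (halt 0).1⟩ := Subtype.ext h1
      rw [h4] at h2
      exact h3.symm.trans h2

end Pool.Agent.Lib.MP_59be9f_co
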