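import Mathlib

set_option autoImplicit false
set_option linter.unusedSectionVars false
set_option linter.unusedSimpArgs false

namespace Pool.Agent.Lib.MP_59be9f_co.Sym

open Finset

lemma card_mul_rel {Γ : Type} [Group Γ] {H K : Subgroup Γ} (h : H ≤ K) :
    Nat.card H * H.relIndex K = Nat.card K := by
  rw [← Subgroup.relIndex_bot_left, ← Subgroup.relIndex_bot_left]
  exact Subgroup.relIndex_mul_relIndex ⊥ H K bot_le h

/-- Either a star of near pairs or `k` elements that are pairwise far. -/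
lemma dichotomy (w : ℕ → ℕ) (e : ℕ → ℕ → ℕ) (K D : ℕ) (hK : 1 ≤ K)
    (hsym : ∀ i j, w i ≤ w j → e i j ≤ e j i) :
    ∀ (k : ℕ) (I : Finset ℕ), k * K ≤ I.card →
      (∃ i ∈ I, ∃ N ⊆ I, i ∉ N ∧ N.card + 1 = K ∧ ∀ j ∈ N, e i j < D) ∨
      (∃ J ⊆ I, J.card = k ∧ ∀ i ∈ J, ∀ j ∈ J, i ≠ j → D ≤ e i j) := by
  intro k
  induction k with
  | zero =>
    intro I _
    exact Or.inr ⟨∅, by simp, by simp, by simp⟩
  | succ k ih =>
    intro I hI
    have hIpos : 0 < I.card := by
      have : (k + 1) * K = k * K + K := by ring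
      omega
    obtain ⟨i0, hi0, hmin⟩ := Finset.exists_min_image I w (Finset.card_pos.mp hIpos)
    by_cases hN : K ≤ ((I.erase i0).filter (fun j => e i0 j < D)).card + 1
    · left
      obtain ⟨N, hNs, hNc⟩ := Finset.exists_subset_card_eq
        (s := (I.erase i0).filter (fun j => e i0 j < D)) (n := K - 1) (by omega)
      refine ⟨i0, hi0, N, ?_, ?_, by omega, ?_⟩
      · intro j hj
        exact Finset.mem_of_mem_erase (Finset.mem_filter.mp (hNs hj)).1
      · intro h
        have := (Finset.mem_filter.mp (hNs h)).1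
        exact Finset.notMem_erase i0 I this
      · intro j hj
        exact (Finset.mem_filter.mp (hNs hj)).2
    · have h1 := Finset.card_filter_add_card_filter_not (s := I.erase i0) (fun j => e i0 j < D)
      have h2 : (I.erase i0).card + 1 = I.card := Finset.card_erase_add_one hi0
      have h3 : (k + 1) * K = k * K + K := by ring
      rcases ih ((I.erase i0).filter (fun j => ¬ e i0 j < D)) (by omega) with
        ⟨i, hi, N, hNs, hiN, hNc, hNe⟩ | ⟨J, hJs, hJc, hJ⟩
      · left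
        exact ⟨i, Finset.mem_of_mem_erase (Finset.mem_filter.mp hi).1, N,
          fun j hj => Finset.mem_of_mem_erase (Finset.mem_filter.mp (hNs hj)).1, hiN, hNc, hNe⟩
      · right
        have hi0J : i0 ∉ J := fun h =>
          Finset.notMem_erase i0 I (Finset.mem_filter.mp (hJs h)).1
        refine ⟨insert i0 J, ?_, by rw [Finset.card_insert_of_notMem hi0J, hJc], ?_⟩
        · intro j hj
          rcases Finset.mem_insert.mp hj with rfl | hj
          · exact hi0
          · exact Finset.mem_of_mem_erase (Finset.mem_filter.mp (hJs hj)).1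
        · intro i hi j hj hij
          rcases Finset.mem_insert.mp hi with hi' | hi' <;>
            rcases Finset.mem_insert.mp hj with hj' | hj'
          · exact absurd (hi'.trans hj'.symm) hij
          · have := (Finset.mem_filter.mp (hJs hj')).2
            rw [hi']
            omega
          · have h4 := (Finset.mem_filter.mp (hJs hi')).2
            have h5 := hmin i (Finset.mem_of_mem_erase (Finset.mem_filter.mp (hJs hi')).1)
            have h6 := hsym _ _ h5
            rw [hj']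
            omega
          · exact hJ i hi' j hj' hij

/-- the block of `g` in `X` for the subgroup `W` -/
def blk {Γ : Type} [Group Γ] (X : Set Γ) (W : Subgroup Γ) (g : Γ) : Set Γ :=
  {h | h ∈ X ∧ g⁻¹ * h ∈ W}

/-- The conclusion of the group lemmas. -/
def Conc (Γ : Type) [Group Γ] (H : Subgroup Γ) (V : ℕ → Subgroup Γ) (I : Finset ℕ) (K : ℕ)
    (φ : ℕ → ℕ) : Prop :=
  ∃ (X : Set Γ) (J : Finset ℕ) (s R : ℕ) (n : ℕ → ℕ), X.Nonempty ∧
    (∀ g ∈ X, ∀ h ∈ H, g * h ∈ X) ∧ J ⊆ I ∧ J.card = K ∧ 1 ≤ R ∧ φ R ≤ s ∧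
    ∀ i ∈ J, s ≤ n i ∧ n i ≤ R * s ∧ ∀ g ∈ X, (blk X (V i) g).ncard = n i * Nat.card H

section
variable {Γ : Type} [Group Γ] [Finite Γ]

lemma rel_pos (H K : Subgroup Γ) : H.relIndex K ≠ 0 := by
  intro h
  have h1 := card_mul_rel (Γ := Γ) (H := H ⊓ K) (K := K) inf_le_right
  rw [Subgroup.inf_relIndex_right, h, mul_zero] at h1
  have : 0 < Nat.card K := Nat.card_pos
  omega

/-- A star of near pairs. -/
lemma star (H Z : Subgroup Γ) (V : ℕ → Subgroup Γ) (I : Finset ℕ) (K D F : ℕ) (φ : ℕ → ℕ)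
    (hH : ∀ i ∈ I, H ≤ V i) (i0 : ℕ) (hi0 : i0 ∈ I) (N : Finset ℕ) (hN : N ⊆ I) (hiN : i0 ∉ N)
    (hNc : N.card + 1 = K) (hD : 1 ≤ D) (hF : φ 1 * D ^ N.card ≤ F)
    (hcard : F * Nat.card (H ⊓ Z : Subgroup Γ) ≤ Nat.card (V i0 ⊓ Z : Subgroup Γ))
    (hnear : ∀ j ∈ N, (V j ⊓ Z).relIndex (V i0 ⊓ Z) < D) : Conc Γ H V I K φ := by
  classical
  -- the intersection
  have key : ∀ M ⊆ N, ∃ X : Subgroup Γ, H ≤ X ∧ X ≤ V i0 ∧ (∀ j ∈ M, X ≤ V j) ∧
      (X ⊓ Z).relIndex (V i0 ⊓ Z) ≤ D ^ M.card := by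
    intro M
    induction M using Finset.induction_on with
    | empty =>
      intro _
      exact ⟨V i0, hH i0 hi0, le_rfl, by simp, by simp⟩
    | insert m M hm ih =>
      intro hM
      obtain ⟨X, h1, h2, h3, h4⟩ := ih (fun j hj => hM (Finset.mem_insert_of_mem hj))
      have hmN : m ∈ N := hM (Finset.mem_insert_self _ _)
      refine ⟨X ⊓ V m, le_inf h1 (hH m (hN hmN)), inf_le_left.trans h2, ?_, ?_⟩
      · intro j hj
        rcases Finset.mem_insert.mp hj with rfl | hj
        · exact inf_le_right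
        · exact inf_le_left.trans (h3 j hj)
      · rw [Finset.card_insert_of_notMem hm, pow_succ]
        have h5 : X ⊓ V m ⊓ Z = (X ⊓ Z) ⊓ (V m ⊓ Z) := by
          ext x
          simp only [Subgroup.mem_inf]
          tauto
        rw [h5]
        exact Subgroup.relIndex_inf_le.trans (Nat.mul_le_mul h4 (hnear m hmN).le)
  obtain ⟨X, hHX, hXi, hXN, hXrel⟩ := key N le_rfl
  have hXZ : X ⊓ Z ≤ V i0 ⊓ Z := inf_le_inf_right Z hXi
  have h1 := card_mul_rel hXZ
  have hHZ : H ⊓ Z ≤ X ⊓ Z := inf_le_inf_right Z hHX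
  have h2 := card_mul_rel hHZ
  have h3 : (H ⊓ Z).relIndex (X ⊓ Z) = H.relIndex (X ⊓ Z) := by
    rw [← Subgroup.inf_relIndex_right H (X ⊓ Z), ← Subgroup.inf_relIndex_right (H ⊓ Z) (X ⊓ Z)]
    congr 1
    ext x
    simp only [Subgroup.mem_inf]
    tauto
  have h4 : H.relIndex (X ⊓ Z) ≤ H.relIndex X :=
    Subgroup.relIndex_le_of_le_right inf_le_left (rel_pos H X)
  have hcH : 0 < Nat.card (H ⊓ Z : Subgroup Γ) := Nat.card_pos
  have hDp : 0 < D ^ N.card := Nat.pow_pos hD
  have h5 : φ 1 ≤ H.relIndex X := by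
    refine le_trans ?_ h4
    rw [← h3]
    -- `φ 1 * D^n * |H ⊓ Z| ≤ |V i0 ⊓ Z| ≤ D^n * |X ⊓ Z|`
    have h6 : φ 1 * D ^ N.card * Nat.card (H ⊓ Z : Subgroup Γ) ≤
        (H ⊓ Z).relIndex (X ⊓ Z) * D ^ N.card * Nat.card (H ⊓ Z : Subgroup Γ) := by
      calc φ 1 * D ^ N.card * Nat.card (H ⊓ Z : Subgroup Γ)
          ≤ F * Nat.card (H ⊓ Z : Subgroup Γ) := Nat.mul_le_mul_right _ hF
        _ ≤ Nat.card (V i0 ⊓ Z : Subgroup Γ) := hcard
        _ = Nat.card (X ⊓ Z : Subgroup Γ) * (X ⊓ Z).relIndex (V i0 ⊓ Z) := h1.symm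
        _ ≤ Nat.card (X ⊓ Z : Subgroup Γ) * D ^ N.card := Nat.mul_le_mul_left _ hXrel
        _ = (H ⊓ Z).relIndex (X ⊓ Z) * D ^ N.card * Nat.card (H ⊓ Z : Subgroup Γ) := by
            rw [← h2]; ring
    exact Nat.le_of_mul_le_mul_right (Nat.le_of_mul_le_mul_right h6 hcH) hDp
  have hblk : ∀ i ∈ insert i0 N, ∀ g ∈ (X : Set Γ), blk (X : Set Γ) (V i) g = (X : Set Γ) := by
    intro i hi g hg
    have hXV : X ≤ V i := by
      rcases Finset.mem_insert.mp hi with rfl | hi
      · exact hXi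
      · exact hXN i hi
    ext h
    simp only [blk, Set.mem_ofPred_eq]
    constructor
    · exact fun h => h.1
    · intro hh
      exact ⟨hh, hXV (X.mul_mem (X.inv_mem hg) hh)⟩
  have hXc : (X : Set Γ).ncard = H.relIndex X * Nat.card H := by
    rw [mul_comm, card_mul_rel hHX]
    rfl
  refine ⟨(X : Set Γ), insert i0 N, H.relIndex X, 1, fun _ => H.relIndex X, ⟨1, X.one_mem⟩,
    fun g hg h hh => X.mul_mem hg (hHX hh), ?_, ?_, le_rfl, h5, ?_⟩
  · intro j hj
    rcases Finset.mem_insert.mp hj with rfl | hj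
    · exact hi0
    · exact hN hj
  · rw [Finset.card_insert_of_notMem hiN, hNc]
  · intro i hi
    refine ⟨le_rfl, by rw [one_mul], fun g hg => ?_⟩
    rw [hblk i hi g hg, hXc]

/-- Greedy choice of `s` elements of one subgroup. -/
lemma grd [DecidableEq Γ] (Z : Subgroup Γ) (V : ℕ → Subgroup Γ) (J : Finset ℕ) (D s : ℕ) (m : ℕ)
    (P : Finset Γ) (hP : P.Nonempty) (hother : ∃ j ∈ J, j ≠ m)
    (hfar : ∀ j ∈ J, j ≠ m → D ≤ (V j ⊓ Z).relIndex (V m ⊓ Z))
    (hD : s * (J.card * (P.card * P.card)) < D) :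
    ∀ k ≤ s, ∃ S : Finset Γ, S.card = k ∧ (∀ x ∈ S, x ∈ V m ⊓ Z) ∧
      ∀ x ∈ S, ∀ y ∈ S, ∀ j ∈ J, j ≠ m → ∀ p ∈ P, ∀ p' ∈ P,
        (p * x)⁻¹ * (p' * y) ∈ V j ⊓ Z → x = y := by
  classical
  intro k
  induction k with
  | zero => intro _; exact ⟨∅, by simp, by simp, by simp⟩
  | succ k ih =>
    intro hk
    obtain ⟨S, hcard, hSU, hS⟩ := ih (by omega)
    by_contra hcon
    push Not at hcon
    have hbad : ∀ x ∈ V m ⊓ Z, ∃ t : Γ × (ℕ × (Γ × Γ)),
        t ∈ S ×ˢ (J ×ˢ (P ×ˢ P)) ∧ t.2.1 ≠ m ∧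
        (t.2.2.1 * x)⁻¹ * (t.2.2.2 * t.1) ∈ V t.2.1 ⊓ Z := by
      intro x hx
      by_contra hno
      push Not at hno
      have hno' : ∀ y ∈ S, ∀ j ∈ J, j ≠ m → ∀ p ∈ P, ∀ p' ∈ P,
          (p * x)⁻¹ * (p' * y) ∉ V j ⊓ Z := by
        intro y hy j hj hjm p hp p' hp'
        exact hno (y, (j, (p, p'))) (by simp [hy, hj, hp, hp']) hjm
      obtain ⟨p0, hp0⟩ := hP
      obtain ⟨j0, hj0, hj0m⟩ := hother
      have hxS : x ∉ S := fun h => hno' x h j0 hj0 hj0m p0 hp0 p0 hp0 (by
        rw [inv_mul_cancel]; exact Subgroup.one_mem _)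
      obtain ⟨y, hy, y', hy', j, hj, hjm, p, hp, p', hp', he, hne⟩ := hcon (insert x S)
        (by rw [card_insert_of_notMem hxS, hcard])
        (by
          intro s hs
          rcases Finset.mem_insert.mp hs with rfl | hs
          · exact hx
          · exact hSU s hs)
      rcases Finset.mem_insert.mp hy with rfl | hy1 <;>
        rcases Finset.mem_insert.mp hy' with rfl | hy1'
      · exact hne rfl
      · exact hno' y' hy1' j hj hjm p hp p' hp' he
      · refine hno' y hy1 j hj hjm p' hp' p hp ?_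
        have := Subgroup.inv_mem _ he
        rwa [mul_inv_rev, inv_inv] at this
      · exact hne (hS y hy1 y' hy1' j hj hjm p hp p' hp' he)
    choose! T hT1 hT2 hT3 using hbad
    have : Fintype Γ := Fintype.ofFinite Γ
    set W : Finset Γ := univ.filter (fun x => x ∈ V m ⊓ Z) with hW
    have hWc : W.card = Nat.card (V m ⊓ Z : Subgroup Γ) := by
      rw [hW, Nat.card_eq_fintype_card, Fintype.card_subtype]
    have hWpos : 0 < W.card := by
      rw [hWc]; exact Nat.card_pos
    have hDpos : 0 < D := by omega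
    have hfib : ∀ t ∈ W.image T, (W.filter (fun x => T x = t)).card ≤ W.card / D := by
      intro t ht
      obtain ⟨x0, hx0, rfl⟩ := Finset.mem_image.mp ht
      have hx0' : x0 ∈ V m ⊓ Z := (Finset.mem_filter.mp hx0).2
      have hjJ : (T x0).2.1 ∈ J := by
        have := hT1 x0 hx0'
        simp only [Finset.mem_product] at this
        exact this.2.1
      have hf := hfar _ hjJ (hT2 x0 hx0')
      set j := (T x0).2.1 with hj
      have hle : (W.filter (fun x => T x = T x0)).card ≤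
          (univ.filter (fun x => x ∈ (V j ⊓ Z) ⊓ (V m ⊓ Z))).card := by
        refine Finset.card_le_card_of_injOn (fun x => x0⁻¹ * x) ?_ ?_
        · intro x hx
          have hx' := Finset.mem_filter.mp (Finset.mem_coe.mp hx)
          have hx1 : x ∈ V m ⊓ Z := (Finset.mem_filter.mp hx'.1).2
          refine Finset.mem_coe.mpr (Finset.mem_filter.mpr ⟨Finset.mem_univ _, ?_⟩)
          refine Subgroup.mem_inf.mpr ⟨?_, Subgroup.mul_mem _ (Subgroup.inv_mem _ hx0') hx1⟩
          have e1 := hT3 x0 hx0'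
          have e2 := hT3 x hx1
          rw [hx'.2] at e2
          have e3 := Subgroup.mul_mem _ e1 (Subgroup.inv_mem _ e2)
          have e4 : ((T x0).2.2.1 * x0)⁻¹ * ((T x0).2.2.2 * (T x0).1) *
              (((T x0).2.2.1 * x)⁻¹ * ((T x0).2.2.2 * (T x0).1))⁻¹ = x0⁻¹ * x := by group
          rw [e4] at e3
          exact e3
        · intro x _ y _ he
          exact mul_left_cancel he
      refine hle.trans ?_
      rw [Nat.le_div_iff_mul_le hDpos, hWc]
      have h1 := card_mul_rel (Γ := Γ) (H := (V j ⊓ Z) ⊓ (V m ⊓ Z)) (K := V m ⊓ Z) inf_le_right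
      rw [Subgroup.inf_relIndex_right] at h1
      rw [← h1]
      have h2 : (univ.filter (fun x => x ∈ (V j ⊓ Z) ⊓ (V m ⊓ Z))).card =
          Nat.card ((V j ⊓ Z) ⊓ (V m ⊓ Z) : Subgroup Γ) := by
        rw [Nat.card_eq_fintype_card, Fintype.card_subtype]
      rw [h2]
      exact Nat.mul_le_mul_left _ hf
    have h1 := Finset.card_le_mul_card_image W (W.card / D) hfib
    have h2 : (W.image T).card ≤ k * (J.card * (P.card * P.card)) := by
      have : W.image T ⊆ S ×ˢ (J ×ˢ (P ×ˢ P)) := by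
        intro t ht
        obtain ⟨x0, hx0, rfl⟩ := Finset.mem_image.mp ht
        exact hT1 x0 (Finset.mem_filter.mp hx0).2
      have h3 := Finset.card_le_card this
      rw [Finset.card_product, Finset.card_product, Finset.card_product, hcard] at h3
      exact h3
    have h3 : k * (J.card * (P.card * P.card)) ≤ s * (J.card * (P.card * P.card)) :=
      Nat.mul_le_mul_right _ (by omega)
    have h4 : (W.image T).card < D := by omega
    have h5 : W.card / D * D ≤ W.card := Nat.div_mul_le_self _ _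
    rcases Nat.eq_zero_or_pos (W.card / D) with h0 | hpos
    · rw [h0, zero_mul] at h1
      omega
    · have h6 : W.card / D * (W.image T).card < W.card / D * D := Nat.mul_lt_mul_of_pos_left h4 hpos
      omega

end

end Pool.Agent.Lib.MP_59be9f_co.Sym
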