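import Mathlib
import Pool.Agent.Lib.MP_59be9f_co.Grp

set_option autoImplicit false
set_option linter.unusedSectionVars false
set_option linter.unusedSimpArgs false

namespace Pool.Agent.Lib.MP_59be9f_co.Sym

open Finset

section
variable {Γ : Type} [Group Γ] [Finite Γ]

/-- The product of greedily chosen sets, inside a commutative subgroup. -/
lemma prodset [DecidableEq Γ] (H Z : Subgroup Γ) (V : ℕ → Subgroup Γ) (J : Finset ℕ) (D s : ℕ)
    (hs : 1 ≤ s) (hZ : ∀ x ∈ Z, ∀ y ∈ Z, x * y = y * x) (hJ : 1 < J.card)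
    (hH : ∀ j ∈ J, H ≤ V j)
    (hfar : ∀ i ∈ J, ∀ j ∈ J, i ≠ j → D ≤ (V j ⊓ Z).relIndex (V i ⊓ Z))
    (hD : s * (J.card * (s ^ J.card * s ^ J.card)) < D) (T : Finset ℕ) :
    T ⊆ J → ∃ P : Finset Γ, P.Nonempty ∧ P.card ≤ s ^ T.card ∧ (∀ p ∈ P, p ∈ Z) ∧
      (∀ i ∈ J, i ∉ T → ∀ p ∈ P, ∀ p' ∈ P, p⁻¹ * p' ∈ V i → p = p') ∧
      (∀ p ∈ P, ∀ p' ∈ P, p⁻¹ * p' ∈ H → p = p') ∧
      (∀ i ∈ T, ∀ p ∈ P, (blk (P : Set Γ) (V i) p).ncard = s) := by
  classical
  induction T using Finset.induction_on with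
  | empty =>
    intro _
    refine ⟨{1}, by simp, by simp, by simp [Subgroup.one_mem], ?_, ?_, by simp⟩
    · intro i _ _ p hp p' hp' _
      rw [Finset.mem_singleton] at hp hp'
      rw [hp, hp']
    · intro p hp p' hp' _
      rw [Finset.mem_singleton] at hp hp'
      rw [hp, hp']
  | insert m T hm ih =>
    intro hT
    obtain ⟨P, hPne, hPcard, hPZ, hPa, hPb, hPc⟩ := ih (fun j hj => hT (Finset.mem_insert_of_mem hj))
    have hmJ : m ∈ J := hT (Finset.mem_insert_self _ _)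
    have hTcard : T.card ≤ J.card := Finset.card_le_card
      (fun j hj => hT (Finset.mem_insert_of_mem hj))
    have hPle : P.card ≤ s ^ J.card := hPcard.trans (Nat.pow_le_pow_right hs hTcard)
    have hother : ∃ j ∈ J, j ≠ m := Finset.exists_mem_ne hJ m
    obtain ⟨S, hScard, hSU, hS⟩ := grd Z V J D s m P hPne hother
      (fun j hj hjm => hfar m hmJ j hj (fun h => hjm h.symm))
      (lt_of_le_of_lt (Nat.mul_le_mul_left _ (Nat.mul_le_mul_left _ (Nat.mul_le_mul hPle hPle)))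
        hD) s le_rfl
    have hSne : S.Nonempty := by
      rw [← Finset.card_pos]; omega
    have hSV : ∀ x ∈ S, x ∈ V m := fun x hx => (Subgroup.mem_inf.mp (hSU x hx)).1
    have hSZ : ∀ x ∈ S, x ∈ Z := fun x hx => (Subgroup.mem_inf.mp (hSU x hx)).2
    have hconj : ∀ p ∈ P, ∀ p' ∈ P, ∀ x ∈ S, (p * x)⁻¹ * (p' * x) = p⁻¹ * p' := by
      intro p hp p' hp' x hx
      have h1 : x * (p⁻¹ * p') = (p⁻¹ * p') * x :=
        hZ x (hSZ x hx) _ (Z.mul_mem (Z.inv_mem (hPZ p hp)) (hPZ p' hp'))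
      calc (p * x)⁻¹ * (p' * x) = x⁻¹ * ((p⁻¹ * p') * x) := by group
        _ = x⁻¹ * (x * (p⁻¹ * p')) := by rw [h1]
        _ = p⁻¹ * p' := by group
    have hrule : ∀ p ∈ P, ∀ p' ∈ P, ∀ x ∈ S, ∀ y ∈ S, ∀ j ∈ J, j ≠ m →
        (p * x)⁻¹ * (p' * y) ∈ V j → x = y ∧ p⁻¹ * p' ∈ V j := by
      intro p hp p' hp' x hx y hy j hj hjm he
      have hz : (p * x)⁻¹ * (p' * y) ∈ Z :=
        Z.mul_mem (Z.inv_mem (Z.mul_mem (hPZ p hp) (hSZ x hx))) (Z.mul_mem (hPZ p' hp') (hSZ y hy))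
      have h1 := hS x hx y hy j hj hjm p hp p' hp' (Subgroup.mem_inf.mpr ⟨he, hz⟩)
      refine ⟨h1, ?_⟩
      rw [← h1, hconj p hp p' hp' x hx] at he
      exact he
    have hrulem : ∀ p ∈ P, ∀ p' ∈ P, ∀ x ∈ S, ∀ y ∈ S, (p * x)⁻¹ * (p' * y) ∈ V m → p = p' := by
      intro p hp p' hp' x hx y hy he
      refine hPa m hmJ hm p hp p' hp' ?_
      have h1 := (V m).mul_mem ((V m).mul_mem (hSV x hx) he) ((V m).inv_mem (hSV y hy))
      have h2 : x * ((p * x)⁻¹ * (p' * y)) * y⁻¹ = p⁻¹ * p' := by group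
      rwa [h2] at h1
    refine ⟨(P ×ˢ S).image (fun z => z.1 * z.2), (hPne.product hSne).image _, ?_, ?_, ?_, ?_, ?_⟩
    · refine Finset.card_image_le.trans ?_
      rw [Finset.card_product, hScard, Finset.card_insert_of_notMem hm, pow_succ]
      exact Nat.mul_le_mul_right _ hPcard
    · intro q hq
      obtain ⟨⟨p, x⟩, hpx, rfl⟩ := Finset.mem_image.mp hq
      obtain ⟨hp, hx⟩ := Finset.mem_product.mp hpx
      exact Z.mul_mem (hPZ p hp) (hSZ x hx)
    · intro i hi hiT q hq q' hq' he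
      obtain ⟨⟨p, x⟩, hpx, rfl⟩ := Finset.mem_image.mp hq
      obtain ⟨hp, hx⟩ := Finset.mem_product.mp hpx
      obtain ⟨⟨p', y⟩, hpy, rfl⟩ := Finset.mem_image.mp hq'
      obtain ⟨hp', hy⟩ := Finset.mem_product.mp hpy
      have him : i ≠ m := fun h => hiT (by rw [h]; exact Finset.mem_insert_self _ _)
      have h1 := hrule p hp p' hp' x hx y hy i hi him he
      have h2 := hPa i hi (fun h => hiT (Finset.mem_insert_of_mem h)) p hp p' hp' h1.2
      change p * x = p' * y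
      rw [h1.1, h2]
    · intro q hq q' hq' he
      obtain ⟨⟨p, x⟩, hpx, rfl⟩ := Finset.mem_image.mp hq
      obtain ⟨hp, hx⟩ := Finset.mem_product.mp hpx
      obtain ⟨⟨p', y⟩, hpy, rfl⟩ := Finset.mem_image.mp hq'
      obtain ⟨hp', hy⟩ := Finset.mem_product.mp hpy
      obtain ⟨j0, hj0, hj0m⟩ := hother
      have he' : (p * x)⁻¹ * (p' * y) ∈ H := he
      have h1 := hrule p hp p' hp' x hx y hy j0 hj0 hj0m (hH j0 hj0 he')
      rw [← h1.1, hconj p hp p' hp' x hx] at he'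
      change p * x = p' * y
      rw [← h1.1, hPb p hp p' hp' he']
    · intro i hi q hq
      obtain ⟨⟨p, x⟩, hpx, rfl⟩ := Finset.mem_image.mp hq
      obtain ⟨hp, hx⟩ := Finset.mem_product.mp hpx
      change (blk _ (V i) (p * x)).ncard = s
      rcases Finset.mem_insert.mp hi with rfl | hiT
      · have heq : blk (((P ×ˢ S).image (fun z : Γ × Γ => z.1 * z.2) : Finset Γ) : Set Γ) (V i)
            (p * x) = (fun y => p * y) '' (S : Set Γ) := by
          ext h
          simp only [blk, Set.mem_ofPred_eq, Set.mem_image]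
          constructor
          · rintro ⟨hh, he⟩
            obtain ⟨⟨p', y⟩, hpy, rfl⟩ := Finset.mem_image.mp (Finset.mem_coe.mp hh)
            obtain ⟨hp', hy⟩ := Finset.mem_product.mp hpy
            have := hrulem p hp p' hp' x hx y hy he
            exact ⟨y, hy, by rw [this]⟩
          · rintro ⟨y, hy, rfl⟩
            refine ⟨Finset.mem_coe.mpr (Finset.mem_image.mpr
              ⟨(p, y), Finset.mem_product.mpr ⟨hp, hy⟩, rfl⟩), ?_⟩
            have h2 : (p * x)⁻¹ * (p * y) = x⁻¹ * y := by group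
            rw [h2]
            exact (V i).mul_mem ((V i).inv_mem (hSV x hx)) (hSV y hy)
        rw [heq, Set.ncard_image_of_injective _ (mul_right_injective p), Set.ncard_coe_finset,
          hScard]
      · have hiJ : i ∈ J := hT (Finset.mem_insert_of_mem hiT)
        have him : i ≠ m := fun h => hm (by rw [← h]; exact hiT)
        have heq : blk (((P ×ˢ S).image (fun z : Γ × Γ => z.1 * z.2) : Finset Γ) : Set Γ) (V i)
            (p * x) = (fun p' => p' * x) '' (blk (P : Set Γ) (V i) p) := by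
          ext h
          simp only [blk, Set.mem_ofPred_eq, Set.mem_image]
          constructor
          · rintro ⟨hh, he⟩
            obtain ⟨⟨p', y⟩, hpy, rfl⟩ := Finset.mem_image.mp (Finset.mem_coe.mp hh)
            obtain ⟨hp', hy⟩ := Finset.mem_product.mp hpy
            have h1 := hrule p hp p' hp' x hx y hy i hiJ him he
            exact ⟨p', ⟨hp', h1.2⟩, by rw [h1.1]⟩
          · rintro ⟨p', ⟨hp', he⟩, rfl⟩
            refine ⟨Finset.mem_coe.mpr (Finset.mem_image.mpr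
              ⟨(p', x), Finset.mem_product.mpr ⟨hp', hx⟩, rfl⟩), ?_⟩
            rw [hconj p hp p' hp' x hx]
            exact he
        rw [heq, Set.ncard_image_of_injective _ (mul_left_injective x)]
        exact hPc i hiT p hp

end

/-- the bound for far pairs -/
def farD (K s : ℕ) : ℕ := s * (K * (s ^ K * s ^ K)) + 1

/-- The commutative case. -/
lemma abelian (K : ℕ) (hK : 2 ≤ K) (φ : ℕ → ℕ) (Γ : Type) [Group Γ] [Finite Γ]
    (H Z : Subgroup Γ) (V : ℕ → Subgroup Γ) (I : Finset ℕ)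
    (hZ : ∀ x ∈ Z, ∀ y ∈ Z, x * y = y * x) (hH : ∀ i ∈ I, H ≤ V i) (hr : K * K ≤ I.card)
    (hD : ∀ i ∈ I, (φ 1 * farD K (φ 1 + 1) ^ (K - 1) + 1) * Nat.card (H ⊓ Z : Subgroup Γ) ≤
      Nat.card (V i ⊓ Z : Subgroup Γ)) : Conc Γ H V I K φ := by
  classical
  rcases dichotomy (fun i => Nat.card (V i ⊓ Z : Subgroup Γ))
    (fun i j => (V j ⊓ Z).relIndex (V i ⊓ Z)) K (farD K (φ 1 + 1)) (by omega)
    (by
      intro i j hij
      have h1 := card_mul_rel (Γ := Γ) (H := (V j ⊓ Z) ⊓ (V i ⊓ Z)) (K := V i ⊓ Z) inf_le_right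
      have h2 := card_mul_rel (Γ := Γ) (H := (V i ⊓ Z) ⊓ (V j ⊓ Z)) (K := V j ⊓ Z) inf_le_right
      rw [Subgroup.inf_relIndex_right] at h1 h2
      rw [inf_comm] at h2
      have hp : 0 < Nat.card ((V j ⊓ Z) ⊓ (V i ⊓ Z) : Subgroup Γ) := Nat.card_pos
      change Nat.card (V i ⊓ Z : Subgroup Γ) ≤ Nat.card (V j ⊓ Z : Subgroup Γ) at hij
      rw [← h1, ← h2] at hij
      exact Nat.le_of_mul_le_mul_left hij hp)
    K I hr with ⟨i0, hi0, N, hN, hiN, hNc, hnear⟩ | ⟨J, hJI, hJc, hfar⟩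
  · refine star H Z V I K (farD K (φ 1 + 1)) _ φ hH i0 hi0 N hN hiN hNc (by unfold farD; omega)
      ?_ (hD i0 hi0) hnear
    have : N.card = K - 1 := by omega
    rw [this]
    omega
  · obtain ⟨P, ⟨p0, hp0⟩, -, -, -, hPb, hPc⟩ := prodset H Z V J (farD K (φ 1 + 1)) (φ 1 + 1)
      (by omega) hZ (by omega) (fun j hj => hH j (hJI hj)) hfar
      (by rw [hJc]; unfold farD; omega) J le_rfl
    refine ⟨{g | ∃ p ∈ P, p⁻¹ * g ∈ H}, J, φ 1 + 1, 1, fun _ => φ 1 + 1, ⟨p0, p0, hp0, ?_⟩, ?_,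
      hJI, hJc, le_rfl, by omega, ?_⟩
    · rw [inv_mul_cancel]; exact H.one_mem
    · rintro g ⟨p, hp, hpg⟩ h hh
      refine ⟨p, hp, ?_⟩
      rw [← mul_assoc]
      exact H.mul_mem hpg hh
    · intro i hi
      refine ⟨le_rfl, by rw [one_mul], ?_⟩
      rintro g ⟨p, hp, hpg⟩
      have hHV : H ≤ V i := hH i (hJI hi)
      have heq : blk {g | ∃ p ∈ P, p⁻¹ * g ∈ H} (V i) g =
          (fun z : Γ × Γ => z.1 * z.2) '' ((blk (P : Set Γ) (V i) p) ×ˢ (H : Set Γ)) := by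
        ext h
        simp only [blk, Set.mem_ofPred_eq, Set.mem_image, Set.mem_prod, Prod.exists]
        constructor
        · rintro ⟨⟨p', hp', hph⟩, he⟩
          refine ⟨p', p'⁻¹ * h, ⟨⟨hp', ?_⟩, hph⟩, by group⟩
          have h1 := (V i).mul_mem ((V i).mul_mem (hHV hpg) he) ((V i).inv_mem (hHV hph))
          have h2 : p⁻¹ * g * (g⁻¹ * h) * (p'⁻¹ * h)⁻¹ = p⁻¹ * p' := by group
          rwa [h2] at h1
        · rintro ⟨p', η, ⟨⟨hp', hpp⟩, hη⟩, rfl⟩
          refine ⟨⟨p', hp', ?_⟩, ?_⟩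
          · rw [inv_mul_cancel_left]; exact hη
          · have h1 := (V i).mul_mem ((V i).mul_mem ((V i).inv_mem (hHV hpg)) hpp) (hHV hη)
            have h2 : (p⁻¹ * g)⁻¹ * (p⁻¹ * p') * η = g⁻¹ * (p' * η) := by group
            rwa [h2] at h1
      have hcard : (blk {g | ∃ p ∈ P, p⁻¹ * g ∈ H} (V i) g).ncard = (φ 1 + 1) * Nat.card H := by
        rw [heq, Set.ncard_image_of_injOn, Set.ncard_prod, hPc i hi p hp]
        · rfl
        · rintro ⟨a, b⟩ hab ⟨c, d⟩ hcd he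
          simp only [Set.mem_prod] at hab hcd
          have he' : a * b = c * d := he
          have ha : a ∈ P := hab.1.1
          have hc : c ∈ P := hcd.1.1
          have h1 : a⁻¹ * c = b * d⁻¹ := by
            have : c = a * b * d⁻¹ := by rw [he']; group
            rw [this]; group
          have h2 : a = c := hPb a ha c hc (by
            rw [h1]; exact H.mul_mem hab.2 (H.inv_mem hcd.2))
          rw [h2] at he'
          rw [h2, mul_left_cancel he']
      exact hcard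

lemma Conc.mono {Γ : Type} [Group Γ] {H : Subgroup Γ} {V : ℕ → Subgroup Γ} {I I' : Finset ℕ}
    {K : ℕ} {φ : ℕ → ℕ} (h : Conc Γ H V I K φ) (hI : I ⊆ I') : Conc Γ H V I' K φ := by
  obtain ⟨X, J, s, R, n, h1, h2, h3, h4⟩ := h
  exact ⟨X, J, s, R, n, h1, h2, h3.trans hI, h4⟩

end Pool.Agent.Lib.MP_59be9f_co.Sym
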