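import Mathlib
import Pool.Agent.Lib.MP_59be9f_co.Grp2

set_option autoImplicit false
set_option linter.unusedSectionVars false
set_option linter.unusedSimpArgs false
set_option linter.deprecated false

namespace Pool.Agent.Lib.MP_59be9f_co.Sym

open Finset

/-- Blocks of a preimage. -/
lemma pull {Γ Γ' : Type} [Group Γ] [Finite Γ] [Group Γ'] (π : Γ →* Γ') (W : Subgroup Γ)
    (X' : Set Γ') (g : Γ) :
    (blk (π ⁻¹' X') W g).ncard =
      (blk X' (W.map π) (π g)).ncard * Nat.card (W ⊓ π.ker : Subgroup Γ) := by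
  classical
  have hlift : ∀ y ∈ blk X' (W.map π) (π g), ∃ h : Γ, π h = y ∧ g⁻¹ * h ∈ W := by
    rintro y ⟨hy, hy2⟩
    obtain ⟨v, hv, hve⟩ := Subgroup.mem_map.mp hy2
    refine ⟨g * v, ?_, by rw [inv_mul_cancel_left]; exact hv⟩
    rw [map_mul, hve, mul_inv_cancel_left]
  choose! σ hσ1 hσ2 using hlift
  have heq : blk (π ⁻¹' X') W g = (fun z : Γ' × Γ => σ z.1 * z.2) ''
      ((blk X' (W.map π) (π g)) ×ˢ ((W ⊓ π.ker : Subgroup Γ) : Set Γ)) := by
    ext h
    rw [Set.mem_image]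
    constructor
    · rintro ⟨hh, he⟩
      have hy : π h ∈ blk X' (W.map π) (π g) := by
        refine ⟨hh, ?_⟩
        rw [← map_inv, ← map_mul]
        exact Subgroup.mem_map_of_mem π he
      refine ⟨(π h, (σ (π h))⁻¹ * h), Set.mem_prod.mpr ⟨hy, ?_⟩, ?_⟩
      · refine Subgroup.mem_inf.mpr ⟨?_, ?_⟩
        · have h1 := W.mul_mem (W.inv_mem (hσ2 _ hy)) he
          have h2 : (g⁻¹ * σ (π h))⁻¹ * (g⁻¹ * h) = (σ (π h))⁻¹ * h := by group
          rwa [h2] at h1
        · change (σ (π h))⁻¹ * h ∈ π.ker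
          rw [MonoidHom.mem_ker, map_mul, map_inv, hσ1 _ hy, inv_mul_cancel]
      · change σ (π h) * ((σ (π h))⁻¹ * h) = h
        rw [mul_inv_cancel_left]
    · rintro ⟨⟨y, z⟩, hyz, rfl⟩
      obtain ⟨hy, hz⟩ := Set.mem_prod.mp hyz
      obtain ⟨hz1, hz2⟩ := Subgroup.mem_inf.mp hz
      change y ∈ _ at hy
      refine ⟨?_, ?_⟩
      · rw [Set.mem_preimage, map_mul, hσ1 y hy]
        have : π z = 1 := MonoidHom.mem_ker.mp hz2
        change y * π z ∈ X'
        rw [this, mul_one]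
        exact hy.1
      · change g⁻¹ * (σ y * z) ∈ W
        rw [← mul_assoc]
        exact W.mul_mem (hσ2 y hy) hz1
  rw [heq, Set.ncard_image_of_injOn, Set.ncard_prod]
  · rfl
  · rintro ⟨y, z⟩ hyz ⟨y', z'⟩ hyz' he
    obtain ⟨hy, hz⟩ := Set.mem_prod.mp hyz
    obtain ⟨hy', hz'⟩ := Set.mem_prod.mp hyz'
    have hπz : ∀ w ∈ (W ⊓ π.ker : Subgroup Γ), π w = 1 := by
      intro w hw
      exact MonoidHom.mem_ker.mp (Subgroup.mem_inf.mp hw).2
    have he' : σ y * z = σ y' * z' := he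
    have h1 := congrArg π he'
    rw [map_mul, map_mul, hσ1 y hy, hσ1 y' hy', hπz z hz, hπz z' hz', mul_one, mul_one] at h1
    rw [h1] at he'
    rw [h1, mul_left_cancel he']

/-- The constant of the group lemma. -/
def bigM (K : ℕ) (φ : ℕ → ℕ) : ℕ := φ (2 * 1) * farD K (φ (2 * 1) + 1) ^ (K - 1) + 1

/-- The group lemma for solvable groups, with explicit bounds. -/
theorem solvE (K : ℕ) (hK : 2 ≤ K) (φ : ℕ → ℕ) (l : ℕ) (Γ : Type) [Group Γ] [Finite Γ]
    (H : Subgroup Γ) (V : ℕ → Subgroup Γ) (I : Finset ℕ) (hder : derivedSeries Γ l = ⊥)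
    (hH : ∀ i ∈ I, H ≤ V i) (hr : (l * (2 * bigM K φ ^ l)) * (K * K) < I.card)
    (hD : ∀ i ∈ I, 2 * bigM K φ ^ l * Nat.card H ≤ Nat.card (V i)) : Conc Γ H V I K φ := by
  classical
  set M : ℕ := bigM K φ with hM
  have hM1 : 1 ≤ M := by rw [hM]; unfold bigM; omega
  set S : ℕ → Subgroup Γ := fun j => derivedSeries Γ j with hS
  set a : ℕ → ℕ → ℕ := fun i j => (H ⊓ S j).relIndex (V i ⊓ S j) with ha
  have hacard : ∀ i ∈ I, ∀ j, Nat.card (H ⊓ S j : Subgroup Γ) * a i j =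
      Nat.card (V i ⊓ S j : Subgroup Γ) := by
    intro i hi j
    exact card_mul_rel (inf_le_inf_right (S j) (hH i hi))
  have hcp : ∀ W : Subgroup Γ, 0 < Nat.card W := fun W => Nat.card_pos
  -- the section of the class `i`
  have hsec : ∀ i ∈ I, ∃ j < l, 2 * M ^ (l - j) ≤ a i j ∧ a i (j + 1) < 2 * M ^ (l - (j + 1)) := by
    intro i hi
    by_contra hcon
    push Not at hcon
    have hall : ∀ j ≤ l, 2 * M ^ (l - j) ≤ a i j := by
      intro j
      induction j with
      | zero =>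
        intro _
        have h1 := hacard i hi 0
        have h2 := hD i hi
        simp only [hS, derivedSeries_zero, inf_top_eq] at h1
        have h3 : (2 * M ^ l) * Nat.card H ≤ a i 0 * Nat.card H := by
          rw [mul_comm (a i 0)]
          exact h2.trans h1.ge
        exact Nat.le_of_mul_le_mul_right h3 (hcp H)
      | succ j ihj =>
        intro hj
        exact hcon j (by omega) (ihj (by omega))
    have h1 := hall l le_rfl
    have h2 : a i l = 1 := by
      have h3 := hacard i hi l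
      simp only [hS, hder, inf_bot_eq, Subgroup.card_bot] at h3
      omega
    rw [h2, Nat.sub_self, pow_zero] at h1
    omega
  choose! jj hjl hj1 hj2 using hsec
  -- pigeonhole
  have hMle : ∀ k, k ≤ l → 2 * M ^ k ≤ 2 * M ^ l := fun k hk =>
    Nat.mul_le_mul_left _ (Nat.pow_le_pow_right hM1 hk)
  obtain ⟨⟨j, e⟩, hje, hfib⟩ := Finset.exists_lt_card_fiber_of_mul_lt_card_of_maps_to
    (s := I) (t := range l ×ˢ range (2 * M ^ l)) (f := fun i => (jj i, Nat.log 2 (a i (jj i + 1))))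
    (n := K * K) (by
      intro i hi
      rw [Finset.mem_product, Finset.mem_range, Finset.mem_range]
      refine ⟨hjl i hi, ?_⟩
      calc Nat.log 2 (a i (jj i + 1)) ≤ a i (jj i + 1) := Nat.log_le_self _ _
        _ < 2 * M ^ (l - (jj i + 1)) := hj2 i hi
        _ ≤ 2 * M ^ l := hMle _ (by omega))
    (by rw [Finset.card_product, Finset.card_range, Finset.card_range]; exact hr)
  rw [Finset.mem_product, Finset.mem_range, Finset.mem_range] at hje
  have hjl' : j < l := hje.1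
  set I' : Finset ℕ := I.filter (fun i => (jj i, Nat.log 2 (a i (jj i + 1))) = (j, e)) with hI'
  have hI'I : I' ⊆ I := Finset.filter_subset _ _
  have hI'j : ∀ i ∈ I', jj i = j ∧ Nat.log 2 (a i (j + 1)) = e := by
    intro i hi
    have h1 := (Finset.mem_filter.mp hi).2
    have h2 : jj i = j := congrArg Prod.fst h1
    have h3 : Nat.log 2 (a i (jj i + 1)) = e := congrArg Prod.snd h1
    rw [h2] at h3
    exact ⟨h2, h3⟩
  set N : Subgroup Γ := derivedSeries Γ (j + 1) with hN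
  set Z : Subgroup Γ := derivedSeries Γ j with hZ
  have hNZ : N ≤ Z := derivedSeries_antitone Γ (Nat.le_succ j)
  have hNn : N.Normal := derivedSeries_normal Γ (j + 1)
  let π : Γ →* Γ ⧸ N := QuotientGroup.mk' N
  have hπs : Function.Surjective π := QuotientGroup.mk'_surjective N
  have hπk : π.ker = N := QuotientGroup.ker_mk' N
  have hcardW : ∀ W : Subgroup Γ, Nat.card (W ⊓ N : Subgroup Γ) * Nat.card (W.map π) =
      Nat.card W := by
    intro W
    have h2 := card_mul_rel (Γ := Γ) (H := W ⊓ N) (K := W) inf_le_left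
    rw [Subgroup.inf_relIndex_left] at h2
    rw [← Subgroup.relIndex_ker, hπk]
    exact h2
  have hinf : ∀ W : Subgroup Γ, W.map π ⊓ Z.map π = (W ⊓ Z).map π := by
    intro W
    apply le_antisymm
    · intro y hy
      obtain ⟨hy1, hy2⟩ := Subgroup.mem_inf.mp hy
      obtain ⟨w, hw, rfl⟩ := Subgroup.mem_map.mp hy1
      obtain ⟨z, hz, hzw⟩ := Subgroup.mem_map.mp hy2
      refine Subgroup.mem_map_of_mem π (Subgroup.mem_inf.mpr ⟨hw, ?_⟩)
      have h1 : z⁻¹ * w ∈ N := by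
        rw [← hπk, MonoidHom.mem_ker, map_mul, map_inv, hzw, inv_mul_cancel]
      have h2 := Z.mul_mem hz (hNZ h1)
      rwa [mul_inv_cancel_left] at h2
    · exact Subgroup.map_inf_le W Z π
  have hcardZ : ∀ W : Subgroup Γ, Nat.card (W ⊓ N : Subgroup Γ) *
      Nat.card (W.map π ⊓ Z.map π : Subgroup (Γ ⧸ N)) = Nat.card (W ⊓ Z : Subgroup Γ) := by
    intro W
    rw [hinf W, ← hcardW (W ⊓ Z)]
    congr 2
    rw [inf_assoc, inf_eq_right.mpr hNZ]
  have hcomm : ∀ x ∈ Z.map π, ∀ y ∈ Z.map π, x * y = y * x := by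
    intro x hx y hy
    obtain ⟨x', hx', rfl⟩ := Subgroup.mem_map.mp hx
    obtain ⟨y', hy', rfl⟩ := Subgroup.mem_map.mp hy
    have h1 := Subgroup.commutator_mem_commutator hx' hy'
    rw [hZ, ← derivedSeries_succ, ← hN, ← hπk, MonoidHom.mem_ker, map_commutatorElement] at h1
    exact commutatorElement_eq_one_iff_mul_comm.mp h1
  have hbig : ∀ i ∈ I', (φ (2 * 1) * farD K (φ (2 * 1) + 1) ^ (K - 1) + 1) *
      Nat.card (H.map π ⊓ Z.map π : Subgroup (Γ ⧸ N)) ≤
      Nat.card ((V i).map π ⊓ Z.map π : Subgroup (Γ ⧸ N)) := by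
    intro i hi
    have hiI := hI'I hi
    have e1 := hcardZ (V i)
    have e2 := hcardZ H
    have e3 := hacard i hiI j
    have e4 := hacard i hiI (j + 1)
    have f1 := hj1 i hiI
    have f2 := hj2 i hiI
    rw [(hI'j i hi).1] at f1 f2
    change Nat.card (H ⊓ Z : Subgroup Γ) * a i j = Nat.card (V i ⊓ Z : Subgroup Γ) at e3
    change Nat.card (H ⊓ N : Subgroup Γ) * a i (j + 1) = Nat.card (V i ⊓ N : Subgroup Γ) at e4
    have f3 : M * a i (j + 1) ≤ a i j := by
      have h1 : M * (2 * M ^ (l - (j + 1))) = 2 * M ^ (l - j) := by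
        have h2 : l - j = (l - (j + 1)) + 1 := by omega
        rw [h2, pow_succ]; ring
      calc M * a i (j + 1) ≤ M * (2 * M ^ (l - (j + 1))) := Nat.mul_le_mul_left _ f2.le
        _ = 2 * M ^ (l - j) := h1
        _ ≤ a i j := f1
    have hpos : 0 < a i (j + 1) * Nat.card (H ⊓ N : Subgroup Γ) := by
      rw [mul_comm, e4]; exact hcp _
    refine le_of_mul_le_mul_left ?_ hpos
    calc a i (j + 1) * Nat.card (H ⊓ N : Subgroup Γ) * (M *
          Nat.card (H.map π ⊓ Z.map π : Subgroup (Γ ⧸ N)))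
        = M * a i (j + 1) * (Nat.card (H ⊓ N : Subgroup Γ) *
          Nat.card (H.map π ⊓ Z.map π : Subgroup (Γ ⧸ N))) := by ring
      _ = M * a i (j + 1) * Nat.card (H ⊓ Z : Subgroup Γ) := by rw [e2]
      _ ≤ a i j * Nat.card (H ⊓ Z : Subgroup Γ) := Nat.mul_le_mul_right _ f3
      _ = Nat.card (V i ⊓ Z : Subgroup Γ) := by rw [mul_comm]; exact e3
      _ = Nat.card (V i ⊓ N : Subgroup Γ) *
          Nat.card ((V i).map π ⊓ Z.map π : Subgroup (Γ ⧸ N)) := e1.symm
      _ = a i (j + 1) * Nat.card (H ⊓ N : Subgroup Γ) *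
          Nat.card ((V i).map π ⊓ Z.map π : Subgroup (Γ ⧸ N)) := by
          rw [← e4, mul_comm (Nat.card (H ⊓ N : Subgroup Γ))]
  obtain ⟨X', J, s, R, n, ⟨x0, hx0⟩, hXH, hJI, hJc, hR, hφ, hX⟩ := abelian K hK
    (fun R => φ (2 * R)) (Γ ⧸ N) (H.map π) (Z.map π) (fun i => (V i).map π) I' hcomm
    (fun i hi => Subgroup.map_mono (hH i (hI'I hi))) hfib.le hbig
  obtain ⟨g0, hg0⟩ := hπs x0
  have he1 : 1 ≤ 2 ^ e := Nat.one_le_two_pow
  refine ⟨π ⁻¹' X', J, 2 ^ e * s, 2 * R, fun i => n i * a i (j + 1), ⟨g0, ?_⟩, ?_,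
    hJI.trans hI'I, hJc, by omega, ?_, ?_⟩
  · rw [Set.mem_preimage, hg0]; exact hx0
  · intro g hg h hh
    rw [Set.mem_preimage, map_mul]
    exact hXH _ hg _ (Subgroup.mem_map_of_mem π hh)
  · exact hφ.trans (Nat.le_mul_of_pos_left _ he1)
  · intro i hi
    obtain ⟨hlo, hup, hblk⟩ := hX i hi
    have hiI' := hJI hi
    have hiI := hI'I hiI'
    have e2 := hcardW H
    have e4 := hacard i hiI (j + 1)
    change Nat.card (H ⊓ N : Subgroup Γ) * a i (j + 1) = Nat.card (V i ⊓ N : Subgroup Γ) at e4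
    have hane : a i (j + 1) ≠ 0 := by
      intro h0
      rw [h0, mul_zero] at e4
      have := hcp (V i ⊓ N)
      omega
    have g1 : 2 ^ e ≤ a i (j + 1) := by
      rw [← (hI'j i hiI').2]
      exact Nat.pow_log_le_self 2 hane
    have g2 : a i (j + 1) ≤ 2 * 2 ^ e := by
      have h1 := Nat.lt_pow_succ_log_self (b := 2) (by norm_num) (a i (j + 1))
      rw [(hI'j i hiI').2] at h1
      have h2 : 2 ^ e.succ = 2 * 2 ^ e := by rw [pow_succ]; ring
      omega
    refine ⟨?_, ?_, fun g hg => ?_⟩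
    · calc 2 ^ e * s = s * 2 ^ e := mul_comm _ _
        _ ≤ n i * a i (j + 1) := Nat.mul_le_mul hlo g1
    · calc n i * a i (j + 1) ≤ (R * s) * (2 * 2 ^ e) := Nat.mul_le_mul hup g2
        _ = 2 * R * (2 ^ e * s) := by ring
    · rw [pull π (V i) X' g, hπk, ← e4, hblk (π g) hg, ← e2]
      ring

end Pool.Agent.Lib.MP_59be9f_co.Sym
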