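import Mathlib

set_option autoImplicit false
set_option linter.unusedSimpArgs false
set_option linter.unusedSectionVars false

namespace Pool.Agent.Lib.MP_59be9f_co.Sym

open Finset

/-- In a graph without 4-cycles two distinct vertices have at most one common neighbour. -/
lemma no_c4 {V : Type} (G : SimpleGraph V)
    (hC4 : ∀ (v : V) (p : G.Walk v v), p.IsCycle → p.length ≠ 4)
    {a a' b b' : V} (haa : a ≠ a') (hbb : b ≠ b') (h1 : G.Adj a b) (h2 : G.Adj a' b)
    (h3 : G.Adj a b') (h4 : G.Adj a' b') : False := by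
  let p : G.Walk a a := .cons h1 (.cons h2.symm (.cons h4 (.cons h3.symm .nil)))
  refine hC4 a p ?_ rfl
  have n1 := h1.ne
  have n2 := h2.ne
  have n3 := h3.ne
  have n4 := h4.ne
  rw [SimpleGraph.Walk.cons_isCycle_iff]
  constructor
  · simp [SimpleGraph.Walk.cons_isPath_iff, haa, hbb, haa.symm, hbb.symm, n1, n2, n3, n4, n1.symm,
      n2.symm, n3.symm, n4.symm]
  · simp [haa, hbb, haa.symm, hbb.symm, n1, n2, n3, n4, n1.symm,
      n2.symm, n3.symm, n4.symm]

section

variable {V Γ ι : Type} [DecidableEq V] [Group Γ] [MulAction Γ V] [DecidableEq Γ] [Fintype ι]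
  [DecidableEq ι]

/-- the base vertices: `a` for `none` and `b i` for `some i` -/
def base (a : V) (b : ι → V) : Option ι → V
  | none => a
  | some i => b i

/-- Greedy choice of `k` elements of one group. -/
lemma greedy (a : V) (b : ι → V) (U : Subgroup Γ) (m : ι) (P : Finset Γ) (hP : P.Nonempty)
    (hinj : ∀ o : Option ι, o ≠ some m → ∀ x ∈ U, ∀ y ∈ U,
      x • base a b o = y • base a b o → x • a = y • a)
    (hfin : {v : V | ∃ g ∈ U, g • a = v}.Finite) (K : ℕ)
    (hD : K * ((Fintype.card ι + 1) * (P.card * P.card)) < {v : V | ∃ g ∈ U, g • a = v}.ncard) :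
    ∀ k ≤ K, ∃ S : Finset Γ, S.card = k ∧ (∀ s ∈ S, s ∈ U) ∧
      ∀ s ∈ S, ∀ s' ∈ S, ∀ o : Option ι, o ≠ some m → ∀ p ∈ P, ∀ p' ∈ P,
        (p * s) • base a b o = (p' * s') • base a b o → s = s' := by
  classical
  intro k
  induction k with
  | zero => intro _; exact ⟨∅, by simp, by simp, by simp⟩
  | succ k ih =>
    intro hk
    obtain ⟨S, hcard, hSU, hS⟩ := ih (by omega)
    by_contra hcon
    push Not at hcon
    -- every element of `U` is bad
    have hbad : ∀ x ∈ U, ∃ t : Γ × (Option ι × (Γ × Γ)),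
        t ∈ S ×ˢ ((univ : Finset (Option ι)) ×ˢ (P ×ˢ P)) ∧ t.2.1 ≠ some m ∧
        (t.2.2.1 * x) • base a b t.2.1 = (t.2.2.2 * t.1) • base a b t.2.1 := by
      intro x hx
      by_contra hno
      push Not at hno
      have hno' : ∀ y ∈ S, ∀ o : Option ι, o ≠ some m → ∀ p ∈ P, ∀ p' ∈ P,
          (p * x) • base a b o ≠ (p' * y) • base a b o := by
        intro y hy o ho p hp p' hp'
        exact hno (y, (o, (p, p'))) (by simp [hy, hp, hp']) ho
      obtain ⟨p0, hp0⟩ := hP
      have hxS : x ∉ S := fun h => hno' x h none (by simp) p0 hp0 p0 hp0 rfl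
      obtain ⟨s, hs, s', hs', o, ho, p, hp, p', hp', he, hne⟩ := hcon (insert x S)
        (by rw [card_insert_of_notMem hxS, hcard])
        (by
          intro s hs
          rcases Finset.mem_insert.mp hs with rfl | hs
          · exact hx
          · exact hSU s hs)
      rcases Finset.mem_insert.mp hs with rfl | hs1 <;> rcases Finset.mem_insert.mp hs' with rfl | hs1'
      · exact hne rfl
      · exact hno' s' hs1' o ho p hp p' hp' he
      · exact hno' s hs1 o ho p' hp' p hp he.symm
      · exact hne (hS s hs1 s' hs1' o ho p hp p' hp' he)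
    choose! T hT1 hT2 hT3 using hbad
    have hg : ∀ v ∈ {v : V | ∃ g ∈ U, g • a = v}, ∃ g ∈ U, g • a = v := fun v hv => hv
    choose! g hgU hgv using hg
    have hle : {v : V | ∃ g ∈ U, g • a = v}.ncard ≤
        (((S ×ˢ ((univ : Finset (Option ι)) ×ˢ (P ×ˢ P)) :
          Finset (Γ × (Option ι × (Γ × Γ)))) : Set (Γ × (Option ι × (Γ × Γ))))).ncard := by
      refine Set.ncard_le_ncard_of_injOn (fun v => T (g v)) ?_ ?_ (Finset.finite_toSet _)
      · intro v hv
        exact Finset.mem_coe.mpr (hT1 _ (hgU v hv))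
      · intro v hv v' hv' he
        have he' : T (g v) = T (g v') := he
        have h1 := hT3 _ (hgU v hv)
        have h2 := hT3 _ (hgU v' hv')
        rw [← he'] at h2
        have h3 : g v • base a b (T (g v)).2.1 = g v' • base a b (T (g v)).2.1 := by
          have h4 : (T (g v)).2.2.1 • (g v • base a b (T (g v)).2.1) =
              (T (g v)).2.2.1 • (g v' • base a b (T (g v)).2.1) := by
            rw [← mul_smul, ← mul_smul, h1, h2]
          exact smul_left_cancel _ h4
        have h5 := hinj _ (hT2 _ (hgU v hv)) _ (hgU v hv) _ (hgU v' hv') h3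
        rw [hgv v hv, hgv v' hv'] at h5
        exact h5
    rw [Set.ncard_coe_finset, Finset.card_product, Finset.card_product, Finset.card_product,
      Finset.card_univ, Fintype.card_option, hcard] at hle
    have : k * ((Fintype.card ι + 1) * (P.card * P.card)) ≤
        K * ((Fintype.card ι + 1) * (P.card * P.card)) := Nat.mul_le_mul_right _ (by omega)
    omega

/-- The cube: a finite set of group elements. -/
lemma cube (a : V) (b : ι → V) (U : ι → Subgroup Γ) (K : ℕ) (hK : 1 ≤ K)
    (hfix : ∀ i, ∀ g ∈ U i, g • b i = b i)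
    (hcomm : ∀ i j, i ≠ j → ∀ g ∈ U i, ∀ h ∈ U j, g * h = h * g)
    (hinj : ∀ m : ι, ∀ o : Option ι, o ≠ some m → ∀ x ∈ U m, ∀ y ∈ U m,
      x • base a b o = y • base a b o → x • a = y • a)
    (htwo : ∀ i j : ι, i ≠ j → ∀ g h : Γ, g • b i = h • b i → g • b j = h • b j → g • a = h • a)
    (hfin : ∀ m, {v : V | ∃ g ∈ U m, g • a = v}.Finite)
    (hD : ∀ m, K * ((Fintype.card ι + 1) * (K ^ Fintype.card ι * K ^ Fintype.card ι)) <
      {v : V | ∃ g ∈ U m, g • a = v}.ncard) (T : Finset ι) :
    ∃ P : Finset Γ, P.Nonempty ∧ P.card ≤ K ^ T.card ∧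
      (∀ p ∈ P, ∀ j ∉ T, ∀ u ∈ U j, p * u = u * p) ∧
      (∀ o : Option ι, (∀ i ∈ T, o ≠ some i) → ∀ p ∈ P, ∀ p' ∈ P,
        p • base a b o = p' • base a b o → p = p') ∧
      (∀ i ∈ T, ∀ p ∈ P, K ≤ (P.filter (fun p' => p' • b i = p • b i)).card) ∧
      (∀ i j k : ι, i ≠ j → j ≠ k → i ≠ k → ∀ p ∈ P, ∀ p' ∈ P, ∀ p'' ∈ P,
        p • b i = p' • b i → p' • b j = p'' • b j → p'' • b k = p • b k → p = p') := by
  classical
  induction T using Finset.induction_on with
  | empty =>
    refine ⟨{1}, by simp, by simp, by simp, by simp, by simp, ?_⟩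
    intro i j k _ _ _ p hp p' hp' _ _ _ _ _
    rw [Finset.mem_singleton] at hp hp'
    rw [hp, hp']
  | insert m T hm ih =>
    obtain ⟨P, hPne, hPcard, hPcomm, hPinj, hPdeg, hPtri⟩ := ih
    have hTcard : T.card ≤ Fintype.card ι := Finset.card_le_univ T
    have hPle : P.card ≤ K ^ Fintype.card ι := hPcard.trans (Nat.pow_le_pow_right hK hTcard)
    obtain ⟨S, hScard, hSU, hS⟩ := greedy a b (U m) m P hPne (hinj m) (hfin m) K
      (lt_of_le_of_lt (Nat.mul_le_mul_left _ (Nat.mul_le_mul_left _ (Nat.mul_le_mul hPle hPle)))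
        (hD m)) K le_rfl
    have hSne : S.Nonempty := by
      rw [← Finset.card_pos]; omega
    -- basic rules
    have hps : ∀ p ∈ P, ∀ s ∈ S, p * s = s * p := fun p hp s hs => hPcomm p hp m hm s (hSU s hs)
    have hrule : ∀ p ∈ P, ∀ p' ∈ P, ∀ s ∈ S, ∀ s' ∈ S, ∀ o : Option ι, o ≠ some m →
        (p * s) • base a b o = (p' * s') • base a b o →
        s = s' ∧ p • base a b o = p' • base a b o := by
      intro p hp p' hp' s hs s' hs' o ho he
      have h1 := hS s hs s' hs' o ho p hp p' hp' he
      refine ⟨h1, ?_⟩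
      rw [← h1, hps p hp s hs, hps p' hp' s hs, mul_smul, mul_smul] at he
      exact smul_left_cancel _ he
    have hrulem : ∀ p ∈ P, ∀ p' ∈ P, ∀ s ∈ S, ∀ s' ∈ S,
        (p * s) • b m = (p' * s') • b m → p = p' := by
      intro p hp p' hp' s hs s' hs' he
      rw [mul_smul, mul_smul, hfix m s (hSU s hs), hfix m s' (hSU s' hs')] at he
      exact hPinj (some m) (fun i hi h => hm (by rw [Option.some.inj h]; exact hi)) p hp p' hp' he
    have hnone : ∀ p ∈ P, ∀ p' ∈ P, p • a = p' • a → p = p' := fun p hp p' hp' h =>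
      hPinj none (fun i _ => by simp) p hp p' hp' h
    have hinjmul : ∀ p ∈ P, ∀ p' ∈ P, ∀ s ∈ S, ∀ s' ∈ S, p * s = p' * s' → p = p' ∧ s = s' := by
      intro p hp p' hp' s hs s' hs' he
      have h1 := hrule p hp p' hp' s hs s' hs' none (by simp) (by rw [he])
      exact ⟨hnone p hp p' hp' h1.2, h1.1⟩
    refine ⟨(P ×ˢ S).image (fun x => x.1 * x.2), ?_, ?_, ?_, ?_, ?_, ?_⟩
    · exact (hPne.product hSne).image _
    · refine Finset.card_image_le.trans ?_
      rw [Finset.card_product, hScard, Finset.card_insert_of_notMem hm, pow_succ]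
      exact Nat.mul_le_mul_right _ hPcard
    · intro q hq j hj u hu
      obtain ⟨⟨p, s⟩, hps', rfl⟩ := Finset.mem_image.mp hq
      obtain ⟨hp, hs⟩ := Finset.mem_product.mp hps'
      have hjT : j ∉ T := fun h => hj (Finset.mem_insert_of_mem h)
      have hjm : m ≠ j := fun h => hj (by rw [← h]; exact Finset.mem_insert_self _ _)
      change p * s * u = u * (p * s)
      rw [mul_assoc, hcomm m j hjm s (hSU s hs) u hu, ← mul_assoc, hPcomm p hp j hjT u hu, mul_assoc]
    · intro o ho q hq q' hq' he
      obtain ⟨⟨p, s⟩, hps', rfl⟩ := Finset.mem_image.mp hq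
      obtain ⟨hp, hs⟩ := Finset.mem_product.mp hps'
      obtain ⟨⟨p', s'⟩, hps'', rfl⟩ := Finset.mem_image.mp hq'
      obtain ⟨hp', hs'⟩ := Finset.mem_product.mp hps''
      have h1 := hrule p hp p' hp' s hs s' hs' o (ho m (Finset.mem_insert_self _ _)) he
      have h2 := hPinj o (fun i hi => ho i (Finset.mem_insert_of_mem hi)) p hp p' hp' h1.2
      change p * s = p' * s'
      rw [h2, h1.1]
    · intro i hi q hq
      obtain ⟨⟨p, s⟩, hps', rfl⟩ := Finset.mem_image.mp hq
      obtain ⟨hp, hs⟩ := Finset.mem_product.mp hps'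
      rcases Finset.mem_insert.mp hi with rfl | hiT
      · have hsub : S.image (fun s' => p * s') ⊆
            ((P ×ˢ S).image (fun x => x.1 * x.2)).filter
              (fun p' => p' • b i = ((fun x : Γ × Γ => x.1 * x.2) (p, s)) • b i) := by
          intro q hq
          obtain ⟨s', hs', rfl⟩ := Finset.mem_image.mp hq
          rw [Finset.mem_filter]
          refine ⟨Finset.mem_image.mpr ⟨(p, s'), Finset.mem_product.mpr ⟨hp, hs'⟩, rfl⟩, ?_⟩
          change (p * s') • b i = (p * s) • b i
          rw [mul_smul, mul_smul, hfix i s (hSU s hs), hfix i s' (hSU s' hs')]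
        have h1 := Finset.card_le_card hsub
        rw [Finset.card_image_of_injective _ (mul_right_injective p), hScard] at h1
        exact h1
      · have him : some i ≠ some m := fun h => hm (by rw [← Option.some.inj h]; exact hiT)
        have hsub : (P.filter (fun p' => p' • b i = p • b i)).image (fun p' => p' * s) ⊆
            ((P ×ˢ S).image (fun x => x.1 * x.2)).filter
              (fun p' => p' • b i = ((fun x : Γ × Γ => x.1 * x.2) (p, s)) • b i) := by
          intro q hq
          obtain ⟨p', hp', rfl⟩ := Finset.mem_image.mp hq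
          rw [Finset.mem_filter] at hp' ⊢
          refine ⟨Finset.mem_image.mpr ⟨(p', s), Finset.mem_product.mpr ⟨hp'.1, hs⟩, rfl⟩, ?_⟩
          change (p' * s) • b i = (p * s) • b i
          rw [hps p' hp'.1 s hs, hps p hp s hs, mul_smul, mul_smul, hp'.2]
        have h1 := Finset.card_le_card hsub
        rw [Finset.card_image_of_injective _ (mul_left_injective s)] at h1
        exact (hPdeg i hiT p hp).trans h1
    · intro i j k hij hjk hik q hq q' hq' q'' hq'' e1 e2 e3
      obtain ⟨⟨p, s⟩, h0, rfl⟩ := Finset.mem_image.mp hq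
      obtain ⟨hp, hs⟩ := Finset.mem_product.mp h0
      obtain ⟨⟨p', s'⟩, h0', rfl⟩ := Finset.mem_image.mp hq'
      obtain ⟨hp', hs'⟩ := Finset.mem_product.mp h0'
      obtain ⟨⟨p'', s''⟩, h0'', rfl⟩ := Finset.mem_image.mp hq''
      obtain ⟨hp'', hs''⟩ := Finset.mem_product.mp h0''
      simp only at hp hs hp' hs' hp'' hs''
      change (p * s) • b i = (p' * s') • b i at e1
      change (p' * s') • b j = (p'' * s'') • b j at e2
      change (p'' * s'') • b k = (p * s) • b k at e3
      change p * s = p' * s'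
      have R1 : i ≠ m → s = s' ∧ p • b i = p' • b i := fun h =>
        hrule p hp p' hp' s hs s' hs' (some i) (fun h' => h (Option.some.inj h')) e1
      have R2 : j ≠ m → s' = s'' ∧ p' • b j = p'' • b j := fun h =>
        hrule p' hp' p'' hp'' s' hs' s'' hs'' (some j) (fun h' => h (Option.some.inj h')) e2
      have R3 : k ≠ m → s'' = s ∧ p'' • b k = p • b k := fun h =>
        hrule p'' hp'' p hp s'' hs'' s hs (some k) (fun h' => h (Option.some.inj h')) e3
      by_cases him : i = m
      · have hjm : j ≠ m := fun h => hij (him.trans h.symm)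
        have hkm : k ≠ m := fun h => hik (him.trans h.symm)
        rw [him] at e1
        have h1 := hrulem p hp p' hp' s hs s' hs' e1
        rw [h1, ((R2 hjm).1.trans (R3 hkm).1)]
      · by_cases hjm : j = m
        · have hkm : k ≠ m := fun h => hjk (hjm.trans h.symm)
          rw [hjm] at e2
          have h1 := hrulem p' hp' p'' hp'' s' hs' s'' hs'' e2
          have h2 := R3 hkm
          rw [← h1] at h2
          have h3 := htwo i k hik p p' (R1 him).2 h2.2.symm
          rw [hnone p hp p' hp' h3, (R1 him).1]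
        · by_cases hkm : k = m
          · rw [hkm] at e3
            have h1 := hrulem p'' hp'' p hp s'' hs'' s hs e3
            have h2 := R2 hjm
            rw [h1] at h2
            have h3 := htwo i j hij p p' (R1 him).2 h2.2.symm
            rw [hnone p hp p' hp' h3, (R1 him).1]
          · have h1 := hPtri i j k hij hjk hik p hp p' hp' p'' hp'' (R1 him).2 (R2 hjm).2 (R3 hkm).2
            rw [h1, (R1 him).1]

end

end Pool.Agent.Lib.MP_59be9f_co.Sym
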