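import Mathlib
import Pool.Agent.Lib.MP_59be9f_co.Girth
import Pool.Agent.Lib.MP_59be9f_co.Grp3
import Pool.Agent.Lib.MP_59be9f_co.Sym

set_option autoImplicit false
set_option linter.unusedSimpArgs false
set_option linter.unusedSectionVars false
set_option linter.deprecated false
set_option linter.style.haveILetI false

namespace Pool.Agent.Lib.MP_59be9f_co.Sym

open Finset

/-- The size needed. -/
def phi (m L R : ℕ) : ℕ := L * (2 * m * m ^ 2) ^ (L + 2) * R ^ L + 2 * m * m

/-- A set of vertices of `A` with comparable degrees into `m` classes gives the subgraph. -/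
theorem comparable_girth (m L s R : ℕ) (hm : 1 ≤ m) (hL : 1 ≤ L) (hR : 1 ≤ R)
    (hbd : phi m L R ≤ s)
    (V : Type) [Fintype V] [DecidableEq V]
    (G : SimpleGraph V) [DecidableRel G.Adj] (A : Finset V) (r : ℕ) (f : V → Fin r)
    (hbip : ∀ u v : V, G.Adj u v → (u ∈ A ↔ v ∉ A))
    (hnb : ∀ a ∈ A, ∀ i : Fin r, ∃! b : V, b ∉ A ∧ f b = i ∧ G.Adj a b)
    (hC4 : ∀ (v : V) (p : G.Walk v v), p.IsCycle → p.length ≠ 4)
    (A' : Finset V) (hA' : A' ⊆ A) (hne : A'.Nonempty) (idx : ℕ → Fin r) (n : ℕ → ℕ)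
    (hidx : ∀ i < m, ∀ k < m, idx i = idx k → i = k)
    (hn : ∀ i < m, s ≤ n i ∧ n i ≤ R * s)
    (hdeg : ∀ a ∈ A', ∀ i < m, ∀ b : V, G.Adj a b → f b = idx i →
      (A'.filter (fun x => G.Adj x b)).card = n i) :
    ∃ S : Finset V, S.Nonempty ∧
      (∀ v ∈ S, m ≤ (S.filter (fun w => G.Adj v w)).card) ∧
      ∀ (v : V) (p : G.Walk v v), p.IsCycle → (∀ w ∈ p.support, w ∈ S) →
        2 * L + 4 < p.length := by
  classical
  have hex0 : ∀ (i : ℕ) (a : {x // x ∈ A'}), ∃ b : V, b ∉ A ∧ f b = idx i ∧ G.Adj a.1 b :=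
    fun i a => (hnb a.1 (hA' a.2) (idx i)).exists
  choose c hcA hcf hcadj using hex0
  have huniq : ∀ x ∈ A, ∀ y z : V, G.Adj x y → G.Adj x z → f y = f z → y = z := by
    intro x hx y z hy hz hf
    have hyA : y ∉ A := (hbip x y hy).mp hx
    have hzA : z ∉ A := (hbip x z hz).mp hx
    exact (hnb x hx (f z)).unique ⟨hyA, hf, hy⟩ ⟨hzA, rfl, hz⟩
  haveI : Nonempty {x // x ∈ A'} := by
    obtain ⟨x, hx⟩ := hne
    exact ⟨⟨x, hx⟩⟩
  have hblk : ∀ (i : ℕ) (a : {x // x ∈ A'}),
      (univ.filter (fun a' : {x // x ∈ A'} => c i a' = c i a)).card =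
      (A'.filter (fun x => G.Adj x (c i a))).card := by
    intro i a
    rw [← Finset.card_map (Function.Embedding.subtype _)]
    congr 1
    ext v
    simp only [Finset.mem_map, Finset.mem_filter, Finset.mem_univ, true_and,
      Function.Embedding.subtype_apply]
    constructor
    · rintro ⟨a', h, rfl⟩
      refine ⟨a'.2, ?_⟩
      rw [← h]
      exact hcadj i a'
    · rintro ⟨hv, h⟩
      refine ⟨⟨v, hv⟩, ?_, rfl⟩
      exact huniq v (hA' hv) _ _ (hcadj i ⟨v, hv⟩) h (by rw [hcf, hcf])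
  have hms : 2 * m * m ≤ s := by unfold phi at hbd; omega
  obtain ⟨X, ⟨x0, hx0⟩, hXdeg, hXbad⟩ := core_girth (α := {x // x ∈ A'}) (β := V) L m m s (R * s)
    c n
    (fun i hi a => by
      rw [hblk]; exact hdeg a.1 a.2 i hi (c i a) (hcadj i a) (hcf i a))
    (fun i hi => (hn i hi).1) (fun i hi => (hn i hi).2)
    (by
      intro i hi k hk hik a a' haa h1 h2
      refine no_c4 G hC4 (a := a.1) (a' := a'.1) (b := c i a) (b' := c k a)
        (fun h => haa (Subtype.ext h)) ?_ (hcadj i a) ?_ (hcadj k a) ?_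
      · intro h
        have := congrArg f h
        rw [hcf, hcf] at this
        exact hik (hidx i hi k hk this)
      · rw [h1]; exact hcadj i a'
      · rw [h2]; exact hcadj k a')
    hm hm hms
    (by
      intro k hk
      have hm2 : 1 ≤ 2 * m * m ^ 2 := Nat.one_le_iff_ne_zero.2 (by positivity)
      have h1 : L * (2 * m * m ^ 2) ^ (k + 3) * R ^ (k + 1) ≤ s := by
        refine le_trans (Nat.mul_le_mul (Nat.mul_le_mul_left _
          (Nat.pow_le_pow_right hm2 (show k + 3 ≤ L + 2 by omega)))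
          (Nat.pow_le_pow_right hR (show k + 1 ≤ L by omega))) ?_
        unfold phi at hbd
        omega
      calc L * (2 * m * m ^ 2) ^ (k + 3) * (R * s) ^ (k + 1)
          = (L * (2 * m * m ^ 2) ^ (k + 3) * R ^ (k + 1)) * s ^ (k + 1) := by
            rw [mul_pow]; ring
        _ ≤ s * s ^ (k + 1) := Nat.mul_le_mul_right _ h1
        _ = s ^ (k + 2) := by rw [pow_succ s (k + 1), mul_comm])
  set S : Finset V := univ.filter (fun v => (∃ a ∈ X, a.1 = v) ∨ ∃ a ∈ X, ∃ i < m, c i a = v)
    with hS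
  have hSX : ∀ a ∈ X, a.1 ∈ S := fun a ha => by
    rw [hS, Finset.mem_filter]; exact ⟨Finset.mem_univ _, Or.inl ⟨a, ha, rfl⟩⟩
  have hSc : ∀ a ∈ X, ∀ i < m, c i a ∈ S := fun a ha i hi => by
    rw [hS, Finset.mem_filter]; exact ⟨Finset.mem_univ _, Or.inr ⟨a, ha, i, hi, rfl⟩⟩
  have hSA' : ∀ v ∈ S, v ∈ A → v ∈ A' := by
    intro v hvS hv
    rw [hS, Finset.mem_filter] at hvS
    rcases hvS.2 with ⟨a, ha, rfl⟩ | ⟨a, ha, i, hi, rfl⟩
    · exact a.2
    · exact absurd hv (hcA i a)
  have hSX' : ∀ v ∈ S, ∀ hv : v ∈ A', (⟨v, hv⟩ : {x // x ∈ A'}) ∈ X := by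
    intro v hvS hv
    rw [hS, Finset.mem_filter] at hvS
    rcases hvS.2 with ⟨a, ha, rfl⟩ | ⟨a, ha, i, hi, rfl⟩
    · exact ha
    · exact absurd (hA' hv) (hcA i a)
  have hSB : ∀ v ∈ S, v ∉ A → ∃ i < m, f v = idx i := by
    intro v hvS hv
    rw [hS, Finset.mem_filter] at hvS
    rcases hvS.2 with ⟨a, ha, rfl⟩ | ⟨a, ha, i, hi, rfl⟩
    · exact absurd (hA' a.2) hv
    · exact ⟨i, hi, hcf i a⟩
  have key : ∀ (u : {x // x ∈ A'}) (w : V) (q : ℕ), G.Adj u.1 w → f w = idx q → w = c q u := by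
    intro u w q huw hfw
    exact huniq u.1 (hA' u.2) _ _ huw (hcadj q u) (by rw [hfw, hcf])
  refine ⟨S, ⟨x0.1, hSX x0 hx0⟩, ?_, ?_⟩
  · intro v hv
    have hv' := hv
    rw [hS, Finset.mem_filter] at hv'
    rcases hv'.2 with ⟨a, ha, rfl⟩ | ⟨a, ha, i, hi, rfl⟩
    · have hsub : (range m).image (fun i => c i a) ⊆ S.filter (fun w => G.Adj a.1 w) := by
        intro w hw
        obtain ⟨i, hi, rfl⟩ := Finset.mem_image.mp hw
        rw [Finset.mem_filter]
        exact ⟨hSc a ha i (Finset.mem_range.mp hi), hcadj i a⟩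
      have hcard : ((range m).image (fun i => c i a)).card = m := by
        rw [Finset.card_image_of_injOn, Finset.card_range]
        intro i hi k hk h
        have h1 := congrArg f h
        simp only [hcf] at h1
        exact hidx i (by simpa using hi) k (by simpa using hk) h1
      have := Finset.card_le_card hsub
      omega
    · have hsub : (X.filter (fun a' => c i a' = c i a)).map (Function.Embedding.subtype _) ⊆
          S.filter (fun w => G.Adj (c i a) w) := by
        intro w hw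
        simp only [Finset.mem_map, Finset.mem_filter, Function.Embedding.subtype_apply] at hw
        obtain ⟨a', ⟨ha', h⟩, rfl⟩ := hw
        rw [Finset.mem_filter]
        refine ⟨hSX a' ha', ?_⟩
        rw [← h]
        exact (hcadj i a').symm
      have := Finset.card_le_card hsub
      rw [Finset.card_map] at this
      have h2 := hXdeg a ha i hi
      omega
  · intro v p hp hsup
    by_contra hlen
    push Not at hlen
    have hl3 : 3 ≤ p.length := hp.three_le_length
    set len := p.length with hlendef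
    let w : ℕ → V := fun i => p.getVert (i % len)
    have hw : ∀ i, w i = p.getVert (i % len) := fun i => rfl
    have hmemw : ∀ i, w i ∈ S := fun i => hsup _ (p.getVert_mem_support _)
    have hper : ∀ i, w (i + len) = w i := fun i => by rw [hw, hw, Nat.add_mod_right]
    have hadjw : ∀ i, G.Adj (w i) (w (i + 1)) := by
      intro i
      rw [hw, hw]
      have h1 : i % len < len := Nat.mod_lt _ (by omega)
      have h2 := p.adj_getVert_succ (i := i % len) (by omega)
      rcases Nat.lt_or_ge (i % len + 1) len with h3 | h3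
      · have h4 : (i + 1) % len = i % len + 1 := by
          rw [Nat.add_mod, Nat.mod_eq_of_lt (show 1 < len by omega), Nat.mod_eq_of_lt h3]
        rw [h4]
        exact h2
      · have h4 : i % len + 1 = len := by omega
        have h5 : (i + 1) % len = 0 := by
          rw [Nat.add_mod, Nat.mod_eq_of_lt (show 1 < len by omega), h4, Nat.mod_self]
        rw [h4] at h2
        rw [h5, p.getVert_zero]
        rw [hlendef, p.getVert_length] at h2
        exact h2
    have hinjw : ∀ i j, w i = w j → i % len = j % len := by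
      intro i j h
      have h1 : i % len < len := Nat.mod_lt _ (by omega)
      have h2 : j % len < len := Nat.mod_lt _ (by omega)
      refine hp.getVert_injOn' ?_ ?_ h
      · simp only [Set.mem_ofPred_eq]; omega
      · simp only [Set.mem_ofPred_eq]; omega
    obtain ⟨o, ho1, hoA⟩ : ∃ o, o ≤ 1 ∧ w o ∈ A := by
      by_cases h0 : w 0 ∈ A
      · exact ⟨0, by omega, h0⟩
      · exact ⟨1, le_rfl, (hbip _ _ (hadjw 0).symm).mpr h0⟩
    have halt : ∀ i, w (o + 2 * i) ∈ A ∧ w (o + 2 * i + 1) ∉ A := by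
      intro i
      induction i with
      | zero => exact ⟨hoA, (hbip _ _ (hadjw o)).mp hoA⟩
      | succ i ih =>
        have h1 : w (o + 2 * (i + 1)) ∈ A := (hbip _ _ (hadjw (o + 2 * i + 1)).symm).mpr ih.2
        exact ⟨h1, (hbip _ _ (hadjw _)).mp h1⟩
    obtain ⟨q, hq⟩ : ∃ q, len = 2 * q := by
      rcases Nat.even_or_odd' len with ⟨q, hq | hq⟩
      · exact ⟨q, hq⟩
      · exfalso
        have h1 := (halt q).2
        have h2 : o + 2 * q + 1 = o + len := by omega
        rw [h2, hper] at h1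
        exact h1 hoA
    have hq4 : len ≠ 4 := hC4 v p hp
    obtain ⟨k, hk⟩ : ∃ k, q = k + 3 := ⟨q - 3, by omega⟩
    have hlk : len = 2 * k + 6 := by omega
    have hkL : k < L := by omega
    have hlab : ∀ i, ∃ l < m, f (w (o + 2 * i + 1)) = idx l := fun i =>
      hSB _ (hmemw _) (halt i).2
    choose lb hlb1 hlb2 using hlab
    have hA'w : ∀ i, w (o + 2 * i) ∈ A' := fun i => hSA' _ (hmemw _) (halt i).1
    let a : Fin (k + 3) → {x // x ∈ A'} := fun t => ⟨w (o + 2 * t.val), hA'w t.val⟩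
    have hb1 : ∀ i, w (o + 2 * i + 1) = c (lb i) ⟨w (o + 2 * i), hA'w i⟩ := fun i =>
      key ⟨w (o + 2 * i), hA'w i⟩ _ _ (hadjw _) (hlb2 i)
    have hb2 : ∀ i, w (o + 2 * i + 1) = c (lb i) ⟨w (o + 2 * (i + 1)), hA'w (i + 1)⟩ :=
      fun i => key ⟨w (o + 2 * (i + 1)), hA'w (i + 1)⟩ _ _ (hadjw (o + 2 * i + 1)).symm (hlb2 i)
    refine hXbad k hkL a ?_ fun t => hSX' _ (hmemw _) (hA'w t.val)
    rw [bad, Finset.mem_filter]
    refine ⟨Finset.mem_univ _, ?_, fun t => ⟨lb t.val, hlb1 t.val⟩, ?_, ?_, ?_⟩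
    · intro t t' h
      have h1 := hinjw _ _ (congrArg Subtype.val h)
      have ht := t.isLt
      have ht' := t'.isLt
      rw [Nat.mod_eq_of_lt (by omega), Nat.mod_eq_of_lt (by omega)] at h1
      exact Fin.ext (by omega)
    · intro h
      have h1 : lb (k + 1) = lb (k + 2) := by
        have := congrArg Fin.val h
        simpa using this
      have h2 := hb2 (k + 1)
      have h3 := hb1 (k + 2)
      rw [h1] at h2
      have h4 := hinjw _ _ (h2.trans h3.symm)
      rcases (by omega : o = 0 ∨ o = 1) with h5 | h5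
      · subst h5
        rw [Nat.mod_eq_of_lt (by omega), Nat.mod_eq_of_lt (by omega)] at h4
        omega
      · subst h5
        have h6 : 1 + 2 * (k + 2) + 1 = len := by omega
        rw [Nat.mod_eq_of_lt (by omega), h6, Nat.mod_self] at h4
        omega
    · intro t
      exact (hb1 t.val).symm.trans (hb2 t.val)
    · have h1 : w (o + 2 * (k + 2 + 1)) = w (o + 2 * 0) := by
        have : o + 2 * (k + 2 + 1) = o + 2 * 0 + len := by omega
        rw [this, hper]
      have h2 := hb2 (k + 2)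
      have h3 := hb1 (k + 2)
      have h4 : (⟨w (o + 2 * (k + 2 + 1)), hA'w (k + 2 + 1)⟩ : {x // x ∈ A'}) =
          ⟨w (o + 2 * 0), hA'w 0⟩ := Subtype.ext h1
      rw [h4] at h2
      exact h3.symm.trans h2

end Pool.Agent.Lib.MP_59be9f_co.Sym
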