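import Mathlib
import Pool.Agent.Lib.MP_59be9f_co.SolGirth

set_option autoImplicit false
set_option linter.unusedSimpArgs false
set_option linter.unusedSectionVars false
set_option linter.deprecated false

namespace Pool.Agent.Lib.MP_59be9f_co.Sym

open Finset

lemma count {Γ V : Type} [Group Γ] [Finite Γ] [MulAction Γ V] (a : V) (X : Set Γ)
    (hX : ∀ g ∈ X, ∀ h ∈ MulAction.stabilizer Γ a, g * h ∈ X) :
    X.ncard = ((fun g : Γ => g • a) '' X).ncard * Nat.card (MulAction.stabilizer Γ a) := by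
  classical
  have h1 : ∀ v ∈ (fun g : Γ => g • a) '' X, ∃ g ∈ X, g • a = v := fun v hv => hv
  choose! σ hσ1 hσ2 using h1
  have heq : X = (fun z : V × Γ => σ z.1 * z.2) ''
      (((fun g : Γ => g • a) '' X) ×ˢ ((MulAction.stabilizer Γ a : Subgroup Γ) : Set Γ)) := by
    ext h
    rw [Set.mem_image]
    constructor
    · intro hh
      have hv : h • a ∈ (fun g : Γ => g • a) '' X := ⟨h, hh, rfl⟩
      refine ⟨(h • a, (σ (h • a))⁻¹ * h), Set.mem_prod.mpr ⟨hv, ?_⟩, ?_⟩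
      · change (σ (h • a))⁻¹ * h ∈ MulAction.stabilizer Γ a
        rw [MulAction.mem_stabilizer_iff, mul_smul, inv_smul_eq_iff, hσ2 _ hv]
      · change σ (h • a) * ((σ (h • a))⁻¹ * h) = h
        rw [mul_inv_cancel_left]
    · rintro ⟨⟨v, z⟩, hvz, rfl⟩
      obtain ⟨hv, hz⟩ := Set.mem_prod.mp hvz
      exact hX _ (hσ1 v hv) z hz
  have hinj : Set.InjOn (fun z : V × Γ => σ z.1 * z.2)
      (((fun g : Γ => g • a) '' X) ×ˢ ((MulAction.stabilizer Γ a : Subgroup Γ) : Set Γ)) := by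
    rintro ⟨v, z⟩ hvz ⟨v', z'⟩ hvz' he
    obtain ⟨hv, hz⟩ := Set.mem_prod.mp hvz
    obtain ⟨hv', hz'⟩ := Set.mem_prod.mp hvz'
    have hz1 : z • a = a := MulAction.mem_stabilizer_iff.mp hz
    have hz1' : z' • a = a := MulAction.mem_stabilizer_iff.mp hz'
    have he' : σ v * z = σ v' * z' := he
    have h2 := congrArg (fun g : Γ => g • a) he'
    simp only [mul_smul] at h2
    rw [hz1, hz1', hσ2 v hv, hσ2 v' hv'] at h2
    rw [h2] at he'
    rw [h2, mul_left_cancel he']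
  have h3 : X.ncard = (((fun g : Γ => g • a) '' X) ×ˢ
      ((MulAction.stabilizer Γ a : Subgroup Γ) : Set Γ)).ncard := by
    conv_lhs => rw [heq]
    rw [Set.ncard_image_of_injOn hinj]
  rw [h3, Set.ncard_prod]
  rfl

lemma rel_stab {Γ V : Type} [Group Γ] [MulAction Γ V] (a : V) (K : Subgroup Γ) :
    (MulAction.stabilizer Γ a).relIndex K = {v : V | ∃ g : Γ, g ∈ K ∧ g • a = v}.ncard := by
  have h1 : (MulAction.stabilizer Γ a).subgroupOf K = MulAction.stabilizer K a := by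
    ext g
    rw [Subgroup.mem_subgroupOf, MulAction.mem_stabilizer_iff, MulAction.mem_stabilizer_iff]
    rfl
  rw [Subgroup.relIndex, h1, MulAction.index_stabilizer]
  congr 1
  ext v
  rw [MulAction.mem_orbit_iff]
  constructor
  · rintro ⟨g, hg⟩
    exact ⟨g.1, g.2, hg⟩
  · rintro ⟨g, hgK, hg⟩
    exact ⟨⟨g, hgK⟩, hg⟩

lemma const_bound (M Q l : ℕ) (hM : 1 ≤ M) :
    (l * (2 * M ^ l)) * Q < (2 * M * (2 * Q + 1)) ^ (l + 1) ∧
      2 * M ^ l ≤ (2 * M * (2 * Q + 1)) ^ (l + 1) := by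
  have h1 : 2 * M ≤ 2 * M * (2 * Q + 1) := Nat.le_mul_of_pos_right _ (by omega)
  have h2 : 2 * Q + 1 ≤ 2 * M * (2 * Q + 1) := Nat.le_mul_of_pos_left _ (by omega)
  have h3 : (2 * M) ^ l ≤ (2 * M * (2 * Q + 1)) ^ l := Nat.pow_le_pow_left h1 l
  have hlt : l < 2 ^ l := Nat.lt_two_pow_self
  have hMl : 0 < M ^ l := Nat.pow_pos (by omega)
  have h2l : 0 < 2 ^ l := Nat.pow_pos (by omega)
  constructor
  · calc (l * (2 * M ^ l)) * Q = (l * M ^ l) * (2 * Q) := by ring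
      _ ≤ (2 ^ l * M ^ l) * (2 * Q) :=
          Nat.mul_le_mul_right _ (Nat.mul_le_mul_right _ hlt.le)
      _ < (2 ^ l * M ^ l) * (2 * Q + 1) :=
          Nat.mul_lt_mul_of_pos_left (by omega) (Nat.mul_pos h2l hMl)
      _ = (2 * M) ^ l * (2 * Q + 1) := by rw [mul_pow]
      _ ≤ (2 * M * (2 * Q + 1)) ^ l * (2 * M * (2 * Q + 1)) := Nat.mul_le_mul h3 h2
      _ = (2 * M * (2 * Q + 1)) ^ (l + 1) := by rw [pow_succ]
  · calc 2 * M ^ l ≤ 2 * (2 * M) ^ l :=
          Nat.mul_le_mul_left _ (Nat.pow_le_pow_left (by omega) l)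
      _ ≤ (2 * M * (2 * Q + 1)) * (2 * M * (2 * Q + 1)) ^ l :=
          Nat.mul_le_mul (by nlinarith) h3
      _ = (2 * M * (2 * Q + 1)) ^ (l + 1) := by rw [pow_succ]; ring

theorem local_finite (d g : ℕ) : ∃ C : ℕ, 1 ≤ C ∧ ∀ (l : ℕ) (V : Type) [Fintype V] [DecidableEq V]
    (G : SimpleGraph V) [DecidableRel G.Adj] (A : Finset V) (r : ℕ) (f : V → Fin r)
    (_hbip : ∀ u v : V, G.Adj u v → (u ∈ A ↔ v ∉ A))
    (_hnb : ∀ a ∈ A, ∀ i : Fin r, ∃! b : V, b ∉ A ∧ f b = i ∧ G.Adj a b)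
    (_hC4 : ∀ (v : V) (p : G.Walk v v), p.IsCycle → p.length ≠ 4)
    (Γ : Type) [Group Γ] [Finite Γ] [MulAction Γ V]
    (_hder : derivedSeries Γ l = ⊥)
    (_hadj : ∀ (g : Γ) (u v : V), G.Adj u v → G.Adj (g • u) (g • v))
    (_hcls : ∀ (g : Γ) (v : V), v ∉ A → g • v ∉ A ∧ f (g • v) = f v)
    (a : V) (_ha : a ∈ A) (B : Finset V) (_hB : ∀ b ∈ B, G.Adj a b) (_hBc : C ^ (l + 1) ≤ B.card)
    (_horb : ∀ b ∈ B, C ^ (l + 1) ≤ {v : V | ∃ g : Γ, g • b = b ∧ g • a = v}.ncard),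
    ∃ S : Finset V, S.Nonempty ∧
      (∀ v ∈ S, d < (S.filter (fun w => G.Adj v w)).card) ∧
      ∀ (v : V) (p : G.Walk v v), p.IsCycle → (∀ w ∈ p.support, w ∈ S) → g < p.length := by
  classical
  set φ : ℕ → ℕ := phi (d + 2) (g + 1) with hφdef
  set M : ℕ := bigM (d + 2) φ with hM
  have hM1 : 1 ≤ M := by rw [hM]; unfold bigM; omega
  refine ⟨2 * M * (2 * ((d + 2) * (d + 2)) + 1), Nat.mul_pos (by omega) (by omega), ?_⟩
  intro l V _ _ G _ A r f hbip hnb hC4 Γ _ _ _ hder hadj hcls a ha B hB hBc horb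
  obtain ⟨hc1, hc2⟩ := const_bound M ((d + 2) * (d + 2)) l hM1
  have : Nonempty V := ⟨a⟩
  have huniq : ∀ x ∈ A, ∀ y z : V, G.Adj x y → G.Adj x z → f y = f z → y = z := by
    intro x hx y z hy hz hf
    have hyA : y ∉ A := (hbip x y hy).mp hx
    have hzA : z ∉ A := (hbip x z hz).mp hx
    exact (hnb x hx (f z)).unique ⟨hyA, hf, hy⟩ ⟨hzA, rfl, hz⟩
  have hBA : ∀ b ∈ B, b ∉ A := fun b hb => (hbip a b (hB b hb)).mp ha
  set I : Finset ℕ := B.image (fun b => (f b : ℕ)) with hI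
  have hIc : I.card = B.card := by
    rw [hI, Finset.card_image_of_injOn]
    intro b hb b' hb' he
    exact huniq a ha b b' (hB b (Finset.mem_coe.mp hb)) (hB b' (Finset.mem_coe.mp hb'))
      (Fin.ext he)
  have hβ : ∀ i ∈ I, ∃ b ∈ B, (f b : ℕ) = i := fun i hi => Finset.mem_image.mp hi
  choose! β hβ1 hβ2 using hβ
  have hgab : ∀ (g : Γ) (b : V), b ∈ B → G.Adj (g • a) (g • b) := fun g b hb =>
    hadj g a b (hB b hb)
  have hgbA : ∀ (g : Γ) (b : V), b ∈ B → g • b ∉ A := fun g b hb => (hcls g b (hBA b hb)).1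
  have hgbf : ∀ (g : Γ) (b : V), b ∈ B → f (g • b) = f b := fun g b hb =>
    (hcls g b (hBA b hb)).2
  have hHV : ∀ i ∈ I, MulAction.stabilizer Γ a ≤ MulAction.stabilizer Γ (β i) := by
    intro i hi g hg
    rw [MulAction.mem_stabilizer_iff] at hg ⊢
    have h1 := hgab g (β i) (hβ1 i hi)
    rw [hg] at h1
    exact huniq a ha _ _ h1 (hB _ (hβ1 i hi)) (hgbf g _ (hβ1 i hi))
  obtain ⟨X, J, s, R, n, ⟨g0, hg0⟩, hXH, hJI, hJc, hR, hφ, hX⟩ := solvE (d + 2) (by omega) φ l Γ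
    (MulAction.stabilizer Γ a) (fun i => MulAction.stabilizer Γ (β i)) I hder hHV
    (by rw [hIc]; exact lt_of_lt_of_le hc1 hBc)
    (by
      intro i hi
      have h1 := card_mul_rel (hHV i hi)
      rw [rel_stab] at h1
      have h2 := horb (β i) (hβ1 i hi)
      have h3 : {v : V | ∃ g : Γ, g ∈ MulAction.stabilizer Γ (β i) ∧ g • a = v} =
          {v : V | ∃ g : Γ, g • β i = β i ∧ g • a = v} := by
        ext v
        simp only [MulAction.mem_stabilizer_iff, Set.mem_ofPred_eq]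
      rw [h3] at h1
      rw [← h1, mul_comm]
      exact Nat.mul_le_mul_left _ (hc2.trans h2))
  -- enumerate `J`
  have hen : ∃ jj : ℕ → ℕ, (∀ i < d + 2, jj i ∈ J) ∧
      ∀ i < d + 2, ∀ k < d + 2, jj i = jj k → i = k := by
    let e := J.equivFinOfCardEq hJc
    refine ⟨fun i => if h : i < d + 2 then ((e.symm ⟨i, h⟩ : J) : ℕ) else 0, ?_, ?_⟩
    · intro i hi
      simp only [dif_pos hi]
      exact (e.symm ⟨i, hi⟩).2
    · intro i hi k hk he
      simp only [dif_pos hi, dif_pos hk] at he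
      have h1 := e.symm.injective (Subtype.ext he)
      exact Fin.mk.inj_iff.mp h1
  obtain ⟨jj, hjj, hjjinj⟩ := hen
  have hjI : ∀ i < d + 2, jj i ∈ I := fun i hi => hJI (hjj i hi)
  have hgaA : ∀ g : Γ, g • a ∈ A := by
    intro g
    have h0 := hβ1 _ (hjI 0 (by omega))
    exact (hbip _ _ (hgab g _ h0)).mpr (hgbA g _ h0)
  set A' : Finset V := univ.filter (fun v => ∃ g ∈ X, g • a = v) with hA'
  obtain ⟨S, hSne, hSdeg, hScyc⟩ : ∃ S : Finset V, S.Nonempty ∧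
      (∀ v ∈ S, d + 2 ≤ (S.filter (fun w => G.Adj v w)).card) ∧
      ∀ (v : V) (p : G.Walk v v), p.IsCycle → (∀ w ∈ p.support, w ∈ S) →
        2 * (g + 1) + 4 < p.length := by
   refine comparable_girth (d + 2) (g + 1) s R (by omega) (by omega) hR hφ V G A r f hbip hnb hC4
    A' ?_ ?_ (fun i => f (β (jj i))) (fun i => n (jj i)) ?_ ?_ ?_
   · intro v hv
     obtain ⟨γ, -, rfl⟩ := (Finset.mem_filter.mp hv).2
     exact hgaA γ
   · exact ⟨g0 • a, Finset.mem_filter.mpr ⟨Finset.mem_univ _, g0, hg0, rfl⟩⟩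
   · intro i hi k hk he
     have h1 := congrArg Fin.val he
     rw [hβ2 _ (hjI i hi), hβ2 _ (hjI k hk)] at h1
     exact hjjinj i hi k hk h1
   · intro i hi
     exact ⟨(hX (jj i) (hjj i hi)).1, (hX (jj i) (hjj i hi)).2.1⟩
   · intro x hx i hi b hxb hfb
     obtain ⟨γ, hg, rfl⟩ := (Finset.mem_filter.mp hx).2
     have hbB := hβ1 _ (hjI i hi)
     have hb : b = γ • β (jj i) := huniq (γ • a) (hgaA γ) _ _ hxb (hgab γ _ hbB)
      (by rw [hfb, hgbf γ _ hbB])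
     have hblk := (hX (jj i) (hjj i hi)).2.2 γ hg
     have hinv : ∀ h ∈ blk X (MulAction.stabilizer Γ (β (jj i))) γ,
        ∀ η ∈ MulAction.stabilizer Γ a, h * η ∈ blk X (MulAction.stabilizer Γ (β (jj i))) γ := by
      rintro h ⟨hh, he⟩ η hη
      refine ⟨hXH h hh η hη, ?_⟩
      rw [← mul_assoc]
      exact Subgroup.mul_mem _ he (hHV _ (hjI i hi) hη)
     have hc := count a _ hinv
     have himg : (fun γ : Γ => γ • a) '' (blk X (MulAction.stabilizer Γ (β (jj i))) γ) =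
        ((A'.filter (fun x => G.Adj x b) : Finset V) : Set V) := by
      ext v
      rw [Set.mem_image, Finset.mem_coe, Finset.mem_filter]
      constructor
      · rintro ⟨h, ⟨hh, he⟩, rfl⟩
        refine ⟨Finset.mem_filter.mpr ⟨Finset.mem_univ _, h, hh, rfl⟩, ?_⟩
        have h1 : h • β (jj i) = γ • β (jj i) := by
          have := MulAction.mem_stabilizer_iff.mp he
          rw [mul_smul, inv_smul_eq_iff] at this
          exact this
        rw [hb, ← h1]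
        exact hgab h _ hbB
      · rintro ⟨hv, hvb⟩
        obtain ⟨h, hh, rfl⟩ := (Finset.mem_filter.mp hv).2
        refine ⟨h, ⟨hh, ?_⟩, rfl⟩
        rw [MulAction.mem_stabilizer_iff, mul_smul, inv_smul_eq_iff]
        have h1 : b = h • β (jj i) := huniq (h • a) (hgaA h) _ _ hvb (hgab h _ hbB)
          (by rw [hfb, hgbf h _ hbB])
        rw [← h1, hb]
     rw [himg, Set.ncard_coe_finset, hblk] at hc
     have hHp : 0 < Nat.card (MulAction.stabilizer Γ a) := Nat.card_pos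
     exact (Nat.eq_of_mul_eq_mul_right hHp hc).symm
  refine ⟨S, hSne, fun v hv => ?_, fun v p hp hsup => ?_⟩
  · have := hSdeg v hv
    omega
  · have := hScyc v p hp hsup
    omega

/-- The same without the assumption that the group is finite. -/
theorem local_solvable (d g : ℕ) : ∃ C : ℕ, 1 ≤ C ∧ ∀ (l : ℕ) (V : Type) [Fintype V] [DecidableEq V]
    (G : SimpleGraph V) [DecidableRel G.Adj] (A : Finset V) (r : ℕ) (f : V → Fin r)
    (_hbip : ∀ u v : V, G.Adj u v → (u ∈ A ↔ v ∉ A))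
    (_hnb : ∀ a ∈ A, ∀ i : Fin r, ∃! b : V, b ∉ A ∧ f b = i ∧ G.Adj a b)
    (_hC4 : ∀ (v : V) (p : G.Walk v v), p.IsCycle → p.length ≠ 4)
    (Γ : Type) [Group Γ] [MulAction Γ V]
    (_hder : derivedSeries Γ l = ⊥)
    (_hadj : ∀ (g : Γ) (u v : V), G.Adj u v → G.Adj (g • u) (g • v))
    (_hcls : ∀ (g : Γ) (v : V), v ∉ A → g • v ∉ A ∧ f (g • v) = f v)
    (a : V) (_ha : a ∈ A) (B : Finset V) (_hB : ∀ b ∈ B, G.Adj a b) (_hBc : C ^ (l + 1) ≤ B.card)
    (_horb : ∀ b ∈ B, C ^ (l + 1) ≤ {v : V | ∃ g : Γ, g • b = b ∧ g • a = v}.ncard),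
    ∃ S : Finset V, S.Nonempty ∧
      (∀ v ∈ S, d < (S.filter (fun w => G.Adj v w)).card) ∧
      ∀ (v : V) (p : G.Walk v v), p.IsCycle → (∀ w ∈ p.support, w ∈ S) → g < p.length := by
  classical
  obtain ⟨C, hC1, hfin⟩ := local_finite d g
  refine ⟨C, hC1, ?_⟩
  intro l V _ _ G _ A r f hbip hnb hC4 Γ _ _ hder hadj hcls a ha B hB hBc horb
  let ρ : Γ →* Equiv.Perm V := MulAction.toPermHom Γ V
  have hsm : ∀ σ : ρ.range, ∃ g : Γ, ∀ v : V, σ • v = g • v := by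
    rintro ⟨σ, g, rfl⟩
    exact ⟨g, fun v => rfl⟩
  have hsm' : ∀ g : Γ, ∃ σ : ρ.range, ∀ v : V, σ • v = g • v := fun g =>
    ⟨⟨ρ g, g, rfl⟩, fun v => rfl⟩
  have : Finite ρ.range := Subtype.finite
  refine hfin l V G A r f hbip hnb hC4 ρ.range ?_ ?_ ?_ a ha B hB hBc ?_
  · rw [← map_derivedSeries_eq ρ.rangeRestrict_surjective, hder, Subgroup.map_bot]
  · intro σ u v huv
    obtain ⟨g, hg⟩ := hsm σ
    rw [hg, hg]
    exact hadj g u v huv
  · intro σ v hv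
    obtain ⟨g, hg⟩ := hsm σ
    rw [hg]
    exact hcls g v hv
  · intro b hb
    refine (horb b hb).trans (Set.ncard_le_ncard ?_ (Set.toFinite _))
    rintro v ⟨g, hgb, hga⟩
    obtain ⟨σ, hσ⟩ := hsm' g
    exact ⟨σ, by rw [hσ, hgb], by rw [hσ, hga]⟩

/-- The transitive case. -/
theorem transitive_solvable (d g : ℕ) : ∃ C : ℕ, ∀ (l : ℕ) (V : Type) [Fintype V] [DecidableEq V]
    [Nonempty V]
    (G : SimpleGraph V) [DecidableRel G.Adj] (A : Finset V) (r : ℕ) (f : V → Fin r)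
    (_hbip : ∀ u v : V, G.Adj u v → (u ∈ A ↔ v ∉ A))
    (_hnb : ∀ a ∈ A, ∀ i : Fin r, ∃! b : V, b ∉ A ∧ f b = i ∧ G.Adj a b)
    (_hmin : ∀ v : V, C ^ (l + 1) ≤ G.degree v)
    (_hC4 : ∀ (v : V) (p : G.Walk v v), p.IsCycle → p.length ≠ 4)
    (Γ : Type) [Group Γ] [MulAction Γ V]
    (_hder : derivedSeries Γ l = ⊥)
    (_hadj : ∀ (g : Γ) (u v : V), G.Adj u v → G.Adj (g • u) (g • v))
    (_hcls : ∀ (g : Γ) (v : V), v ∉ A → g • v ∉ A ∧ f (g • v) = f v)
    (_htrans : ∀ a ∈ A, ∀ a' ∈ A, ∃ g : Γ, g • a = a'),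
    ∃ S : Finset V, S.Nonempty ∧
      (∀ v ∈ S, d < (S.filter (fun w => G.Adj v w)).card) ∧
      ∀ (v : V) (p : G.Walk v v), p.IsCycle → (∀ w ∈ p.support, w ∈ S) → g < p.length := by
  classical
  obtain ⟨C, hC1, hloc⟩ := local_solvable d g
  refine ⟨C, ?_⟩
  intro l V _ _ _ G _ A r f hbip hnb hmin hC4 Γ _ _ hder hadj hcls htrans
  obtain ⟨a, ha⟩ : ∃ a, a ∈ A := by
    obtain ⟨v⟩ := ‹Nonempty V›
    by_cases hv : v ∈ A
    · exact ⟨v, hv⟩
    · have h1 := hmin v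
      have h2 : 0 < G.degree v := lt_of_lt_of_le (Nat.pow_pos (by omega)) h1
      rw [G.degree_pos_iff_exists_adj] at h2
      obtain ⟨w, hw⟩ := h2
      exact ⟨w, (hbip w v hw.symm).mpr hv⟩
  have huniq : ∀ x ∈ A, ∀ y z : V, G.Adj x y → G.Adj x z → f y = f z → y = z := by
    intro x hx y z hy hz hf
    have hyA : y ∉ A := (hbip x y hy).mp hx
    have hzA : z ∉ A := (hbip x z hz).mp hx
    exact (hnb x hx (f z)).unique ⟨hyA, hf, hy⟩ ⟨hzA, rfl, hz⟩
  refine hloc l V G A r f hbip hnb hC4 Γ hder hadj hcls a ha (G.neighborFinset a)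
    (fun b hb => by simpa using hb) ?_ ?_
  · rw [G.card_neighborFinset_eq_degree]
    exact hmin a
  · intro b hb
    have hab : G.Adj a b := by simpa using hb
    have hbA : b ∉ A := (hbip a b hab).mp ha
    have h1 : C ^ (l + 1) ≤ (G.neighborFinset b).card := by
      rw [G.card_neighborFinset_eq_degree]
      exact hmin b
    refine h1.trans ?_
    rw [← Set.ncard_coe_finset]
    refine Set.ncard_le_ncard ?_ (Set.toFinite _)
    intro v hv
    have hv' : G.Adj b v := by simpa using hv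
    have hvA : v ∈ A := (hbip v b hv'.symm).mpr hbA
    obtain ⟨g, hg⟩ := htrans a ha v hvA
    refine ⟨g, ?_, hg⟩
    have h2 := hadj g a b hab
    rw [hg] at h2
    exact huniq v hvA (g • b) b h2 hv'.symm (hcls g b hbA).2

end Pool.Agent.Lib.MP_59be9f_co.Sym
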