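import Mathlib
import Pool.Agent.Lib.MP_59be9f_co.Sol

set_option autoImplicit false
set_option linter.unusedSimpArgs false
set_option linter.unusedSectionVars false
set_option linter.deprecated false

namespace Pool.Agent.Lib.MP_59be9f_co.Sym

open Finset

/-- At most `t` orbits on `A`. -/
theorem orbits_solvable (d g : ℕ) : ∃ C : ℕ, ∀ (l t : ℕ) (V : Type) [Fintype V] [DecidableEq V]
    [Nonempty V]
    (G : SimpleGraph V) [DecidableRel G.Adj] (A : Finset V) (r : ℕ) (f : V → Fin r)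
    (_ht : 1 ≤ t)
    (_hbip : ∀ u v : V, G.Adj u v → (u ∈ A ↔ v ∉ A))
    (_hnb : ∀ a ∈ A, ∀ i : Fin r, ∃! b : V, b ∉ A ∧ f b = i ∧ G.Adj a b)
    (_hmin : ∀ v : V, C ^ (l + 1) * t ≤ G.degree v)
    (_hC4 : ∀ (v : V) (p : G.Walk v v), p.IsCycle → p.length ≠ 4)
    (Γ : Type) [Group Γ] [MulAction Γ V]
    (_hder : derivedSeries Γ l = ⊥)
    (_hadj : ∀ (g : Γ) (u v : V), G.Adj u v → G.Adj (g • u) (g • v))
    (_hcls : ∀ (g : Γ) (v : V), v ∉ A → g • v ∉ A ∧ f (g • v) = f v)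
    (T : Finset V) (_hTt : T.card ≤ t) (_hT : ∀ a ∈ A, ∃ a₀ ∈ T, ∃ g : Γ, g • a₀ = a),
    ∃ S : Finset V, S.Nonempty ∧
      (∀ v ∈ S, d < (S.filter (fun w => G.Adj v w)).card) ∧
      ∀ (v : V) (p : G.Walk v v), p.IsCycle → (∀ w ∈ p.support, w ∈ S) → g < p.length := by
  classical
  obtain ⟨C, hC1, hloc⟩ := local_solvable d g
  refine ⟨2 * C, ?_⟩
  intro l t V _ _ _ G _ A r f ht hbip hnb hmin hC4 Γ _ _ hder hadj hcls T hTt hT
  set D : ℕ := C ^ (l + 1) with hD
  have hD1 : 1 ≤ D := Nat.one_le_pow _ _ hC1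
  have hdeg : ∀ v : V, 2 * D * t ≤ G.degree v := by
    intro v
    refine le_trans ?_ (hmin v)
    refine Nat.mul_le_mul_right _ ?_
    rw [mul_pow]
    refine Nat.mul_le_mul_right _ ?_
    calc 2 = 2 ^ 1 := by norm_num
      _ ≤ 2 ^ (l + 1) := Nat.pow_le_pow_right (by norm_num) (by omega)
  have hdeg2 : ∀ v : V, 2 * D ≤ G.degree v := fun v =>
    (Nat.le_mul_of_pos_right _ (by omega)).trans (hdeg v)
  have huniq : ∀ x ∈ A, ∀ y z : V, G.Adj x y → G.Adj x z → f y = f z → y = z := by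
    intro x hx y z hy hz hf
    have hyA : y ∉ A := (hbip x y hy).mp hx
    have hzA : z ∉ A := (hbip x z hz).mp hx
    exact (hnb x hx (f z)).unique ⟨hyA, hf, hy⟩ ⟨hzA, rfl, hz⟩
  obtain ⟨a0, ha0⟩ : ∃ a, a ∈ A := by
    obtain ⟨v⟩ := ‹Nonempty V›
    by_cases hv : v ∈ A
    · exact ⟨v, hv⟩
    · have h1 := hdeg2 v
      have h2 : 0 < G.degree v := by omega
      rw [G.degree_pos_iff_exists_adj] at h2
      obtain ⟨w, hw⟩ := h2
      exact ⟨w, (hbip w v hw.symm).mpr hv⟩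
  let orb : V → V → Set V := fun a b => {v : V | ∃ g : Γ, g • b = b ∧ g • a = v}
  by_contra hcon
  -- every vertex of `A` has few good neighbours
  have hfew : ∀ a ∈ A, ((Aᶜ.filter (fun b => G.Adj a b)).filter
      (fun b => D ≤ (orb a b).ncard)).card < D := by
    intro a ha
    by_contra hge
    push Not at hge
    refine hcon (hloc l V G A r f hbip hnb hC4 Γ hder hadj hcls a ha _ ?_ hge ?_)
    · intro b hb
      exact (Finset.mem_filter.mp (Finset.mem_filter.mp hb).1).2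
    · intro b hb
      exact (Finset.mem_filter.mp hb).2
  have hdA : ∀ a ∈ A, (Aᶜ.filter (fun b => G.Adj a b)).card = G.degree a := by
    intro a ha
    rw [← G.card_neighborFinset_eq_degree]
    congr 1
    ext b
    simp only [Finset.mem_filter, Finset.mem_compl, SimpleGraph.mem_neighborFinset]
    exact ⟨fun h => h.2, fun h => ⟨(hbip a b h).mp ha, h⟩⟩
  have hdB : ∀ b ∈ Aᶜ, (A.filter (fun a => G.Adj a b)).card = G.degree b := by
    intro b hb
    rw [Finset.mem_compl] at hb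
    rw [← G.card_neighborFinset_eq_degree]
    congr 1
    ext a
    simp only [Finset.mem_filter, SimpleGraph.mem_neighborFinset]
    exact ⟨fun h => h.2.symm, fun h => ⟨(hbip a b h.symm).mpr hb, h.symm⟩⟩
  -- bad edges seen from `A`
  have hbadA : ∀ a ∈ A, (Aᶜ.filter (fun b => G.Adj a b)).card <
      2 * (Aᶜ.filter (fun b => G.Adj a b ∧ ¬ D ≤ (orb a b).ncard)).card := by
    intro a ha
    have h1 := hfew a ha
    have h2 := Finset.card_filter_add_card_filter_not (s := Aᶜ.filter (fun b => G.Adj a b))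
      (fun b => D ≤ (orb a b).ncard)
    rw [Finset.filter_filter (fun b => G.Adj a b) (fun b => ¬ D ≤ (orb a b).ncard)] at h2
    have h3 := hdA a ha
    have h4 := hdeg2 a
    omega
  -- bad edges seen from the other side
  have hbadB : ∀ b ∈ Aᶜ, 2 * (A.filter (fun a => G.Adj a b ∧ ¬ D ≤ (orb a b).ncard)).card ≤
      (A.filter (fun a => G.Adj a b)).card := by
    intro b hb
    rw [hdB b hb]
    rw [Finset.mem_compl] at hb
    have hsub : A.filter (fun a => G.Adj a b ∧ ¬ D ≤ (orb a b).ncard) ⊆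
        T.biUnion (fun a₀ => A.filter (fun a => (G.Adj a b ∧ ¬ D ≤ (orb a b).ncard) ∧
          ∃ g : Γ, g • a₀ = a)) := by
      intro a ha
      obtain ⟨haA, ha2⟩ := Finset.mem_filter.mp ha
      obtain ⟨a₀, ha₀, g, hg⟩ := hT a haA
      exact Finset.mem_biUnion.mpr ⟨a₀, ha₀, Finset.mem_filter.mpr ⟨haA, ha2, g, hg⟩⟩
    have h1 : (T.biUnion (fun a₀ => A.filter (fun a => (G.Adj a b ∧ ¬ D ≤ (orb a b).ncard) ∧
          ∃ g : Γ, g • a₀ = a))).card ≤ T.card * D := by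
      refine Finset.card_biUnion_le_card_mul _ _ _ ?_
      intro a₀ _
      rcases Finset.eq_empty_or_nonempty (A.filter (fun a =>
        (G.Adj a b ∧ ¬ D ≤ (orb a b).ncard) ∧ ∃ g : Γ, g • a₀ = a)) with h0 | ⟨a₁, ha₁⟩
      · rw [h0, Finset.card_empty]; exact Nat.zero_le _
      · obtain ⟨ha₁A, ⟨hadj₁, hbad₁⟩, g₁, hg₁⟩ := Finset.mem_filter.mp ha₁
        have h2 : (A.filter (fun a => (G.Adj a b ∧ ¬ D ≤ (orb a b).ncard) ∧
            ∃ g : Γ, g • a₀ = a)).card ≤ (orb a₁ b).ncard := by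
          rw [← Set.ncard_coe_finset]
          refine Set.ncard_le_ncard ?_ (Set.toFinite _)
          intro a ha
          obtain ⟨haA, ⟨hadja, -⟩, g, hg⟩ := Finset.mem_filter.mp (Finset.mem_coe.mp ha)
          have hga : (g * g₁⁻¹) • a₁ = a := by
            rw [mul_smul, ← hg₁, inv_smul_smul, hg]
          refine ⟨g * g₁⁻¹, ?_, hga⟩
          have h3 := hadj (g * g₁⁻¹) a₁ b hadj₁
          rw [hga] at h3
          exact huniq a haA _ _ h3 hadja (hcls (g * g₁⁻¹) b hb).2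
        omega
    have h2 := Finset.card_le_card hsub
    have h3 : T.card * D ≤ t * D := Nat.mul_le_mul_right _ hTt
    have h4 := hdeg b
    have h5 : 2 * D * t = 2 * (t * D) := by ring
    omega
  have hdc1 := Finset.sum_card_bipartiteAbove_eq_sum_card_bipartiteBelow (s := A) (t := Aᶜ)
    (fun a b => G.Adj a b)
  have hdc2 := Finset.sum_card_bipartiteAbove_eq_sum_card_bipartiteBelow (s := A) (t := Aᶜ)
    (fun a b => G.Adj a b ∧ ¬ D ≤ (orb a b).ncard)
  simp only [Finset.bipartiteAbove, Finset.bipartiteBelow] at hdc1 hdc2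
  have h1 : ∑ a ∈ A, (Aᶜ.filter (fun b => G.Adj a b)).card <
      ∑ a ∈ A, 2 * (Aᶜ.filter (fun b => G.Adj a b ∧ ¬ D ≤ (orb a b).ncard)).card :=
    Finset.sum_lt_sum_of_nonempty ⟨a0, ha0⟩ hbadA
  have h2 : ∑ b ∈ Aᶜ, 2 * (A.filter (fun a => G.Adj a b ∧ ¬ D ≤ (orb a b).ncard)).card ≤
      ∑ b ∈ Aᶜ, (A.filter (fun a => G.Adj a b)).card := Finset.sum_le_sum hbadB
  rw [← Finset.mul_sum] at h1 h2
  omega

end Pool.Agent.Lib.MP_59be9f_co.Sym
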