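import Mathlib
import Pool.Agent.Lib.MP_59be9f_co.Sol

set_option autoImplicit false
set_option linter.unusedSectionVars false
set_option linter.unusedSimpArgs false
set_option linter.deprecated false

namespace Pool.Agent.Lib.MP_59be9f_co.Sym

open Finset

section
variable {Γ : Type} [Group Γ] [Finite Γ]

/-- Greedy choice, left multiplication. -/
lemma grdL [DecidableEq Γ] (H : Subgroup Γ) (V : ℕ → Subgroup Γ) (K s m : ℕ) (hm : m < K)
    (P : Finset Γ) (hP : P.Nonempty) (hother : ∃ j < K, j ≠ m)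
    (hPn : ∀ p ∈ P, ∀ v ∈ V m, p⁻¹ * v * p ∈ V m)
    (hmeet : ∀ j < K, j ≠ m → ∀ g : Γ, g ∈ V m → g ∈ V j → g ∈ H)
    (hD : (s * (K * (P.card * P.card))) * Nat.card H < Nat.card (V m)) :
    ∀ k ≤ s, ∃ S : Finset Γ, S.card = k ∧ (∀ x ∈ S, x ∈ V m) ∧
      ∀ x ∈ S, ∀ y ∈ S, ∀ j < K, j ≠ m → ∀ p ∈ P, ∀ p' ∈ P,
        (x * p)⁻¹ * (y * p') ∈ V j → x = y := by
  classical
  intro k
  induction k with
  | zero => intro _; exact ⟨∅, by simp, by simp, by simp⟩
  | succ k ih =>
    intro hk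
    obtain ⟨S, hcard, hSU, hS⟩ := ih (by omega)
    by_contra hcon
    push Not at hcon
    have hbad : ∀ x ∈ V m, ∃ t : Γ × (ℕ × (Γ × Γ)),
        t ∈ S ×ˢ ((range K) ×ˢ (P ×ˢ P)) ∧ t.2.1 ≠ m ∧
        (t.1 * t.2.2.1)⁻¹ * (x * t.2.2.2) ∈ V t.2.1 := by
      intro x hx
      by_contra hno
      push Not at hno
      have hno' : ∀ y ∈ S, ∀ j < K, j ≠ m → ∀ p ∈ P, ∀ p' ∈ P,
          (y * p)⁻¹ * (x * p') ∉ V j := by
        intro y hy j hj hjm p hp p' hp'
        exact hno (y, (j, (p, p'))) (by simp [hy, hj, hp, hp']) hjm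
      obtain ⟨p0, hp0⟩ := hP
      obtain ⟨j0, hj0, hj0m⟩ := hother
      have hxS : x ∉ S := fun h => hno' x h j0 hj0 hj0m p0 hp0 p0 hp0 (by
        rw [inv_mul_cancel]; exact Subgroup.one_mem _)
      obtain ⟨y, hy, y', hy', j, hj, hjm, p, hp, p', hp', he, hne⟩ := hcon (insert x S)
        (by rw [card_insert_of_notMem hxS, hcard])
        (by
          intro s hs
          rcases Finset.mem_insert.mp hs with rfl | hs
          · exact hx
          · exact hSU s hs)
      rcases Finset.mem_insert.mp hy with hy1 | hy1 <;>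
        rcases Finset.mem_insert.mp hy' with hy1' | hy1'
      · exact hne (hy1.trans hy1'.symm)
      · rw [hy1] at he
        refine hno' y' hy1' j hj hjm p' hp' p hp ?_
        have := Subgroup.inv_mem _ he
        rwa [mul_inv_rev, inv_inv] at this
      · rw [hy1'] at he
        exact hno' y hy1 j hj hjm p hp p' hp' he
      · exact hne (hS y hy1 y' hy1' j hj hjm p hp p' hp' he)
    choose! T hT1 hT2 hT3 using hbad
    have : Fintype Γ := Fintype.ofFinite Γ
    set W : Finset Γ := univ.filter (fun x => x ∈ V m) with hW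
    have hWc : W.card = Nat.card (V m) := by
      rw [hW, Nat.card_eq_fintype_card, Fintype.card_subtype]
    have hfib : ∀ t ∈ W.image T, (W.filter (fun x => T x = t)).card ≤ Nat.card H := by
      intro t ht
      obtain ⟨x0, hx0, rfl⟩ := Finset.mem_image.mp ht
      have hx0' : x0 ∈ V m := (Finset.mem_filter.mp hx0).2
      have hHc : Nat.card H = (univ.filter (fun x => x ∈ H)).card := by
        rw [Nat.card_eq_fintype_card, Fintype.card_subtype]
      rw [hHc]
      have h0 := hT1 x0 hx0'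
      simp only [Finset.mem_product, Finset.mem_range] at h0
      set q := (T x0).2.2.2 with hq
      refine Finset.card_le_card_of_injOn (fun x => q⁻¹ * (x0⁻¹ * x) * q) ?_ ?_
      · intro x hx
        have hx' := Finset.mem_filter.mp (Finset.mem_coe.mp hx)
        have hx1 : x ∈ V m := (Finset.mem_filter.mp hx'.1).2
        refine Finset.mem_coe.mpr (Finset.mem_filter.mpr ⟨Finset.mem_univ _, ?_⟩)
        have hvm : x0⁻¹ * x ∈ V m := Subgroup.mul_mem _ (Subgroup.inv_mem _ hx0') hx1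
        have e1 := hT3 x0 hx0'
        have e2 := hT3 x hx1
        rw [hx'.2] at e2
        have e3 := Subgroup.mul_mem _ (Subgroup.inv_mem _ e1) e2
        have e4 : (((T x0).1 * (T x0).2.2.1)⁻¹ * (x0 * (T x0).2.2.2))⁻¹ *
            (((T x0).1 * (T x0).2.2.1)⁻¹ * (x * (T x0).2.2.2)) = q⁻¹ * (x0⁻¹ * x) * q := by
          rw [hq]; group
        rw [e4] at e3
        exact hmeet _ h0.2.1 (hT2 x0 hx0') _ (hPn q h0.2.2.2 _ hvm) e3
      · intro x _ y _ he
        have he' : q⁻¹ * (x0⁻¹ * x) * q = q⁻¹ * (x0⁻¹ * y) * q := he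
        exact mul_left_cancel (mul_left_cancel (mul_right_cancel he'))
    have h1 := Finset.card_le_mul_card_image W (Nat.card H) hfib
    have h2 : (W.image T).card ≤ k * (K * (P.card * P.card)) := by
      have : W.image T ⊆ S ×ˢ ((range K) ×ˢ (P ×ˢ P)) := by
        intro t ht
        obtain ⟨x0, hx0, rfl⟩ := Finset.mem_image.mp ht
        exact hT1 x0 (Finset.mem_filter.mp hx0).2
      have h3 := Finset.card_le_card this
      rw [Finset.card_product, Finset.card_product, Finset.card_product, hcard,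
        Finset.card_range] at h3
      exact h3
    have h3 : k * (K * (P.card * P.card)) ≤ s * (K * (P.card * P.card)) :=
      Nat.mul_le_mul_right _ (by omega)
    have h4 : Nat.card H * (W.image T).card ≤ (s * (K * (P.card * P.card))) * Nat.card H := by
      rw [mul_comm (Nat.card H)]
      exact Nat.mul_le_mul_right _ (h2.trans h3)
    omega

/-- The product, with the new elements on the left. -/
lemma prodL [DecidableEq Γ] (H : Subgroup Γ) (V : ℕ → Subgroup Γ) (K s : ℕ)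
    (hs : 1 ≤ s) (hK : 2 ≤ K) (hH : ∀ j < K, H ≤ V j)
    (hnorm : ∀ i j, i < j → j < K → ∀ g ∈ V i, ∀ v ∈ V j, g * v * g⁻¹ ∈ V j)
    (hmeet : ∀ i < K, ∀ j < K, i ≠ j → ∀ g : Γ, g ∈ V i → g ∈ V j → g ∈ H)
    (hD : ∀ i < K, (s * (K * (s ^ K * s ^ K))) * Nat.card H < Nat.card (V i)) :
    ∀ m ≤ K, ∃ P : Finset Γ, P.Nonempty ∧ P.card ≤ s ^ m ∧
      (∀ p ∈ P, ∀ j, m ≤ j → j < K → ∀ v ∈ V j, p * v * p⁻¹ ∈ V j ∧ p⁻¹ * v * p ∈ V j) ∧
      (∀ i, m ≤ i → i < K → ∀ p ∈ P, ∀ p' ∈ P, p⁻¹ * p' ∈ V i → p = p') ∧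
      (∀ p ∈ P, ∀ p' ∈ P, p⁻¹ * p' ∈ H → p = p') ∧
      (∀ i < m, ∀ p ∈ P, (blk (P : Set Γ) (V i) p).ncard = s) := by
  classical
  intro m
  induction m with
  | zero =>
    intro _
    refine ⟨{1}, by simp, by simp, ?_, ?_, ?_, by simp⟩
    · intro p hp j _ _ v hv
      rw [Finset.mem_singleton] at hp
      rw [hp]
      simpa using hv
    · intro i _ _ p hp p' hp' _
      rw [Finset.mem_singleton] at hp hp'
      rw [hp, hp']
    · intro p hp p' hp' _
      rw [Finset.mem_singleton] at hp hp'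
      rw [hp, hp']
  | succ m ih =>
    intro hmK
    obtain ⟨P, hPne, hPcard, hPn, hPa, hPb, hPc⟩ := ih (by omega)
    have hPle : P.card ≤ s ^ K := hPcard.trans (Nat.pow_le_pow_right hs (by omega))
    have hother : ∃ j < K, j ≠ m := by
      by_cases h : m = 0
      · exact ⟨1, by omega, by omega⟩
      · exact ⟨0, by omega, by omega⟩
    obtain ⟨S, hScard, hSV, hS⟩ := grdL H V K s m (by omega) P hPne hother
      (fun p hp v hv => (hPn p hp m le_rfl (by omega) v hv).2)
      (fun j hj hjm g hg hg' => hmeet m (by omega) j hj (fun h => hjm h.symm) g hg hg')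
      (lt_of_le_of_lt (Nat.mul_le_mul_right _ (Nat.mul_le_mul_left _ (Nat.mul_le_mul_left _
        (Nat.mul_le_mul hPle hPle)))) (hD m (by omega))) s le_rfl
    have hSne : S.Nonempty := by
      rw [← Finset.card_pos]; omega
    have hcan : ∀ x p p' : Γ, (x * p)⁻¹ * (x * p') = p⁻¹ * p' := by
      intro x p p'; group
    have hrule : ∀ p ∈ P, ∀ p' ∈ P, ∀ x ∈ S, ∀ y ∈ S, ∀ j < K, j ≠ m →
        (x * p)⁻¹ * (y * p') ∈ V j → x = y ∧ p⁻¹ * p' ∈ V j := by
      intro p hp p' hp' x hx y hy j hj hjm he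
      have h1 := hS x hx y hy j hj hjm p hp p' hp' he
      refine ⟨h1, ?_⟩
      rw [← h1, hcan] at he
      exact he
    have hrulem : ∀ p ∈ P, ∀ p' ∈ P, ∀ x ∈ S, ∀ y ∈ S, (x * p)⁻¹ * (y * p') ∈ V m → p = p' := by
      intro p hp p' hp' x hx y hy he
      refine hPa m le_rfl (by omega) p hp p' hp' ?_
      have h0 : x⁻¹ * y ∈ V m := (V m).mul_mem ((V m).inv_mem (hSV x hx)) (hSV y hy)
      have h1 := (hPn p hp m le_rfl (by omega) _ h0).2
      have h2 := (V m).mul_mem ((V m).inv_mem h1) he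
      have h3 : (p⁻¹ * (x⁻¹ * y) * p)⁻¹ * ((x * p)⁻¹ * (y * p')) = p⁻¹ * p' := by group
      rwa [h3] at h2
    refine ⟨(S ×ˢ P).image (fun z => z.1 * z.2), (hSne.product hPne).image _, ?_, ?_, ?_, ?_, ?_⟩
    · refine Finset.card_image_le.trans ?_
      rw [Finset.card_product, hScard, pow_succ, mul_comm]
      exact Nat.mul_le_mul_right _ hPcard
    · intro q hq j hj hjK v hv
      obtain ⟨⟨x, p⟩, hxp, rfl⟩ := Finset.mem_image.mp hq
      obtain ⟨hx, hp⟩ := Finset.mem_product.mp hxp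
      constructor
      · have h1 := (hPn p hp j (by omega) hjK v hv).1
        have h2 := hnorm m j (by omega) hjK x (hSV x hx) _ h1
        have h3 : x * (p * v * p⁻¹) * x⁻¹ = (x * p) * v * (x * p)⁻¹ := by group
        rwa [h3] at h2
      · have h1 := hnorm m j (by omega) hjK x⁻¹ ((V m).inv_mem (hSV x hx)) v hv
        have h2 := (hPn p hp j (by omega) hjK _ h1).2
        have h3 : p⁻¹ * (x⁻¹ * v * x⁻¹⁻¹) * p = (x * p)⁻¹ * v * (x * p) := by group
        rwa [h3] at h2
    · intro i hi hiK q hq q' hq' he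
      obtain ⟨⟨x, p⟩, hxp, rfl⟩ := Finset.mem_image.mp hq
      obtain ⟨hx, hp⟩ := Finset.mem_product.mp hxp
      obtain ⟨⟨y, p'⟩, hyp, rfl⟩ := Finset.mem_image.mp hq'
      obtain ⟨hy, hp'⟩ := Finset.mem_product.mp hyp
      have h1 := hrule p hp p' hp' x hx y hy i hiK (by omega) he
      have h2 := hPa i (by omega) hiK p hp p' hp' h1.2
      change x * p = y * p'
      rw [h1.1, h2]
    · intro q hq q' hq' he
      obtain ⟨⟨x, p⟩, hxp, rfl⟩ := Finset.mem_image.mp hq
      obtain ⟨hx, hp⟩ := Finset.mem_product.mp hxp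
      obtain ⟨⟨y, p'⟩, hyp, rfl⟩ := Finset.mem_image.mp hq'
      obtain ⟨hy, hp'⟩ := Finset.mem_product.mp hyp
      obtain ⟨j0, hj0, hj0m⟩ := hother
      have he' : (x * p)⁻¹ * (y * p') ∈ H := he
      have h1 := hrule p hp p' hp' x hx y hy j0 hj0 hj0m (hH j0 hj0 he')
      rw [← h1.1, hcan] at he'
      change x * p = y * p'
      rw [← h1.1, hPb p hp p' hp' he']
    · intro i hi q hq
      obtain ⟨⟨x, p⟩, hxp, rfl⟩ := Finset.mem_image.mp hq
      obtain ⟨hx, hp⟩ := Finset.mem_product.mp hxp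
      change (blk _ (V i) (x * p)).ncard = s
      by_cases him : i = m
      · subst him
        have heq : blk (((S ×ˢ P).image (fun z : Γ × Γ => z.1 * z.2) : Finset Γ) : Set Γ) (V i)
            (x * p) = (fun y => y * p) '' (S : Set Γ) := by
          ext h
          simp only [blk, Set.mem_ofPred_eq, Set.mem_image]
          constructor
          · rintro ⟨hh, he⟩
            obtain ⟨⟨y, p'⟩, hyp, rfl⟩ := Finset.mem_image.mp (Finset.mem_coe.mp hh)
            obtain ⟨hy, hp'⟩ := Finset.mem_product.mp hyp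
            have := hrulem p hp p' hp' x hx y hy he
            exact ⟨y, hy, by rw [this]⟩
          · rintro ⟨y, hy, rfl⟩
            refine ⟨Finset.mem_coe.mpr (Finset.mem_image.mpr
              ⟨(y, p), Finset.mem_product.mpr ⟨hy, hp⟩, rfl⟩), ?_⟩
            have h0 : x⁻¹ * y ∈ V i := (V i).mul_mem ((V i).inv_mem (hSV x hx)) (hSV y hy)
            have h1 := (hPn p hp i le_rfl (by omega) _ h0).2
            have h2 : p⁻¹ * (x⁻¹ * y) * p = (x * p)⁻¹ * (y * p) := by group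
            rwa [h2] at h1
        rw [heq, Set.ncard_image_of_injective _ (mul_left_injective p), Set.ncard_coe_finset,
          hScard]
      · have heq : blk (((S ×ˢ P).image (fun z : Γ × Γ => z.1 * z.2) : Finset Γ) : Set Γ) (V i)
            (x * p) = (fun p' => x * p') '' (blk (P : Set Γ) (V i) p) := by
          ext h
          simp only [blk, Set.mem_ofPred_eq, Set.mem_image]
          constructor
          · rintro ⟨hh, he⟩
            obtain ⟨⟨y, p'⟩, hyp, rfl⟩ := Finset.mem_image.mp (Finset.mem_coe.mp hh)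
            obtain ⟨hy, hp'⟩ := Finset.mem_product.mp hyp
            have h1 := hrule p hp p' hp' x hx y hy i (by omega) him he
            exact ⟨p', ⟨hp', h1.2⟩, by rw [h1.1]⟩
          · rintro ⟨p', ⟨hp', he⟩, rfl⟩
            refine ⟨Finset.mem_coe.mpr (Finset.mem_image.mpr
              ⟨(x, p'), Finset.mem_product.mpr ⟨hx, hp'⟩, rfl⟩), ?_⟩
            rw [hcan]
            exact he
        rw [heq, Set.ncard_image_of_injective _ (mul_right_injective x)]
        exact hPc i (by omega) p hp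

end

theorem tri_finite (d g : ℕ) : ∃ D : ℕ, ∀ (V : Type) [Fintype V] [DecidableEq V]
    (G : SimpleGraph V) [DecidableRel G.Adj] (A : Finset V) (r : ℕ) (f : V → Fin r)
    (_hbip : ∀ u v : V, G.Adj u v → (u ∈ A ↔ v ∉ A))
    (_hnb : ∀ a ∈ A, ∀ i : Fin r, ∃! b : V, b ∉ A ∧ f b = i ∧ G.Adj a b)
    (_hC4 : ∀ (v : V) (p : G.Walk v v), p.IsCycle → p.length ≠ 4)
    (Γ : Type) [Group Γ] [Finite Γ] [MulAction Γ V]
    (_hadj : ∀ (g : Γ) (u v : V), G.Adj u v → G.Adj (g • u) (g • v))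
    (_hcls : ∀ (g : Γ) (v : V), v ∉ A → g • v ∉ A ∧ f (g • v) = f v)
    (a : V) (_ha : a ∈ A) (b : Fin (d + 2) → V) (_hb : Function.Injective b)
    (_hab : ∀ i, G.Adj a (b i))
    (_hnorm : ∀ i j, i < j → ∀ g h : Γ, g • b i = b i → h • b j = b j → (g * h * g⁻¹) • b j = b j)
    (_horb : ∀ i, D ≤ {v : V | ∃ g : Γ, g • b i = b i ∧ g • a = v}.ncard),
    ∃ S : Finset V, S.Nonempty ∧
      (∀ v ∈ S, d < (S.filter (fun w => G.Adj v w)).card) ∧
      ∀ (v : V) (p : G.Walk v v), p.IsCycle → (∀ w ∈ p.support, w ∈ S) → g < p.length := by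
  classical
  set s : ℕ := phi (d + 2) (g + 1) 1 + 1 with hs
  refine ⟨(s * ((d + 2) * (s ^ (d + 2) * s ^ (d + 2)))) + 1, ?_⟩
  intro V _ _ G _ A r f hbip hnb hC4 Γ _ _ _ hadj hcls a ha b hb hab hnorm horb
  have huniq : ∀ x ∈ A, ∀ y z : V, G.Adj x y → G.Adj x z → f y = f z → y = z := by
    intro x hx y z hy hz hf
    have hyA : y ∉ A := (hbip x y hy).mp hx
    have hzA : z ∉ A := (hbip x z hz).mp hx
    exact (hnb x hx (f z)).unique ⟨hyA, hf, hy⟩ ⟨hzA, rfl, hz⟩
  have hbA : ∀ i, b i ∉ A := fun i => (hbip a (b i) (hab i)).mp ha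
  have hfb : ∀ i j, f (b i) = f (b j) → i = j := fun i j h =>
    hb (huniq a ha (b i) (b j) (hab i) (hab j) h)
  have hgab : ∀ (γ : Γ) i, G.Adj (γ • a) (γ • b i) := fun γ i => hadj γ a (b i) (hab i)
  have hgbA : ∀ (γ : Γ) i, γ • b i ∉ A := fun γ i => (hcls γ (b i) (hbA i)).1
  have hgbf : ∀ (γ : Γ) i, f (γ • b i) = f (b i) := fun γ i => (hcls γ (b i) (hbA i)).2
  have hgaA : ∀ γ : Γ, γ • a ∈ A := fun γ => (hbip _ _ (hgab γ 0)).mpr (hgbA γ 0)
  let bb : ℕ → V := fun i => if h : i < d + 2 then b ⟨i, h⟩ else a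
  have hbb : ∀ i (h : i < d + 2), bb i = b ⟨i, h⟩ := fun i h => by simp only [bb, dif_pos h]
  have hH : ∀ j < d + 2, MulAction.stabilizer Γ a ≤ MulAction.stabilizer Γ (bb j) := by
    intro j hj γ hγ
    rw [MulAction.mem_stabilizer_iff] at hγ ⊢
    rw [hbb j hj]
    have h1 := hgab γ ⟨j, hj⟩
    rw [hγ] at h1
    exact huniq a ha _ _ h1 (hab _) (hgbf γ _)
  obtain ⟨P, ⟨p0, hp0⟩, -, -, -, hPb, hPc⟩ := prodL (MulAction.stabilizer Γ a)
    (fun i => MulAction.stabilizer Γ (bb i)) (d + 2) s (by omega) (by omega) hH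
    (by
      intro i j hij hj γ hγ v hv
      rw [MulAction.mem_stabilizer_iff] at hγ hv ⊢
      rw [hbb i (by omega)] at hγ
      rw [hbb j hj] at hv ⊢
      exact hnorm ⟨i, by omega⟩ ⟨j, hj⟩ (Fin.mk_lt_mk.mpr hij) γ v hγ hv)
    (by
      intro i hi j hj hij γ h1 h2
      rw [MulAction.mem_stabilizer_iff] at h1 h2 ⊢
      rw [hbb i hi] at h1
      rw [hbb j hj] at h2
      by_contra hne
      refine no_c4 G hC4 hne (b := b ⟨i, hi⟩) (b' := b ⟨j, hj⟩) ?_ ?_ (hab _) ?_ (hab _)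
      · intro h
        exact hij (Fin.mk.inj_iff.mp (hb h))
      · have := hgab γ ⟨i, hi⟩
        rwa [h1] at this
      · have := hgab γ ⟨j, hj⟩
        rwa [h2] at this)
    (by
      intro i hi
      have h1 := card_mul_rel (hH i hi)
      rw [rel_stab] at h1
      have h2 := horb ⟨i, hi⟩
      have h3 : {v : V | ∃ g : Γ, g ∈ MulAction.stabilizer Γ (bb i) ∧ g • a = v} =
          {v : V | ∃ g : Γ, g • b ⟨i, hi⟩ = b ⟨i, hi⟩ ∧ g • a = v} := by
        ext v
        simp only [MulAction.mem_stabilizer_iff, Set.mem_ofPred_eq, hbb i hi]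
      rw [h3] at h1
      rw [← h1, mul_comm]
      exact Nat.mul_lt_mul_of_pos_left (by omega) Nat.card_pos) (d + 2) le_rfl
  have hPa : ∀ p ∈ P, ∀ p' ∈ P, p • a = p' • a → p = p' := by
    intro p hp p' hp' he
    refine hPb p hp p' hp' ?_
    rw [MulAction.mem_stabilizer_iff, mul_smul, inv_smul_eq_iff]
    exact he.symm
  set A' : Finset V := P.image (fun p => p • a) with hA'
  obtain ⟨S, hSne, hSdeg, hScyc⟩ : ∃ S : Finset V, S.Nonempty ∧
      (∀ v ∈ S, d + 2 ≤ (S.filter (fun w => G.Adj v w)).card) ∧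
      ∀ (v : V) (p : G.Walk v v), p.IsCycle → (∀ w ∈ p.support, w ∈ S) →
        2 * (g + 1) + 4 < p.length := by
    refine comparable_girth (d + 2) (g + 1) s 1 (by omega) (by omega) le_rfl (by omega) V G A r f
      hbip hnb hC4 A' ?_ ?_ (fun i => f (bb i)) (fun _ => s) ?_ ?_ ?_
    · intro v hv
      obtain ⟨p, -, rfl⟩ := Finset.mem_image.mp hv
      exact hgaA p
    · exact ⟨p0 • a, Finset.mem_image.mpr ⟨p0, hp0, rfl⟩⟩
    · intro i hi k hk he
      have he' : f (bb i) = f (bb k) := he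
      rw [hbb i hi, hbb k hk] at he'
      exact Fin.mk.inj_iff.mp (hfb _ _ he')
    · intro i _
      exact ⟨le_rfl, by rw [one_mul]⟩
    · intro x hx i hi c hxc hfc
      obtain ⟨p, hp, rfl⟩ := Finset.mem_image.mp hx
      have hfc' : f c = f (b ⟨i, hi⟩) := by
        rw [← hbb i hi]; exact hfc
      have hc : c = p • b ⟨i, hi⟩ := huniq (p • a) (hgaA p) _ _ hxc (hgab p _)
        (by rw [hfc', hgbf])
      have h1 := hPc i hi p hp
      rw [← h1, ← Set.ncard_coe_finset]
      symm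
      refine Set.ncard_congr (fun p' _ => p' • a) ?_ ?_ ?_
      · rintro p' ⟨hp', he⟩
        refine Finset.mem_coe.mpr (Finset.mem_filter.mpr
          ⟨Finset.mem_image.mpr ⟨p', hp', rfl⟩, ?_⟩)
        have he1 := MulAction.mem_stabilizer_iff.mp he
        rw [mul_smul, inv_smul_eq_iff, hbb i hi] at he1
        rw [hc, ← he1]
        exact hgab p' _
      · rintro p' p'' ⟨hp', -⟩ ⟨hp'', -⟩ he
        exact hPa p' hp' p'' hp'' he
      · intro v hv
        obtain ⟨hvA', hvc⟩ := Finset.mem_filter.mp (Finset.mem_coe.mp hv)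
        obtain ⟨p', hp', rfl⟩ := Finset.mem_image.mp hvA'
        refine ⟨p', ⟨hp', ?_⟩, rfl⟩
        rw [MulAction.mem_stabilizer_iff, mul_smul, inv_smul_eq_iff, hbb i hi, ← hc]
        exact (huniq (p' • a) (hgaA p') _ _ hvc (hgab p' _) (by rw [hfc', hgbf])).symm
  refine ⟨S, hSne, fun v hv => ?_, fun v p hp hsup => ?_⟩
  · have := hSdeg v hv
    omega
  · have := hScyc v p hp hsup
    omega

end Pool.Agent.Lib.MP_59be9f_co.Sym
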