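import Mathlib
import Pool.Agent.Lib.MP_59be9f_co.Tri

set_option autoImplicit false
set_option linter.unusedSimpArgs false
set_option linter.unusedSectionVars false
set_option linter.deprecated false

namespace Pool.Agent.Lib.MP_59be9f_co.Sym

open Finset

/-- A vertex with many good neighbours. -/
theorem good_vertex (D t : ℕ) (hD1 : 1 ≤ D) (V : Type) [Fintype V] [DecidableEq V]
    [Nonempty V]
    (G : SimpleGraph V) [DecidableRel G.Adj] (A : Finset V) (r : ℕ) (f : V → Fin r)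
    (ht : 1 ≤ t)
    (hbip : ∀ u v : V, G.Adj u v → (u ∈ A ↔ v ∉ A))
    (hnb : ∀ a ∈ A, ∀ i : Fin r, ∃! b : V, b ∉ A ∧ f b = i ∧ G.Adj a b)
    (hdeg : ∀ v : V, 2 * D * t ≤ G.degree v)
    (Γ : Type) [Group Γ] [MulAction Γ V]
    (hadj : ∀ (g : Γ) (u v : V), G.Adj u v → G.Adj (g • u) (g • v))
    (hcls : ∀ (g : Γ) (v : V), v ∉ A → g • v ∉ A ∧ f (g • v) = f v)
    (T : Finset V) (hTt : T.card ≤ t) (hT : ∀ a ∈ A, ∃ a₀ ∈ T, ∃ g : Γ, g • a₀ = a) :
    ∃ a ∈ A, ∃ B : Finset V, (∀ b ∈ B, G.Adj a b) ∧ D ≤ B.card ∧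
      ∀ b ∈ B, D ≤ {v : V | ∃ g : Γ, g • b = b ∧ g • a = v}.ncard := by
  classical
  have hdeg2 : ∀ v : V, 2 * D ≤ G.degree v := fun v =>
    (Nat.le_mul_of_pos_right _ (by omega)).trans (hdeg v)
  have huniq : ∀ x ∈ A, ∀ y z : V, G.Adj x y → G.Adj x z → f y = f z → y = z := by
    intro x hx y z hy hz hf
    have hyA : y ∉ A := (hbip x y hy).mp hx
    have hzA : z ∉ A := (hbip x z hz).mp hx
    exact (hnb x hx (f z)).unique ⟨hyA, hf, hy⟩ ⟨hzA, rfl, hz⟩
  obtain ⟨a0, ha0⟩ : ∃ a, a ∈ A := by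
    obtain ⟨v⟩ := ‹Nonempty V›
    by_cases hv : v ∈ A
    · exact ⟨v, hv⟩
    · have h1 := hdeg2 v
      have h2 : 0 < G.degree v := by omega
      rw [G.degree_pos_iff_exists_adj] at h2
      obtain ⟨w, hw⟩ := h2
      exact ⟨w, (hbip w v hw.symm).mpr hv⟩
  let orb : V → V → Set V := fun a b => {v : V | ∃ g : Γ, g • b = b ∧ g • a = v}
  by_contra hcon
  -- every vertex of `A` has few good neighbours
  have hfew : ∀ a ∈ A, ((Aᶜ.filter (fun b => G.Adj a b)).filter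
      (fun b => D ≤ (orb a b).ncard)).card < D := by
    intro a ha
    by_contra hge
    push Not at hge
    refine hcon ⟨a, ha, _, ?_, hge, ?_⟩
    · intro b hb
      exact (Finset.mem_filter.mp (Finset.mem_filter.mp hb).1).2
    · intro b hb
      exact (Finset.mem_filter.mp hb).2
  have hdA : ∀ a ∈ A, (Aᶜ.filter (fun b => G.Adj a b)).card = G.degree a := by
    intro a ha
    rw [← G.card_neighborFinset_eq_degree]
    congr 1
    ext b
    simp only [Finset.mem_filter, Finset.mem_compl, SimpleGraph.mem_neighborFinset]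
    exact ⟨fun h => h.2, fun h => ⟨(hbip a b h).mp ha, h⟩⟩
  have hdB : ∀ b ∈ Aᶜ, (A.filter (fun a => G.Adj a b)).card = G.degree b := by
    intro b hb
    rw [Finset.mem_compl] at hb
    rw [← G.card_neighborFinset_eq_degree]
    congr 1
    ext a
    simp only [Finset.mem_filter, SimpleGraph.mem_neighborFinset]
    exact ⟨fun h => h.2.symm, fun h => ⟨(hbip a b h.symm).mpr hb, h.symm⟩⟩
  -- bad edges seen from `A`
  have hbadA : ∀ a ∈ A, (Aᶜ.filter (fun b => G.Adj a b)).card <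
      2 * (Aᶜ.filter (fun b => G.Adj a b ∧ ¬ D ≤ (orb a b).ncard)).card := by
    intro a ha
    have h1 := hfew a ha
    have h2 := Finset.card_filter_add_card_filter_not (s := Aᶜ.filter (fun b => G.Adj a b))
      (fun b => D ≤ (orb a b).ncard)
    rw [Finset.filter_filter (fun b => G.Adj a b) (fun b => ¬ D ≤ (orb a b).ncard)] at h2
    have h3 := hdA a ha
    have h4 := hdeg2 a
    omega
  -- bad edges seen from the other side
  have hbadB : ∀ b ∈ Aᶜ, 2 * (A.filter (fun a => G.Adj a b ∧ ¬ D ≤ (orb a b).ncard)).card ≤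
      (A.filter (fun a => G.Adj a b)).card := by
    intro b hb
    rw [hdB b hb]
    rw [Finset.mem_compl] at hb
    have hsub : A.filter (fun a => G.Adj a b ∧ ¬ D ≤ (orb a b).ncard) ⊆
        T.biUnion (fun a₀ => A.filter (fun a => (G.Adj a b ∧ ¬ D ≤ (orb a b).ncard) ∧
          ∃ g : Γ, g • a₀ = a)) := by
      intro a ha
      obtain ⟨haA, ha2⟩ := Finset.mem_filter.mp ha
      obtain ⟨a₀, ha₀, g, hg⟩ := hT a haA
      exact Finset.mem_biUnion.mpr ⟨a₀, ha₀, Finset.mem_filter.mpr ⟨haA, ha2, g, hg⟩⟩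
    have h1 : (T.biUnion (fun a₀ => A.filter (fun a => (G.Adj a b ∧ ¬ D ≤ (orb a b).ncard) ∧
          ∃ g : Γ, g • a₀ = a))).card ≤ T.card * D := by
      refine Finset.card_biUnion_le_card_mul _ _ _ ?_
      intro a₀ _
      rcases Finset.eq_empty_or_nonempty (A.filter (fun a =>
        (G.Adj a b ∧ ¬ D ≤ (orb a b).ncard) ∧ ∃ g : Γ, g • a₀ = a)) with h0 | ⟨a₁, ha₁⟩
      · rw [h0, Finset.card_empty]; exact Nat.zero_le _
      · obtain ⟨ha₁A, ⟨hadj₁, hbad₁⟩, g₁, hg₁⟩ := Finset.mem_filter.mp ha₁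
        have h2 : (A.filter (fun a => (G.Adj a b ∧ ¬ D ≤ (orb a b).ncard) ∧
            ∃ g : Γ, g • a₀ = a)).card ≤ (orb a₁ b).ncard := by
          rw [← Set.ncard_coe_finset]
          refine Set.ncard_le_ncard ?_ (Set.toFinite _)
          intro a ha
          obtain ⟨haA, ⟨hadja, -⟩, g, hg⟩ := Finset.mem_filter.mp (Finset.mem_coe.mp ha)
          have hga : (g * g₁⁻¹) • a₁ = a := by
            rw [mul_smul, ← hg₁, inv_smul_smul, hg]
          refine ⟨g * g₁⁻¹, ?_, hga⟩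
          have h3 := hadj (g * g₁⁻¹) a₁ b hadj₁
          rw [hga] at h3
          exact huniq a haA _ _ h3 hadja (hcls (g * g₁⁻¹) b hb).2
        omega
    have h2 := Finset.card_le_card hsub
    have h3 : T.card * D ≤ t * D := Nat.mul_le_mul_right _ hTt
    have h4 := hdeg b
    have h5 : 2 * D * t = 2 * (t * D) := by ring
    omega
  have hdc1 := Finset.sum_card_bipartiteAbove_eq_sum_card_bipartiteBelow (s := A) (t := Aᶜ)
    (fun a b => G.Adj a b)
  have hdc2 := Finset.sum_card_bipartiteAbove_eq_sum_card_bipartiteBelow (s := A) (t := Aᶜ)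
    (fun a b => G.Adj a b ∧ ¬ D ≤ (orb a b).ncard)
  simp only [Finset.bipartiteAbove, Finset.bipartiteBelow] at hdc1 hdc2
  have h1 : ∑ a ∈ A, (Aᶜ.filter (fun b => G.Adj a b)).card <
      ∑ a ∈ A, 2 * (Aᶜ.filter (fun b => G.Adj a b ∧ ¬ D ≤ (orb a b).ncard)).card :=
    Finset.sum_lt_sum_of_nonempty ⟨a0, ha0⟩ hbadA
  have h2 : ∑ b ∈ Aᶜ, 2 * (A.filter (fun a => G.Adj a b ∧ ¬ D ≤ (orb a b).ncard)).card ≤
      ∑ b ∈ Aᶜ, (A.filter (fun a => G.Adj a b)).card := Finset.sum_le_sum hbadB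
  rw [← Finset.mul_sum] at h1 h2
  omega

/-- The local theorem without the assumption that the group is finite. -/
theorem tri_local (d g : ℕ) : ∃ D : ℕ, ∀ (V : Type) [Fintype V] [DecidableEq V]
    (G : SimpleGraph V) [DecidableRel G.Adj] (A : Finset V) (r : ℕ) (f : V → Fin r)
    (_hbip : ∀ u v : V, G.Adj u v → (u ∈ A ↔ v ∉ A))
    (_hnb : ∀ a ∈ A, ∀ i : Fin r, ∃! b : V, b ∉ A ∧ f b = i ∧ G.Adj a b)
    (_hC4 : ∀ (v : V) (p : G.Walk v v), p.IsCycle → p.length ≠ 4)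
    (Γ : Type) [Group Γ] [MulAction Γ V]
    (_hadj : ∀ (g : Γ) (u v : V), G.Adj u v → G.Adj (g • u) (g • v))
    (_hcls : ∀ (g : Γ) (v : V), v ∉ A → g • v ∉ A ∧ f (g • v) = f v)
    (a : V) (_ha : a ∈ A) (b : Fin (d + 2) → V) (_hb : Function.Injective b)
    (_hab : ∀ i, G.Adj a (b i))
    (_hnorm : ∀ i j, i < j → ∀ g h : Γ, g • b i = b i → h • b j = b j → (g * h * g⁻¹) • b j = b j)
    (_horb : ∀ i, D ≤ {v : V | ∃ g : Γ, g • b i = b i ∧ g • a = v}.ncard),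
    ∃ S : Finset V, S.Nonempty ∧
      (∀ v ∈ S, d < (S.filter (fun w => G.Adj v w)).card) ∧
      ∀ (v : V) (p : G.Walk v v), p.IsCycle → (∀ w ∈ p.support, w ∈ S) → g < p.length := by
  classical
  obtain ⟨D, hfin⟩ := tri_finite d g
  refine ⟨D, ?_⟩
  intro V _ _ G _ A r f hbip hnb hC4 Γ _ _ hadj hcls a ha b hb hab hnorm horb
  let ρ : Γ →* Equiv.Perm V := MulAction.toPermHom Γ V
  have hsm : ∀ σ : ρ.range, ∃ g : Γ, σ.1 = ρ g ∧ ∀ v : V, σ • v = g • v := by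
    rintro ⟨σ, g, rfl⟩
    exact ⟨g, rfl, fun v => rfl⟩
  have hsm' : ∀ g : Γ, ∃ σ : ρ.range, ∀ v : V, σ • v = g • v := fun g =>
    ⟨⟨ρ g, g, rfl⟩, fun v => rfl⟩
  have : Finite ρ.range := Subtype.finite
  refine hfin V G A r f hbip hnb hC4 ρ.range ?_ ?_ a ha b hb hab ?_ ?_
  · intro σ u v huv
    obtain ⟨g, -, hg⟩ := hsm σ
    rw [hg, hg]
    exact hadj g u v huv
  · intro σ v hv
    obtain ⟨g, -, hg⟩ := hsm σ
    rw [hg]
    exact hcls g v hv
  · intro i j hij σ τ hσ hτ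
    obtain ⟨g, hg1, hg⟩ := hsm σ
    obtain ⟨h, hh1, hh⟩ := hsm τ
    rw [hg] at hσ
    rw [hh] at hτ
    have h1 := hnorm i j hij g h hσ hτ
    have hginv : ∀ v : V, σ⁻¹ • v = g⁻¹ • v := by
      intro v
      rw [inv_smul_eq_iff, hg, smul_inv_smul]
    rw [mul_smul, mul_smul, hginv, hh, hg, ← mul_smul, ← mul_smul]
    exact h1
  · intro i
    refine (horb i).trans (Set.ncard_le_ncard ?_ (Set.toFinite _))
    rintro v ⟨g, hgb, hga⟩
    obtain ⟨σ, hσ⟩ := hsm' g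
    exact ⟨σ, by rw [hσ, hgb], by rw [hσ, hga]⟩

/-- At most `t` orbits on `A`, stabilizers outside `A` normalize each other. -/
theorem tri_orbits (d g : ℕ) : ∃ C : ℕ, ∀ (t : ℕ) (V : Type) [Fintype V] [DecidableEq V]
    [Nonempty V]
    (G : SimpleGraph V) [DecidableRel G.Adj] (A : Finset V) (r : ℕ) (f : V → Fin r)
    (_ht : 1 ≤ t)
    (_hbip : ∀ u v : V, G.Adj u v → (u ∈ A ↔ v ∉ A))
    (_hnb : ∀ a ∈ A, ∀ i : Fin r, ∃! b : V, b ∉ A ∧ f b = i ∧ G.Adj a b)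
    (_hmin : ∀ v : V, C * t ≤ G.degree v)
    (_hC4 : ∀ (v : V) (p : G.Walk v v), p.IsCycle → p.length ≠ 4)
    (Γ : Type) [Group Γ] [MulAction Γ V]
    (_hadj : ∀ (g : Γ) (u v : V), G.Adj u v → G.Adj (g • u) (g • v))
    (_hcls : ∀ (g : Γ) (v : V), v ∉ A → g • v ∉ A ∧ f (g • v) = f v)
    (_hnorm : ∀ b c : V, b ∉ A → c ∉ A → f b < f c → ∀ g h : Γ, g • b = b → h • c = c →
      (g * h * g⁻¹) • c = c)
    (T : Finset V) (_hTt : T.card ≤ t) (_hT : ∀ a ∈ A, ∃ a₀ ∈ T, ∃ g : Γ, g • a₀ = a),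
    ∃ S : Finset V, S.Nonempty ∧
      (∀ v ∈ S, d < (S.filter (fun w => G.Adj v w)).card) ∧
      ∀ (v : V) (p : G.Walk v v), p.IsCycle → (∀ w ∈ p.support, w ∈ S) → g < p.length := by
  classical
  obtain ⟨D, hloc⟩ := tri_local d g
  refine ⟨2 * (D + d + 2), ?_⟩
  intro t V _ _ _ G _ A r f ht hbip hnb hmin hC4 Γ _ _ hadj hcls hnorm T hTt hT
  obtain ⟨a, ha, B, hB, hBc, horb⟩ := good_vertex (D + d + 2) t (by omega) V G A r f ht hbip hnb
    hmin Γ hadj hcls T hTt hT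
  have hBA : ∀ b ∈ B, b ∉ A := fun b hb => (hbip a b (hB b hb)).mp ha
  have hinj : Set.InjOn f (B : Set V) := by
    intro b hb b' hb' he
    exact (hnb a ha (f b')).unique ⟨hBA b (Finset.mem_coe.mp hb), he, hB b (Finset.mem_coe.mp hb)⟩
      ⟨hBA b' (Finset.mem_coe.mp hb'), rfl, hB b' (Finset.mem_coe.mp hb')⟩
  -- `d + 2` classes in increasing order
  have hic : (B.image f).card = B.card := Finset.card_image_of_injOn hinj
  obtain ⟨I, hIB, hIc⟩ := Finset.exists_subset_card_eq (s := B.image f) (n := d + 2) (by omega)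
  let e : Fin (d + 2) ↪o Fin r := I.orderEmbOfFin hIc
  have heI : ∀ i, e i ∈ I := fun i => Finset.orderEmbOfFin_mem I hIc i
  have hex : ∀ i, ∃ b ∈ B, f b = e i := fun i => Finset.mem_image.mp (hIB (heI i))
  choose b hbB hbf using hex
  refine hloc V G A r f hbip hnb hC4 Γ hadj hcls a ha b ?_ (fun i => hB _ (hbB i)) ?_ ?_
  · intro i j h
    have h1 := congrArg f h
    rw [hbf, hbf] at h1
    exact e.injective h1
  · intro i j hij γ h h1 h2
    refine hnorm (b i) (b j) (hBA _ (hbB i)) (hBA _ (hbB j)) ?_ γ h h1 h2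
    rw [hbf, hbf]
    exact e.strictMono hij
  · intro i
    exact le_trans (by omega) (horb (b i) (hbB i))

end Pool.Agent.Lib.MP_59be9f_co.Sym
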